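import Pool.Agent.Helper10.RC.Basic

/-!
# Irreducible polynomials: resultant relation, Bezout with cleared denominators
-/

set_option autoImplicit false

namespace Pool.Agent.Helper54.RC

open Pool.Agent.Helper10.RC MvPolynomial

theorem bezout {K : Type} [Field K] {n : ℕ} (Q₁ Q₂ : Pl K n)
    (hc : IsCoprime (Q₁.map (algebraMap _ (FractionRing (MvPolynomial (Fin n) K))))
      (Q₂.map (algebraMap _ (FractionRing (MvPolynomial (Fin n) K))))) :
    ∃ (U V : Pl K n) (g : MvPolynomial (Fin n) K), g ≠ 0 ∧ U * Q₁ + V * Q₂ = Polynomial.C g := by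
  set A := MvPolynomial (Fin n) K with hA
  set F := FractionRing A with hF
  obtain ⟨a, b, hab⟩ := hc
  obtain ⟨s, hs, hsa⟩ := IsLocalization.integerNormalization_spec (nonZeroDivisors A) a
  obtain ⟨t, ht, htb⟩ := IsLocalization.integerNormalization_spec (nonZeroDivisors A) b
  set a' := IsLocalization.integerNormalization (nonZeroDivisors A) a
  set b' := IsLocalization.integerNormalization (nonZeroDivisors A) b
  refine ⟨Polynomial.C t * a', Polynomial.C s * b', s * t,
    mul_ne_zero (nonZeroDivisors.ne_zero hs) (nonZeroDivisors.ne_zero ht), ?_⟩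
  have hinj : Function.Injective (Polynomial.map (algebraMap A F)) :=
    Polynomial.map_injective _ (IsFractionRing.injective A F)
  apply hinj
  have h1 : a'.map (algebraMap A F) = Polynomial.C (algebraMap A F s) * a := by
    rw [hsa, ← Polynomial.smul_eq_C_mul, algebraMap_smul]
  have h2 : b'.map (algebraMap A F) = Polynomial.C (algebraMap A F t) * b := by
    rw [htb, ← Polynomial.smul_eq_C_mul, algebraMap_smul]
  simp only [Polynomial.map_add, Polynomial.map_mul, Polynomial.map_C, h1, h2, map_mul]
  linear_combination (Polynomial.C (algebraMap A F s) * Polynomial.C (algebraMap A F t)) * hab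

theorem irr_rel {K : Type} [Field K] {n : ℕ} (P : Pl K n) (hP : P.Monic) (hirr : Irreducible P)
    (G : Pl K n) (hG : G ≠ 0) (hd : G.degree < P.degree) :
    ∃ g : MvPolynomial (Fin n) K, g ≠ 0 ∧ ∀ (t : Fin n → K) (y : K), evh t y P = 0 →
      evh t y G = 0 → eval t g = 0 := by
  have hinj := IsFractionRing.injective (MvPolynomial (Fin n) K)
    (FractionRing (MvPolynomial (Fin n) K))
  have hc : IsCoprime (P.map (algebraMap _ (FractionRing (MvPolynomial (Fin n) K))))
      (G.map (algebraMap _ (FractionRing (MvPolynomial (Fin n) K)))) := by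
    have h1 := (hP.irreducible_iff_irreducible_map_fraction_map
      (K := FractionRing (MvPolynomial (Fin n) K))).1 hirr
    rw [h1.coprime_iff_not_dvd]
    intro h2
    have h3 := Polynomial.degree_le_of_dvd h2
      ((Polynomial.map_ne_zero_iff hinj).2 hG)
    rw [Polynomial.degree_map_eq_of_injective hinj, Polynomial.degree_map_eq_of_injective hinj] at h3
    exact absurd hd (not_lt.2 h3)
  obtain ⟨U, V, g, hg, h⟩ := bezout P G hc
  refine ⟨g, hg, fun t y h1 h2 => ?_⟩
  have h3 := congrArg (evh t y) h
  rw [map_add, map_mul, map_mul, h1, h2] at h3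
  have h4 : evh t y (Polynomial.C g) = eval t g := by
    simp [evh]
  rw [← h4, ← h3]
  simp

end Pool.Agent.Helper54.RC
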