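import Pool.Agent.Helper54.Farkas
import Mathlib

set_option autoImplicit false

/-!
Finitely generated commutative semigroups with cancellative pointwise endomorphism semigroup.
-/

namespace Pool.Agent.Helper54.EndCanc

section hom

variable {S M : Type*} [CommSemigroup S] [CommMonoid M]

theorem exists_pow (i : S →ₙ* M) (b : S) (n : ℕ) (hn : 0 < n) : ∃ y, i y = i b ^ n := by
  induction n with
  | zero => omega
  | succ n ih =>
    rcases Nat.eq_zero_or_pos n with rfl | h
    · exact ⟨b, by simp⟩
    · obtain ⟨y, hy⟩ := ih h
      exact ⟨y * b, by rw [map_mul, hy, pow_succ]⟩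

/-- The set of differences of values of an additive function has a positive least element which
divides all values. -/
theorem exists_div (l : S → ℕ) (hl : ∀ x y, l (x * y) = l x + l y) (hne : ∃ x, 0 < l x) :
    ∃ d : ℕ, 0 < d ∧ (∀ x, d ∣ l x) ∧ ∃ a b, l a = l b + d := by
  classical
  have hex : ∃ d : ℕ, 0 < d ∧ ∃ a b, l a = l b + d := by
    obtain ⟨x, hx⟩ := hne
    exact ⟨l x, hx, x * x, x, by rw [hl]⟩
  let d := Nat.find hex
  obtain ⟨hd, a, b, hab⟩ : 0 < d ∧ ∃ a b, l a = l b + d := Nat.find_spec hex
  have hmin : ∀ m : ℕ, m < d → (∃ a b, l a = l b + m) → m = 0 := by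
    intro m hm h
    by_contra h0
    exact Nat.find_min hex hm ⟨Nat.pos_of_ne_zero h0, h⟩
  refine ⟨d, hd, ?_, a, b, hab⟩
  have key : ∀ m : ℕ, (∃ a b, l a = l b + m) → d ∣ m := by
    intro m
    induction m using Nat.strong_induction_on with
    | _ m ih =>
      intro h
      rcases lt_or_ge m d with hlt | hge
      · rw [hmin m hlt h]
        exact dvd_zero _
      · obtain ⟨a', b', h'⟩ := h
        have h1 : d ∣ m - d := ih (m - d) (by omega) ⟨a' * b, b' * a, by rw [hl, hl]; omega⟩
        have h2 : m = (m - d) + d := by omega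
        rw [h2]
        exact dvd_add h1 (dvd_refl d)
  exact fun x => key (l x) ⟨x * x, x, by rw [hl]⟩

/-- Numerical semigroups containing consecutive numbers contain all large numbers. -/
theorem eventually_mem (P : ℕ → Prop) (hP : ∀ m n, P m → P n → P (m + n)) (h0 : P 0) (n : ℕ)
    (hn : P n) (hn1 : P (n + 1)) : ∃ N, ∀ m, N ≤ m → P m := by
  have hmul : ∀ (q m : ℕ), P m → P (q * m) := by
    intro q m hm
    induction q with
    | zero => simpa using h0
    | succ q ih => rw [Nat.succ_mul]; exact hP _ _ ih hm
  rcases Nat.eq_zero_or_pos n with rfl | hpos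
  · exact ⟨0, fun m _ => by simpa using hmul m 1 hn1⟩
  · refine ⟨n * n, fun m hm => ?_⟩
    have h1 : m % n < n := Nat.mod_lt _ hpos
    have h2 : n ≤ m / n := by
      rw [Nat.le_div_iff_mul_le hpos]
      exact hm
    have h3 : m = (m / n - m % n) * n + (m % n) * (n + 1) := by
      have h4 := Nat.div_add_mod m n
      obtain ⟨t, ht⟩ : ∃ t, m / n = m % n + t := ⟨m / n - m % n, by omega⟩
      have h5 : m / n - m % n = t := by omega
      rw [h5]
      calc m = n * (m / n) + m % n := h4.symm
        _ = n * (m % n + t) + m % n := by rw [ht]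
        _ = t * n + (m % n) * (n + 1) := by ring
    rw [h3]
    exact hP _ _ (hmul _ _ hn) (hmul _ _ hn1)

/-- From an additive function to cancellation up to large powers. -/
theorem eventually_pow_eq (i : S →ₙ* M) (hi : Function.Injective i)
    (l : S → ℕ) (hl : ∀ x y, l (x * y) = l x + l y) (hne : ∃ x, 0 < l x)
    (hpos : (∀ x, 0 < l x) ∨ ∃ e, i e = 1)
    (hE : ∀ f g h : S →ₙ* S, f * h = g * h → f = g) (a b c : S) (habc : a * b = a * c) :
    ∃ N, ∀ n, N ≤ n → i b ^ n = i c ^ n := by
  obtain ⟨d, hd, hdvd, a', b', hab'⟩ := exists_div l hl hne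
  have hdiv : ∀ x y, l (x * y) / d = l x / d + l y / d := by
    intro x y
    rw [hl, Nat.add_div_of_dvd_right (hdvd x)]
  have hex : ∀ b x : S, ∃ y, i y = i b ^ (l x / d) := by
    intro b x
    rcases Nat.eq_zero_or_pos (l x / d) with h0 | h0
    · rcases hpos with h | ⟨e, he⟩
      · exfalso
        have h1 := h x
        have h2 := Nat.div_mul_cancel (hdvd x)
        rw [h0, zero_mul] at h2
        omega
      · exact ⟨e, by rw [h0, pow_zero, he]⟩
    · exact exists_pow i b _ h0
  choose F hF using hex
  let G : S → (S →ₙ* S) := fun b => ⟨F b, fun x y => hi (by rw [hF, map_mul, hF, hF, hdiv, pow_add])⟩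
  have hG : ∀ b x, i (G b x) = i b ^ (l x / d) := fun b x => hF b x
  have hGG : G b * G a = G c * G a := by
    apply MulHom.ext
    intro x
    apply hi
    rw [MulHom.mul_apply, MulHom.mul_apply, map_mul, map_mul, hG, hG, hG, ← mul_pow, ← mul_pow,
      ← map_mul, ← map_mul, mul_comm b a, mul_comm c a, habc]
  have hGe := hE _ _ _ hGG
  have hpow : ∀ x, i b ^ (l x / d) = i c ^ (l x / d) := by
    intro x
    rw [← hG, ← hG, hGe]
  apply eventually_mem (fun n => i b ^ n = i c ^ n) (fun m n hm hn => by
    rw [pow_add, pow_add, hm, hn]) (by simp) (l b' / d) (hpow b')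
  have h1 : l a' / d = l b' / d + 1 := by
    rw [hab', Nat.add_div_right _ hd]
  rw [← h1]
  exact hpow a'

/-- In a separative commutative semigroup elements with equal large powers are equal. -/
theorem eq_of_eventually (i : S →ₙ* M) (hi : Function.Injective i)
    (hsep : ∀ a b : S, a * a = a * b → a * b = b * b → a = b) (b c : S)
    (h : ∃ N, ∀ n, N ≤ n → i b ^ n = i c ^ n) : b = c := by
  have key : ∀ u v : S, u * u = v * v → u * u * u = v * v * v → u = v := by
    intro u v h2 h3
    have h4 : u * v = u * u := by
      apply hsep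
      · -- (uv)(uv) = (uv)(uu)
        calc u * v * (u * v) = (u * u) * (v * v) := by
              rw [mul_mul_mul_comm]
          _ = (v * v) * (v * v) := by rw [h2]
          _ = (v * v * v) * v := by rw [mul_assoc (v * v) v v]
          _ = (u * u * u) * v := by rw [h3]
          _ = u * v * (u * u) := by
              rw [mul_assoc (u * u) u v, mul_comm (u * u) (u * v)]
      · calc u * v * (u * u) = (u * u * u) * v := by
              rw [mul_assoc (u * u) u v, mul_comm (u * u) (u * v)]
          _ = (v * v * v) * v := by rw [h3]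
          _ = (v * v) * (v * v) := by rw [mul_assoc (v * v) v v]
          _ = (u * u) * (u * u) := by rw [h2]
    exact hsep u v h4.symm (by rw [h4, h2])
  obtain ⟨N, hN⟩ := h
  have hdown : ∀ k n : ℕ, 1 ≤ n → N ≤ n + k → i b ^ n = i c ^ n := by
    intro k
    induction k with
    | zero => intro n _ hn; exact hN n (by omega)
    | succ k ih =>
      intro n hn hnk
      obtain ⟨u, hu⟩ := exists_pow i b n hn
      obtain ⟨v, hv⟩ := exists_pow i c n hn
      have huv : u = v := by
        apply key
        · apply hi
          rw [map_mul, map_mul, hu, hv, ← pow_add, ← pow_add]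
          exact ih (n + n) (by omega) (by omega)
        · apply hi
          rw [map_mul, map_mul, map_mul, map_mul, hu, hv, ← pow_add, ← pow_add, ← pow_add,
            ← pow_add]
          exact ih (n + n + n) (by omega) (by omega)
      rw [← hu, ← hv, huv]
  have := hdown N 1 le_rfl (by omega)
  rw [pow_one, pow_one] at this
  exact hi this

end hom

section fg

variable {S : Type*} [CommSemigroup S]

/-- An idempotent of a commutative semigroup with cancellative `End` is an identity. -/
theorem idem_identity (hE : ∀ f g h : S →ₙ* S, f * h = g * h → f = g) (e : S) (he : e * e = e)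
    (x : S) : e * x = x := by
  let c : S →ₙ* S := ⟨fun _ => e, fun _ _ => he.symm⟩
  let f : S →ₙ* S := ⟨fun x => e * x, fun x y => by rw [mul_mul_mul_comm, he]⟩
  have h : f * c = MulHom.id S * c := by
    apply MulHom.ext
    intro x
    change e * x * e = x * e
    rw [mul_comm e x, mul_assoc, he]
  have := DFunLike.congr_fun (hE _ _ _ h) x
  exact this

/-- A commutative semigroup with cancellative multiplication has cancellative `End`. -/
theorem end_of_cancel (hS : ∀ a b c : S, a * b = a * c → b = c) (f g h : S →ₙ* S)
    (hfg : f * h = g * h) : f = g := by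
  apply MulHom.ext
  intro x
  have := DFunLike.congr_fun hfg x
  simp only [MulHom.mul_apply] at this
  rw [mul_comm (f x), mul_comm (g x)] at this
  exact hS _ _ _ this

omit [CommSemigroup S] in
theorem withOne_cases (x : WithOne S) : x = 1 ∨ ∃ y : S, x = y := by
  by_cases h : x = 1
  · exact Or.inl h
  · obtain ⟨y, hy⟩ := WithOne.ne_one_iff_exists.1 h
    exact Or.inr ⟨y, hy.symm⟩

theorem withOne_closure (T : Set S) (hT : Subsemigroup.closure T = ⊤) :
    Submonoid.closure ((fun x : S => (x : WithOne S)) '' T) = ⊤ := by
  rw [eq_top_iff]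
  rintro x -
  rcases withOne_cases x with rfl | ⟨y, rfl⟩
  · exact one_mem _
  · have hy : y ∈ Subsemigroup.closure T := by rw [hT]; trivial
    induction hy using Subsemigroup.closure_induction with
    | mem y hy => exact Submonoid.subset_closure ⟨y, hy, rfl⟩
    | mul x y _ _ hx hy =>
      rw [WithOne.coe_mul]
      exact mul_mem hx hy

/-- The general necessary condition in the finitely generated case. -/
theorem fg_necessary (T : Set S) (hTf : T.Finite) (hT : Subsemigroup.closure T = ⊤)
    (hcond : (∃ e : S, e * e = e) ∨ ∀ x w : S, x * w ≠ w)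
    (hE : ∀ f g h : S →ₙ* S, f * h = g * h → f = g) (a b c : S) (habc : a * b = a * c) :
    ∃ N, ∀ n, N ≤ n → (b : WithOne S) ^ n = (c : WithOne S) ^ n := by
  classical
  have hinj : Function.Injective (fun x : S => (x : WithOne S)) := WithOne.coe_injective
  rcases hcond with ⟨e, he⟩ | hno
  · -- the case of an idempotent
    have hid : ∀ x, e * x = x := idem_identity hE e he
    let M : CommMonoid S := { ‹CommSemigroup S› with
      one := e
      one_mul := hid
      mul_one := fun x => by rw [mul_comm]; exact hid x }
    have hone : (1 : S) = e := rfl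
    have huniq : ∀ e' : S, e' * e' = e' → e' = 1 := by
      intro e' he'
      have h1 := idem_identity hE e' he' 1
      rw [mul_one] at h1
      exact h1
    have : Monoid.FG S := by
      refine (Monoid.fg_iff).2 ⟨T, ?_, hTf⟩
      rw [eq_top_iff]
      rintro x -
      have hx : x ∈ Subsemigroup.closure T := by rw [hT]; trivial
      induction hx using Subsemigroup.closure_induction with
      | mem y hy => exact Submonoid.subset_closure hy
      | mul x y _ _ hx hy => exact mul_mem hx hy
    by_cases hng : ∃ x : S, ¬ IsUnit x
    · obtain ⟨l, hl, hne⟩ := exists_hom huniq hng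
      obtain ⟨N, hN⟩ := eventually_pow_eq (MulHom.id S) Function.injective_id l hl hne
        (Or.inr ⟨1, rfl⟩) hE a b c habc
      refine ⟨N + 1, fun n hn => ?_⟩
      have h1 : ∀ (b : S) (n : ℕ), 0 < n → (b : WithOne S) ^ n = ((b ^ n : S) : WithOne S) := by
        intro b n hn
        induction n with
        | zero => omega
        | succ n ih =>
          rcases Nat.eq_zero_or_pos n with rfl | h
          · simp
          · rw [pow_succ, ih h, pow_succ, WithOne.coe_mul]
      rw [h1 b n (by omega), h1 c n (by omega)]
      have h2 := hN n (by omega)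
      simp only [MulHom.id_apply] at h2
      rw [h2]
    · push Not at hng
      obtain ⟨u, hu⟩ := hng a
      have : b = c := by
        have h1 : (u : S) * b = u * c := by rw [hu]; exact habc
        exact (Units.mul_right_inj u).1 h1
      exact ⟨0, fun n _ => by rw [this]⟩
  · -- no element acts as an identity on another one
    have : Monoid.FG (WithOne S) := by
      refine (Monoid.fg_iff).2 ⟨_, withOne_closure T hT, hTf.image _⟩
    have hL : ∀ x : S, ∃ L : WithOne S → ℕ, (∀ x y, L (x * y) = L x + L y) ∧ 0 < L x := by
      intro x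
      rcases farkas (x : WithOne S) with h | ⟨v, w, hvw⟩
      · exact h
      · exfalso
        obtain ⟨y, hy⟩ : ∃ y : S, (y : WithOne S) = x * v := by
          rcases withOne_cases v with rfl | ⟨v, rfl⟩
          · exact ⟨x, by rw [mul_one]⟩
          · exact ⟨x * v, rfl⟩
        rw [← hy] at hvw
        rcases withOne_cases w with rfl | ⟨w, rfl⟩
        · rw [mul_one] at hvw
          exact WithOne.coe_ne_one hvw
        · rw [← WithOne.coe_mul] at hvw
          exact hno y w (hinj hvw)
    choose L hL1 hL2 using hL
    let l : S → ℕ := fun y => ∑ t ∈ hTf.toFinset, L t (y : WithOne S)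
    have hl : ∀ x y, l (x * y) = l x + l y := by
      intro x y
      simp only [l, WithOne.coe_mul, hL1]
      rw [Finset.sum_add_distrib]
    have hlpos : ∀ x, 0 < l x := by
      intro x
      have hx : x ∈ Subsemigroup.closure T := by rw [hT]; trivial
      induction hx using Subsemigroup.closure_induction with
      | mem y hy =>
        have h1 : L y (y : WithOne S) ≤ l y :=
          Finset.single_le_sum (f := fun t => L t (y : WithOne S)) (fun _ _ => Nat.zero_le _)
            (hTf.mem_toFinset.2 hy)
        have := hL2 y
        omega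
      | mul x y _ _ hx hy => rw [hl]; omega
    exact eventually_pow_eq (i := ⟨fun x : S => (x : WithOne S), fun x y => WithOne.coe_mul x y⟩)
      hinj l hl ⟨a, hlpos a⟩ (Or.inl hlpos) hE a b c habc

/-- Cancellativity of the semigroup of endomorphisms with pointwise multiplication. -/
theorem cancelMul_end_iff :
    IsCancelMul (S →ₙ* S) ↔ ∀ f g h : S →ₙ* S, f * h = g * h → f = g := by
  constructor
  · intro H f g h hfg
    exact mul_right_cancel hfg
  · intro H
    have hc : ∀ f g : S →ₙ* S, f * g = g * f := fun f g => MulHom.ext fun x => by simp [mul_comm]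
    exact { mul_left_cancel := fun a b c hbc => by
              have hbc' : a * b = a * c := hbc
              rw [hc a b, hc a c] at hbc'
              exact H b c a hbc'
            mul_right_cancel := fun a b c hbc => H b c a hbc }

theorem cancelMul_iff : IsCancelMul S ↔ ∀ a b c : S, a * b = a * c → b = c := by
  constructor
  · intro H a b c habc
    exact mul_left_cancel habc
  · intro H
    exact { mul_left_cancel := fun a b c hbc => H a b c hbc
            mul_right_cancel := fun a b c hbc => by
              have hbc' : b * a = c * a := hbc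
              rw [mul_comm b a, mul_comm c a] at hbc'
              exact H a b c hbc' }

/-- Every element has a power which is a regular element. -/
theorem epigroup_end [Nonempty S]
    (hS : ∀ x : S, ∃ n : ℕ, 0 < n ∧ ∃ p y : S, (p : WithOne S) = (x : WithOne S) ^ n ∧
      p * y * p = p)
    (hE : ∀ f g h : S →ₙ* S, f * h = g * h → f = g) :
    ∃ e : S, ∀ x, e * x = x ∧ ∃ y, x * y = e := by
  have hreg : ∀ p y : S, p * y * p = p → p * y * (p * y) = p * y := by
    intro p y h
    rw [← mul_assoc, h]
  obtain ⟨x0⟩ := (inferInstance : Nonempty S)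
  obtain ⟨n, hn, p, y, -, hpy⟩ := hS x0
  refine ⟨p * y, fun x => ⟨idem_identity hE _ (hreg p y hpy) x, ?_⟩⟩
  obtain ⟨m, hm, q, z, hq, hqz⟩ := hS x
  have h1 : q * z = p * y := by
    have h2 := idem_identity hE _ (hreg p y hpy) (q * z)
    have h3 := idem_identity hE _ (hreg q z hqz) (p * y)
    rw [← h2, mul_comm, h3]
  obtain ⟨r, hr⟩ : ∃ r : WithOne S, (q : WithOne S) = x * r := by
    obtain ⟨k, rfl⟩ : ∃ k, m = k + 1 := ⟨m - 1, by omega⟩
    exact ⟨(x : WithOne S) ^ k, by rw [hq, pow_succ, mul_comm]⟩
  rcases withOne_cases r with rfl | ⟨r, rfl⟩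
  · refine ⟨z, ?_⟩
    rw [← h1]
    rw [mul_one] at hr
    rw [WithOne.coe_injective hr]
  · refine ⟨r * z, ?_⟩
    rw [← h1, ← mul_assoc]
    rw [← WithOne.coe_mul] at hr
    rw [WithOne.coe_injective hr]

end fg

end Pool.Agent.Helper54.EndCanc
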