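import Mathlib

/-!
The algebraic identities at a critical point of `det (K + B)`.
-/

set_option autoImplicit false
set_option linter.unusedSimpArgs false
set_option linter.unusedSectionVars false

namespace Pool.Agent.Helper54.OMC

open Matrix Complex
open scoped ComplexConjugate

/-- scalar identity behind the vanishing of the second variation in star directions -/
theorem cx1 (θ D η : ℂ) (yk yl : ℝ) (hη : η ≠ 0) (hD : D.im = yl - yk) :
    (2 * I * ((η * D).re : ℂ) - 2 * yk * conj θ * conj D + 2 * θ * yl * D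
      + (2 * (I * θ * ((η * D).re : ℂ) * D + (Complex.normSq D : ℂ) * ((conj η * θ).im : ℂ))) / η).re = 0 := by
  obtain ⟨a, b⟩ := θ
  obtain ⟨p, q⟩ := D
  obtain ⟨x, y⟩ := η
  simp only at hD
  subst hD
  have hN : x ^ 2 + y ^ 2 ≠ 0 := by
    intro h
    apply hη
    have hx : x = 0 := by nlinarith [sq_nonneg x, sq_nonneg y]
    have hy : y = 0 := by nlinarith [sq_nonneg x, sq_nonneg y]
    rw [hx, hy]; rfl
  simp only [Complex.div_re, Complex.add_re, Complex.sub_re, Complex.mul_re, Complex.mul_im,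
    Complex.I_re, Complex.I_im, Complex.conj_re, Complex.conj_im, Complex.ofReal_re,
    Complex.ofReal_im, Complex.add_im, Complex.sub_im, Complex.normSq_mk, Complex.re_ofNat,
    Complex.im_ofNat]
  have hN' : x * x + y * y ≠ 0 := by rw [← sq, ← sq]; exact hN
  field_simp
  ring

/-- scalar contradiction -/
theorem cx2 (θ D η : ℂ) (yk yl : ℝ) (hη : η ≠ 0) (hD : D.im = yl - yk)
    (hyk : yk ≠ 0) (hyl : yl ≠ 0)
    (h1 : (yl : ℂ) * η + I * ((η * D).re : ℂ) - conj θ * yk * conj D = 0)
    (h2 : -(conj η * θ).im = yk * Complex.normSq θ) : False := by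
  have hX : (yl : ℂ) * η + I * ((η * D).re : ℂ) = conj θ * yk * conj D := by
    linear_combination h1
  have k1 : yl * yk * Complex.normSq η = Complex.normSq ((yl : ℂ) * η + I * ((η * D).re : ℂ))
      + (conj η * conj D * conj ((yl : ℂ) * η + I * ((η * D).re : ℂ))).im := by
    obtain ⟨p, q⟩ := D
    obtain ⟨x, y⟩ := η
    simp only at hD
    subst hD
    simp only [Complex.normSq_apply, Complex.add_re, Complex.mul_re, Complex.mul_im,
      Complex.I_re, Complex.I_im, Complex.conj_re, Complex.conj_im, Complex.ofReal_re,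
      Complex.ofReal_im, Complex.add_im]
    ring
  have k2 : Complex.normSq (conj θ * yk * conj D)
      + (conj η * conj D * conj (conj θ * yk * conj D)).im
      = yk * Complex.normSq D * (yk * Complex.normSq θ + (conj η * θ).im) := by
    obtain ⟨p, q⟩ := D
    obtain ⟨x, y⟩ := η
    obtain ⟨a, b⟩ := θ
    simp only [Complex.normSq_apply, Complex.mul_re, Complex.mul_im,
      Complex.conj_re, Complex.conj_im, Complex.ofReal_re,
      Complex.ofReal_im]
    ring
  rw [hX, k2, ← h2] at k1
  have k3 : yl * yk * Complex.normSq η = 0 := by rw [k1]; ring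
  rcases mul_eq_zero.1 k3 with h | h
  · rcases mul_eq_zero.1 h with h | h
    · exact hyl h
    · exact hyk h
  · exact hη (Complex.normSq_eq_zero.1 h)

variable {n : Type*} [Fintype n] [DecidableEq n]

/-- The vector `v_j = - S_{jk} / conj (b_j - b_k)` (zero at `j = k`). -/
noncomputable def vv (S : Matrix n n ℂ) (b : n → ℂ) (k : n) : n → ℂ :=
  fun j => - S j k / conj (b j - b k)

/-- The star direction at `k`. -/
noncomputable def YY (S : Matrix n n ℂ) (b : n → ℂ) (k : n) : Matrix n n ℂ :=
  vecMulVec (fun j => ((b j).im : ℂ) * vv S b k j) (Pi.single k 1)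
    + vecMulVec (Pi.single k 1) (fun j => ((b j).im : ℂ) * conj (vv S b k j))

section star

variable (S : Matrix n n ℂ) (b : n → ℂ) (η : ℂ) (k : n)

theorem vv_self : vv S b k k = 0 := by simp [vv]

theorem YY_isHermitian : (YY S b k).IsHermitian := by
  unfold YY
  rw [Matrix.IsHermitian, conjTranspose_add, conjTranspose_vecMulVec, conjTranspose_vecMulVec,
    add_comm]
  congr 1
  · congr 1
    · ext j; simp
    · ext j; simp [Pi.single_apply]
  · congr 1
    · ext j; simp [Pi.single_apply]
    · ext j; simp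

/-- commutator of the star direction with the diagonal matrix -/
theorem YY_comm : YY S b k * diagonal b - diagonal b * YY S b k
    = vecMulVec (fun j => -((b j).im : ℂ) * (vv S b k j * (b j - b k))) (Pi.single k 1)
    + vecMulVec (Pi.single k 1) (fun j => ((b j).im : ℂ) * (conj (vv S b k j) * (b j - b k))) := by
  ext i j
  simp only [YY, Matrix.sub_apply, Matrix.mul_diagonal, Matrix.diagonal_mul, Matrix.add_apply,
    vecMulVec_apply, Pi.single_apply]
  by_cases hi : i = k <;> by_cases hj : j = k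
  · subst hi; subst hj; simp [vv_self]
  · subst hi; simp [hj]; ring
  · subst hj; simp [hi]; ring
  · simp [hi, hj]

variable (hb : Function.Injective b)
  (hW : ∀ i j, S i j * (b j - b i) = conj (S j i * (b i - b j)))

include hb in
theorem S_jk {j : n} (hj : j ≠ k) : S j k = - vv S b k j * conj (b j - b k) := by
  have : conj (b j - b k) ≠ 0 := by
    rw [Ne, map_eq_zero_iff _ (starRingEnd ℂ).injective, sub_eq_zero]
    exact fun h => hj (hb h)
  unfold vv
  field_simp

include hb hW in
theorem S_kj {j : n} (hj : j ≠ k) : S k j = conj (vv S b k j) * conj (b j - b k) := by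
  have h0 : b j - b k ≠ 0 := by
    rw [Ne, sub_eq_zero]
    exact fun h => hj (hb h)
  have h1 : S k j * (b j - b k) = conj (vv S b k j) * conj (b j - b k) * (b j - b k) := by
    rw [hW k j, S_jk S b k hb hj]
    simp only [map_mul, map_sub, map_neg, Complex.conj_conj]
    ring
  exact mul_right_cancel₀ h0 h1

end star

section rankTwo

variable (S : Matrix n n ℂ) (k : n) (u w r r' : n → ℂ)

theorem trace_vv (x y z t : n → ℂ) :
    (vecMulVec x y * vecMulVec z t).trace = (y ⬝ᵥ z) * (x ⬝ᵥ t) := by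
  rw [vecMulVec_mul_vecMulVec, trace_vecMulVec, dotProduct_smul, smul_eq_mul]

theorem mulVec_e : S *ᵥ (Pi.single k 1) = fun j => S j k := by
  rw [mulVec_single_one]; rfl

theorem e_vecMul : (Pi.single k 1) ᵥ* S = fun j => S k j := by
  rw [single_one_vecMul]; rfl

theorem dot_S_e : w ⬝ᵥ (fun j => S j k) = (w ᵥ* S) k := rfl

theorem trace_SC : (S * (vecMulVec u (Pi.single k 1) + vecMulVec (Pi.single k 1) w)).trace
    = (S *ᵥ u) k + (w ᵥ* S) k := by
  rw [Matrix.mul_add, Matrix.trace_add, mul_vecMulVec, mul_vecMulVec, trace_vecMulVec,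
    trace_vecMulVec, dotProduct_single_one, mulVec_e, dotProduct_comm, dot_S_e]

theorem trace_SCSC : (S * (vecMulVec u (Pi.single k 1) + vecMulVec (Pi.single k 1) w)
      * (S * (vecMulVec u (Pi.single k 1) + vecMulVec (Pi.single k 1) w))).trace
    = (S *ᵥ u) k ^ 2 + 2 * (w ⬝ᵥ (S *ᵥ u)) * S k k + (w ᵥ* S) k ^ 2 := by
  rw [Matrix.mul_add, mul_vecMulVec, mul_vecMulVec, mulVec_e, Matrix.mul_add, Matrix.add_mul,
    Matrix.add_mul, Matrix.trace_add, Matrix.trace_add, Matrix.trace_add, trace_vv, trace_vv,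
    trace_vv, trace_vv]
  simp only [single_one_dotProduct, dotProduct_single_one]
  rw [dotProduct_comm (S *ᵥ u) w, dotProduct_comm (fun j => S j k) w, dot_S_e]
  ring

theorem trace_CYS (hr : r k = 0) (hr' : r' k = 0) (hu : u k = 0) (hw : w k = 0) :
    ((vecMulVec u (Pi.single k 1) + vecMulVec (Pi.single k 1) w)
      * ((vecMulVec r (Pi.single k 1) + vecMulVec (Pi.single k 1) r') * S
        - S * (vecMulVec r (Pi.single k 1) + vecMulVec (Pi.single k 1) r'))).trace
    = r' ⬝ᵥ (S *ᵥ u) + S k k * (w ⬝ᵥ r) - S k k * (r' ⬝ᵥ u) - (w ᵥ* S) ⬝ᵥ r := by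
  rw [Matrix.add_mul (vecMulVec r _), vecMulVec_mul, vecMulVec_mul, Matrix.mul_add S,
    mul_vecMulVec, mul_vecMulVec, mulVec_e, e_vecMul]
  simp only [Matrix.mul_add, Matrix.mul_sub, Matrix.add_mul, Matrix.trace_add, Matrix.trace_sub,
    trace_vv, single_one_dotProduct, dotProduct_single_one, hr, hr', hu, hw, Pi.single_eq_same]
  rw [show (u ⬝ᵥ r' ᵥ* S) = r' ⬝ᵥ (S *ᵥ u) by
      rw [dotProduct_comm, ← dotProduct_mulVec],
    show (w ⬝ᵥ S *ᵥ r) = (w ᵥ* S) ⬝ᵥ r by rw [dotProduct_mulVec],
    dotProduct_comm u r']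
  ring

theorem SCS_apply (l : n) :
    (S * (vecMulVec u (Pi.single k 1) + vecMulVec (Pi.single k 1) w) * S) l l
    = (S *ᵥ u) l * S k l + S l k * (w ᵥ* S) l := by
  rw [Matrix.mul_add, mul_vecMulVec, mul_vecMulVec, mulVec_e, Matrix.add_mul, vecMulVec_mul,
    vecMulVec_mul, e_vecMul, Matrix.add_apply, vecMulVec_apply, vecMulVec_apply]

theorem YS_apply (l : n) (hl : l ≠ k) :
    ((vecMulVec r (Pi.single k 1) + vecMulVec (Pi.single k 1) r') * S
        - S * (vecMulVec r (Pi.single k 1) + vecMulVec (Pi.single k 1) r')) l l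
    = r l * S k l - S l k * r' l := by
  rw [Matrix.add_mul (vecMulVec r _), vecMulVec_mul, vecMulVec_mul, Matrix.mul_add S,
    mul_vecMulVec, mul_vecMulVec, mulVec_e, e_vecMul]
  simp [vecMulVec_apply, hl]

end rankTwo

section identities

variable (S : Matrix n n ℂ) (b : n → ℂ) (η : ℂ) (k : n)

/-- `Γ = - Im (conj η S)` -/
noncomputable def Γ (i j : n) : ℂ := (I / 2) * (conj η * S i j - η * conj (S j i))

/-- the column vector of the commutator -/
noncomputable def uu : n → ℂ := fun j => -((b j).im : ℂ) * (vv S b k j * (b j - b k))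

/-- the row vector of the commutator -/
noncomputable def ww : n → ℂ := fun j => ((b j).im : ℂ) * (conj (vv S b k j) * (b j - b k))

variable (hb : Function.Injective b)
  (hW : ∀ i j, S i j * (b j - b i) = conj (S j i * (b i - b j)))
  (hΓ1 : ∀ i j, ∑ l, conj (S l i) * (b l).im * S l j = Γ S η i j)
  (hΓ2 : ∀ i j, ∑ l, S i l * (b l).im * conj (S j l) = Γ S η i j)

include hb hW hΓ2 in
theorem Su_apply (j : n) : (S *ᵥ uu S b k) j
    = - Γ S η j k + (b k).im * conj (S k k) * S j k := by
  have h : ∀ l, S j l * uu S b k l = - (S j l * (b l).im * conj (S k l))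
      + (if l = k then (b k).im * conj (S k k) * S j k else 0) := by
    intro l
    by_cases hl : l = k
    · subst hl
      simp [uu, vv_self]
      ring
    · rw [if_neg hl, S_kj S b k hb hW hl, uu]
      simp only [map_mul, Complex.conj_conj]
      ring
  rw [mulVec, dotProduct, Finset.sum_congr rfl (fun l _ => h l), Finset.sum_add_distrib,
    Finset.sum_neg_distrib, hΓ2]
  simp

include hb hΓ1 in
theorem wS_apply (j : n) : (ww S b k ᵥ* S) j
    = - Γ S η k j + (b k).im * conj (S k k) * S k j := by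
  have h : ∀ l, ww S b k l * S l j = - (conj (S l k) * (b l).im * S l j)
      + (if l = k then (b k).im * conj (S k k) * S k j else 0) := by
    intro l
    by_cases hl : l = k
    · subst hl
      simp [ww, vv_self]
      ring
    · rw [if_neg hl, S_jk S b k hb hl, ww]
      simp only [map_mul, map_neg, Complex.conj_conj]
      ring
  rw [vecMul, dotProduct, Finset.sum_congr rfl (fun l _ => h l), Finset.sum_add_distrib,
    Finset.sum_neg_distrib, hΓ1]
  simp

include hb hW in
theorem Γ_jk {j : n} (hj : j ≠ k) : Γ S η j k = - (I * vv S b k j * ((η * (b j - b k)).re : ℂ)) := by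
  rw [Γ, S_jk S b k hb hj, S_kj S b k hb hW hj]
  have : (((η * (b j - b k)).re : ℝ) : ℂ) = (η * (b j - b k) + conj (η * (b j - b k))) / 2 := by
    rw [Complex.add_conj]; push_cast; ring
  rw [this]
  simp only [map_mul, Complex.conj_conj]
  ring

include hb hW in
theorem Γ_kj {j : n} (hj : j ≠ k) :
    Γ S η k j = I * conj (vv S b k j) * ((η * (b j - b k)).re : ℂ) := by
  rw [Γ, S_jk S b k hb hj, S_kj S b k hb hW hj]
  have : (((η * (b j - b k)).re : ℝ) : ℂ) = (η * (b j - b k) + conj (η * (b j - b k))) / 2 := by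
    rw [Complex.add_conj]; push_cast; ring
  rw [this]
  simp only [map_mul, map_neg, Complex.conj_conj]
  ring

theorem Γ_kk : Γ S η k k = ((-(conj η * S k k).im : ℝ) : ℂ) := by
  rw [Γ]
  have : (((conj η * S k k).im : ℝ) : ℂ) = (conj η * S k k - conj (conj η * S k k)) / (2 * I) := by
    rw [Complex.sub_conj]
    push_cast
    field_simp
  rw [Complex.ofReal_neg, this]
  simp only [map_mul, Complex.conj_conj]
  field_simp
  rw [Complex.I_sq]
  ring

/-- `N_k` -/
noncomputable def NN : ℝ := ∑ j, (b j).im * (Complex.normSq (vv S b k j) * Complex.normSq (b j - b k))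

include hb in
theorem wS_k : (ww S b k ᵥ* S) k = - (NN S b k : ℂ) := by
  rw [vecMul, dotProduct, NN]
  push_cast
  rw [← Finset.sum_neg_distrib]
  refine Finset.sum_congr rfl (fun j _ => ?_)
  by_cases hj : j = k
  · subst hj; simp [ww, vv_self]
  · rw [S_jk S b k hb hj, ww, ← Complex.mul_conj, ← Complex.mul_conj]
    ring

/-- the real coefficients -/
noncomputable def cc (j : n) : ℝ := (b j).im * Complex.normSq (vv S b k j)

theorem NN_eq : (NN S b k : ℂ) = ∑ j, (cc S b k j : ℂ) * (Complex.normSq (b j - b k) : ℂ) := by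
  rw [NN]
  push_cast
  refine Finset.sum_congr rfl (fun j _ => ?_)
  rw [cc]; push_cast; ring

/-- the commutator matrix -/
noncomputable def CC : Matrix n n ℂ :=
  vecMulVec (uu S b k) (Pi.single k 1) + vecMulVec (Pi.single k 1) (ww S b k)

theorem YY_comm' : YY S b k * diagonal b - diagonal b * YY S b k = CC S b k := YY_comm S b k

include hb hΓ1 in
theorem Γ_kk_eq : Γ S η k k = NN S b k + (b k).im * conj (S k k) * S k k := by
  have h := wS_apply S b η k hb hΓ1 k
  rw [wS_k S b k hb] at h
  linear_combination h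

include hb hW hΓ1 hΓ2 in
theorem Su_k : (S *ᵥ uu S b k) k = - (NN S b k : ℂ) := by
  rw [Su_apply S b η k hb hW hΓ2, Γ_kk_eq S b η k hb hΓ1]
  ring

include hb hW hΓ1 hΓ2 in
theorem trace_SC_star : (S * CC S b k).trace = - 2 * (NN S b k : ℂ) := by
  rw [CC, trace_SC, Su_k S b η k hb hW hΓ1 hΓ2, wS_k S b k hb]
  ring

include hb hW hΓ2 in
theorem w_dot_Su : ww S b k ⬝ᵥ (S *ᵥ uu S b k)
    = ∑ j, (cc S b k j : ℂ) * (I * ((η * (b j - b k)).re : ℂ) * (b j - b k))
      - (b k).im * conj (S k k) * NN S b k := by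
  have h : ∀ j, ww S b k j * (S *ᵥ uu S b k) j
      = (cc S b k j : ℂ) * (I * ((η * (b j - b k)).re : ℂ) * (b j - b k))
        + (b k).im * conj (S k k) * (ww S b k j * S j k) := by
    intro j
    rw [Su_apply S b η k hb hW hΓ2]
    by_cases hj : j = k
    · subst hj; simp [ww, cc, vv_self]
    · rw [Γ_jk S b η k hb hW hj, ww, cc]
      push_cast
      rw [← Complex.mul_conj (vv S b k j)]
      ring
  rw [dotProduct, Finset.sum_congr rfl (fun j _ => h j), Finset.sum_add_distrib,
    ← Finset.mul_sum]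
  have h2 : ∑ j, ww S b k j * S j k = - (NN S b k : ℂ) := wS_k S b k hb
  rw [h2]
  ring

include hb hW hΓ1 hΓ2 in
/-- The second variation vanishes in the star directions. -/
theorem star_zero (hη : η ≠ 0) :
    ((CC S b k * (YY S b k * S - S * YY S b k)).trace
      + ((S * CC S b k * (S * CC S b k)).trace - (S * CC S b k).trace ^ 2) / η).re = 0 := by
  set θ := S k k with hθ
  have h1 : (CC S b k * (YY S b k * S - S * YY S b k)).trace
      = ∑ j, (cc S b k j : ℂ) * (2 * I * ((η * (b j - b k)).re : ℂ)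
          - 2 * (b k).im * conj θ * conj (b j - b k) + 2 * θ * (b j).im * (b j - b k)) := by
    have h : ∀ j, (((b j).im : ℂ) * conj (vv S b k j)) * (S *ᵥ uu S b k) j
        + θ * (ww S b k j * (((b j).im : ℂ) * vv S b k j))
        - θ * ((((b j).im : ℂ) * conj (vv S b k j)) * uu S b k j)
        - (ww S b k ᵥ* S) j * (((b j).im : ℂ) * vv S b k j)
        = (cc S b k j : ℂ) * (2 * I * ((η * (b j - b k)).re : ℂ)
          - 2 * (b k).im * conj θ * conj (b j - b k) + 2 * θ * (b j).im * (b j - b k)) := by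
      intro j
      by_cases hj : j = k
      · subst hj; simp [cc, vv_self]
      · rw [Su_apply S b η k hb hW hΓ2, wS_apply S b η k hb hΓ1, Γ_jk S b η k hb hW hj,
          Γ_kj S b η k hb hW hj, S_jk S b k hb hj, S_kj S b k hb hW hj, ww, uu, cc]
        push_cast
        rw [← Complex.mul_conj (vv S b k j)]
        ring
    rw [CC, YY, trace_CYS]
    · rw [← Finset.sum_congr rfl (fun j _ => h j)]
      simp only [dotProduct, Finset.mul_sum, Finset.sum_add_distrib, Finset.sum_sub_distrib, hθ]
    · simp [vv_self]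
    · simp [vv_self]
    · simp [uu, vv_self]
    · simp [ww, vv_self]
  have h2 : (S * CC S b k * (S * CC S b k)).trace - (S * CC S b k).trace ^ 2
      = ∑ j, (cc S b k j : ℂ) * (2 * (I * θ * ((η * (b j - b k)).re : ℂ) * (b j - b k)
        + (Complex.normSq (b j - b k) : ℂ) * ((conj η * θ).im : ℂ))) := by
    rw [trace_SC_star S b η k hb hW hΓ1 hΓ2]
    have hG := Γ_kk_eq S b η k hb hΓ1
    rw [Γ_kk, Complex.ofReal_neg] at hG
    have hs : ∑ j, (cc S b k j : ℂ) * (2 * (I * θ * ((η * (b j - b k)).re : ℂ) * (b j - b k)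
        + (Complex.normSq (b j - b k) : ℂ) * ((conj η * θ).im : ℂ)))
        = 2 * θ * (∑ j, (cc S b k j : ℂ) * (I * ((η * (b j - b k)).re : ℂ) * (b j - b k)))
          + 2 * ((conj η * θ).im : ℂ) * NN S b k := by
      rw [NN_eq, Finset.mul_sum, Finset.mul_sum, ← Finset.sum_add_distrib]
      refine Finset.sum_congr rfl (fun j _ => ?_)
      ring
    rw [hs, CC, trace_SCSC, w_dot_Su S b η k hb hW hΓ2, Su_k S b η k hb hW hΓ1 hΓ2,
      wS_k S b k hb]
    rw [← hθ] at hG ⊢
    linear_combination (2 * (NN S b k : ℂ)) * hG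
  have h3 : (CC S b k * (YY S b k * S - S * YY S b k)).trace
      + ((S * CC S b k * (S * CC S b k)).trace - (S * CC S b k).trace ^ 2) / η
      = ∑ j, (cc S b k j : ℂ) * (2 * I * ((η * (b j - b k)).re : ℂ)
          - 2 * (b k).im * conj θ * conj (b j - b k) + 2 * θ * (b j).im * (b j - b k)
          + (2 * (I * θ * ((η * (b j - b k)).re : ℂ) * (b j - b k)
        + (Complex.normSq (b j - b k) : ℂ) * ((conj η * θ).im : ℂ))) / η) := by
    rw [h1, h2, Finset.sum_div, ← Finset.sum_add_distrib]
    refine Finset.sum_congr rfl (fun j _ => ?_)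
    ring
  rw [h3, Complex.re_sum]
  refine Finset.sum_eq_zero (fun j _ => ?_)
  rw [Complex.re_ofReal_mul, cx1 θ (b j - b k) η (b k).im (b j).im hη (by simp), mul_zero]

include hb hW hΓ1 hΓ2 in
/-- The mixed variation. -/
theorem mixed_eq (l : n) (hl : l ≠ k) (hη : η ≠ 0) :
    (YY S b k * S - S * YY S b k) l l + (S * CC S b k * S) l l / η
      = 2 * (Complex.normSq (vv S b k l) : ℂ) * conj (b l - b k) / η *
        (((b l).im : ℂ) * η + I * ((η * (b l - b k)).re : ℂ)
          - conj (S k k) * (b k).im * conj (b l - b k)) := by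
  rw [YY, YS_apply _ _ _ _ _ hl, CC, SCS_apply, Su_apply S b η k hb hW hΓ2,
    wS_apply S b η k hb hΓ1, Γ_jk S b η k hb hW hl, Γ_kj S b η k hb hW hl]
  rw [S_jk S b k hb hl, S_kj S b k hb hW hl, ← Complex.mul_conj (vv S b k l)]
  field_simp
  ring

end identities

end Pool.Agent.Helper54.OMC
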