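import Mathlib

/-!
Second-order expansion of determinants of matrix polynomials.
-/

set_option autoImplicit false
set_option linter.unusedSimpArgs false
set_option linter.unusedSectionVars false

namespace Pool.Agent.Helper54.OMC

open Matrix Polynomial

variable {n : Type*} [Fintype n] [DecidableEq n]

/-- Perturbing a matrix by a multiple of `a` changes the determinant by a multiple of `a`. -/
theorem dvd_det_sub {R : Type*} [CommRing R] (a : R) (Q E : Matrix n n R) :
    a ∣ (Q + a • E).det - Q.det := by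
  rw [← Ideal.mem_span_singleton, ← Ideal.Quotient.eq]
  set f := Ideal.Quotient.mk (Ideal.span {a}) with hf
  rw [RingHom.map_det, RingHom.map_det]
  congr 1
  ext i j
  have ha : f a = 0 := by
    rw [hf, Ideal.Quotient.eq_zero_iff_mem]
    exact Ideal.mem_span_singleton_self a
  simp [ha]

/-- `det (1 + t X)` to second order. -/
theorem det_one_add_second (X : Matrix n n ℂ) :
    ∃ ρ : ℂ[X], ∀ t : ℂ, (1 + t • X).det =
      1 + t * X.trace + t ^ 2 * ((X.trace ^ 2 - (X * X).trace) / 2) + t ^ 3 * ρ.eval t := by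
  set e : ℂ[X] := (det (1 + (Polynomial.X : ℂ[X]) • X.map C)).divX.divX with he
  set e2 : ℂ[X] := (det (1 + (Polynomial.X : ℂ[X]) • (X * X).map C)).divX.divX with he2
  have h1 : ∀ t : ℂ, (1 + t • X).det = 1 + X.trace * t + e.eval t * t ^ 2 :=
    fun t => Matrix.det_one_add_smul t X
  have h2 : ∀ t : ℂ, (1 + t • (X * X)).det = 1 + (X * X).trace * t + e2.eval t * t ^ 2 :=
    fun t => Matrix.det_one_add_smul t (X * X)
  have hprod : ∀ t : ℂ, (1 + t • X).det * (1 + (-t) • X).det = (1 + (-t ^ 2) • (X * X)).det := by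
    intro t
    rw [← Matrix.det_mul]
    congr 1
    simp only [Matrix.mul_add, Matrix.add_mul, Matrix.one_mul, Matrix.mul_one, neg_smul,
      Matrix.mul_neg, smul_mul_assoc, mul_smul_comm, smul_add, smul_smul]
    rw [show t ^ 2 = t * t by ring]
    abel
  -- polynomial identity
  have hpoly : Polynomial.X ^ 2 * (e + e.comp (-Polynomial.X) - C (X.trace ^ 2)
      + Polynomial.X * (C X.trace * (e.comp (-Polynomial.X) - e))
      + Polynomial.X ^ 2 * (e * e.comp (-Polynomial.X)))
      = Polynomial.X ^ 2 * (- C (X * X).trace + Polynomial.X ^ 2 * e2.comp (-Polynomial.X ^ 2)) := by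
    apply Polynomial.funext
    intro t
    have := hprod t
    rw [h1, h1, h2] at this
    simp only [eval_mul, eval_pow, eval_X, eval_add, eval_sub, eval_comp, eval_neg, eval_C]
    linear_combination this
  have hpoly2 := mul_left_cancel₀ (pow_ne_zero 2 Polynomial.X_ne_zero) hpoly
  have h0 := congrArg (Polynomial.eval 0) hpoly2
  simp only [eval_mul, eval_pow, eval_X, eval_add, eval_sub, eval_comp, eval_neg, eval_C,
    neg_zero, zero_mul, add_zero, ne_eq, OfNat.ofNat_ne_zero, not_false_eq_true, zero_pow] at h0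
  refine ⟨e.divX, fun t => ?_⟩
  rw [h1]
  have hd : e.eval t = e.divX.eval t * t + e.eval 0 := by
    conv_lhs => rw [← Polynomial.divX_mul_X_add e]
    simp [Polynomial.coeff_zero_eq_eval_zero]
  rw [hd]
  linear_combination (t ^ 2 / 2) * h0

theorem eval_det_map (P : Matrix n n ℂ[X]) (t : ℂ) :
    P.det.eval t = (P.map (eval t)).det :=
  RingHom.map_det (Polynomial.evalRingHom t) P

/-- `det (1 + t X + t² Z + t³ E)` to second order. -/
theorem det_expand (X Z E : Matrix n n ℂ) :
    ∃ ρ : ℂ[X], ∀ t : ℂ, (1 + t • X + t ^ 2 • Z + t ^ 3 • E).det =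
      1 + t * X.trace + t ^ 2 * (Z.trace + (X.trace ^ 2 - (X * X).trace) / 2)
        + t ^ 3 * ρ.eval t := by
  obtain ⟨ρ1, h1⟩ := det_one_add_second X
  set e : ℂ[X] := (det (1 + (Polynomial.X : ℂ[X]) • Z.map C)).divX.divX with he
  have h2 : ∀ t : ℂ, (1 + t • Z).det = 1 + Z.trace * t + e.eval t * t ^ 2 :=
    fun t => Matrix.det_one_add_smul t Z
  -- polynomial matrices
  set P : Matrix n n ℂ[X] := (1 + (Polynomial.X : ℂ[X]) • X.map C)
    * (1 + (Polynomial.X ^ 2 : ℂ[X]) • Z.map C) with hP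
  obtain ⟨d, hd⟩ := dvd_det_sub (Polynomial.X ^ 3 : ℂ[X]) P ((E - X * Z).map C)
  have hPev : ∀ t : ℂ, P.map (eval t) = (1 + t • X) * (1 + t ^ 2 • Z) := by
    intro t
    have : P.map (eval t) = (Polynomial.evalRingHom t).mapMatrix P := rfl
    rw [this, hP, map_mul]
    congr 1
    · ext i j
      simp [Matrix.one_apply]
      split_ifs <;> simp [mul_comm]
    · ext i j
      simp [Matrix.one_apply]
      split_ifs <;> simp [mul_comm]
  have hQev : ∀ t : ℂ, (P + (Polynomial.X ^ 3 : ℂ[X]) • (E - X * Z).map C).map (eval t)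
      = 1 + t • X + t ^ 2 • Z + t ^ 3 • E := by
    intro t
    have : (P + (Polynomial.X ^ 3 : ℂ[X]) • (E - X * Z).map C).map (eval t)
      = P.map (eval t) + t ^ 3 • (E - X * Z) := by
      ext i j
      simp
    rw [this, hPev]
    simp only [Matrix.mul_add, Matrix.add_mul, Matrix.one_mul, Matrix.mul_one, smul_mul_assoc,
      mul_smul_comm, smul_add, smul_smul, smul_sub]
    rw [show t ^ 3 = t ^ 2 * t by ring]
    abel
  have hdet : ∀ t : ℂ, (1 + t • X + t ^ 2 • Z + t ^ 3 • E).det
      = (1 + t • X).det * (1 + t ^ 2 • Z).det + t ^ 3 * d.eval t := by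
    intro t
    have := congrArg (Polynomial.eval t) hd
    rw [eval_sub, eval_mul, eval_pow, eval_X, eval_det_map, eval_det_map, hQev, hPev,
      Matrix.det_mul] at this
    linear_combination this
  set a := X.trace
  set b := Z.trace
  set a2 := (a ^ 2 - (X * X).trace) / 2
  refine ⟨d + ρ1 + C (a * b) + Polynomial.X * (C (a2 * b) + e.comp (Polynomial.X ^ 2))
    + Polynomial.X ^ 2 * (ρ1 * C b + C a * e.comp (Polynomial.X ^ 2))
    + Polynomial.X ^ 3 * (C a2 * e.comp (Polynomial.X ^ 2))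
    + Polynomial.X ^ 4 * (ρ1 * e.comp (Polynomial.X ^ 2)), fun t => ?_⟩
  rw [hdet, h1, h2]
  simp only [eval_mul, eval_pow, eval_X, eval_add, eval_comp, eval_C]
  ring

/-- `det (M₀ + t M₁ + t² M₂ + t³ M₃)` to second order, for invertible `M₀`. -/
theorem det_expand' (M0 R M1 M2 M3 : Matrix n n ℂ) (hR : M0 * R = 1) :
    ∃ ρ : ℂ[X], ∀ t : ℂ, (M0 + t • M1 + t ^ 2 • M2 + t ^ 3 • M3).det =
      M0.det * (1 + t * (R * M1).trace
        + t ^ 2 * ((R * M2).trace + ((R * M1).trace ^ 2 - (R * M1 * (R * M1)).trace) / 2)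
        + t ^ 3 * ρ.eval t) := by
  obtain ⟨ρ, hρ⟩ := det_expand (R * M1) (R * M2) (R * M3)
  refine ⟨ρ, fun t => ?_⟩
  rw [← hρ t, ← Matrix.det_mul]
  congr 1
  simp only [Matrix.mul_add, Matrix.mul_one, mul_smul_comm, ← Matrix.mul_assoc, hR,
    Matrix.one_mul]

end Pool.Agent.Helper54.OMC
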