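import Mathlib
import Pool.Agent.Helper54.OMCDet

/-!
First and second order conditions at a local maximum of `|det (U K U* + B) - c|²`.
-/

set_option autoImplicit false
set_option linter.unusedSimpArgs false
set_option linter.unusedSectionVars false

namespace Pool.Agent.Helper54.OMC

open Matrix Complex Filter Topology
open scoped ComplexConjugate

/-- Second-order expansion at `0` along the real line. -/
def Exp2 (f : ℝ → ℂ) (a b c : ℂ) : Prop :=
  ∃ ρ : ℝ → ℂ, Continuous ρ ∧ ∀ t : ℝ, f t = a + t * b + t ^ 2 * c + t ^ 3 * ρ t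

theorem Exp2.add {f g : ℝ → ℂ} {a b c a' b' c' : ℂ} (hf : Exp2 f a b c) (hg : Exp2 g a' b' c') :
    Exp2 (fun t => f t + g t) (a + a') (b + b') (c + c') := by
  obtain ⟨ρ, hρ, h⟩ := hf
  obtain ⟨ρ', hρ', h'⟩ := hg
  refine ⟨fun t => ρ t + ρ' t, by fun_prop, fun t => ?_⟩
  simp only [h, h']; ring

theorem Exp2.sub {f g : ℝ → ℂ} {a b c a' b' c' : ℂ} (hf : Exp2 f a b c) (hg : Exp2 g a' b' c') :
    Exp2 (fun t => f t - g t) (a - a') (b - b') (c - c') := by
  obtain ⟨ρ, hρ, h⟩ := hf
  obtain ⟨ρ', hρ', h'⟩ := hg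
  refine ⟨fun t => ρ t - ρ' t, by fun_prop, fun t => ?_⟩
  simp only [h, h']; ring

theorem Exp2.mul {f g : ℝ → ℂ} {a b c a' b' c' : ℂ} (hf : Exp2 f a b c) (hg : Exp2 g a' b' c') :
    Exp2 (fun t => f t * g t) (a * a') (a * b' + b * a') (a * c' + b * b' + c * a') := by
  obtain ⟨ρ, hρ, h⟩ := hf
  obtain ⟨ρ', hρ', h'⟩ := hg
  refine ⟨fun t => a * ρ' t + ρ t * a' + b * c' + c * b' + t * (b * ρ' t + c * c' + ρ t * b')
    + t ^ 2 * (c * ρ' t + ρ t * c') + t ^ 3 * (ρ t * ρ' t), by fun_prop, fun t => ?_⟩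
  simp only [h, h']; ring

theorem Exp2.const_mul {f : ℝ → ℂ} {a b c : ℂ} (hf : Exp2 f a b c) (d : ℂ) :
    Exp2 (fun t => d * f t) (d * a) (d * b) (d * c) := by
  obtain ⟨ρ, hρ, h⟩ := hf
  refine ⟨fun t => d * ρ t, by fun_prop, fun t => ?_⟩
  simp only [h]; ring

theorem Exp2.conj {f : ℝ → ℂ} {a b c : ℂ} (hf : Exp2 f a b c) :
    Exp2 (fun t => conj (f t)) (conj a) (conj b) (conj c) := by
  obtain ⟨ρ, hρ, h⟩ := hf
  refine ⟨fun t => (starRingEnd ℂ) (ρ t), ?_, fun t => ?_⟩
  · exact Complex.continuous_conj.comp hρ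
  · simp only [h]; simp

theorem Exp2.poly (a b c : ℂ) : Exp2 (fun t => a + t * b + t ^ 2 * c) a b c :=
  ⟨fun _ => 0, continuous_const, fun t => by ring⟩

theorem Exp2.nonneg {f : ℝ → ℂ} {a b c : ℂ} (hf : Exp2 f a b c) (ha : a.re = 0)
    (h : ∀ᶠ t in 𝓝 (0 : ℝ), 0 ≤ (f t).re) : b.re = 0 ∧ 0 ≤ c.re := by
  obtain ⟨ρ, hρ, hf⟩ := hf
  have hre : ∀ t : ℝ, (f t).re = t * (b.re + t * (c.re + t * (ρ t).re)) := by
    intro t
    rw [hf]
    have : (a + t * b + (t : ℂ) ^ 2 * c + (t : ℂ) ^ 3 * ρ t).re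
        = a.re + t * b.re + t ^ 2 * c.re + t ^ 3 * (ρ t).re := by
      simp only [← Complex.ofReal_pow, Complex.add_re, Complex.re_ofReal_mul]
    rw [this, ha]; ring
  have hρre : Continuous fun t : ℝ => (ρ t).re := Complex.continuous_re.comp hρ
  have hg : Continuous fun t : ℝ => b.re + t * (c.re + t * (ρ t).re) := by fun_prop
  have hb1 : 0 ≤ b.re := by
    have ht : Tendsto (fun t : ℝ => b.re + t * (c.re + t * (ρ t).re)) (𝓝[>] 0) (𝓝 b.re) := by
      have := (hg.tendsto 0).mono_left (nhdsWithin_le_nhds (s := Set.Ioi 0))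
      simpa using this
    refine ge_of_tendsto ht ?_
    filter_upwards [nhdsWithin_le_nhds h, self_mem_nhdsWithin] with t h1 h2
    rw [hre] at h1
    exact nonneg_of_mul_nonneg_right h1 h2
  have hb2 : b.re ≤ 0 := by
    have ht : Tendsto (fun t : ℝ => b.re + t * (c.re + t * (ρ t).re)) (𝓝[<] 0) (𝓝 b.re) := by
      have := (hg.tendsto 0).mono_left (nhdsWithin_le_nhds (s := Set.Iio 0))
      simpa using this
    refine le_of_tendsto ht ?_
    filter_upwards [nhdsWithin_le_nhds h, self_mem_nhdsWithin] with t h1 h2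
    rw [hre] at h1
    by_contra h3
    push Not at h3
    have := mul_neg_of_neg_of_pos (Set.mem_Iio.1 h2) h3
    linarith
  have hb : b.re = 0 := le_antisymm hb2 hb1
  refine ⟨hb, ?_⟩
  have hg2 : Continuous fun t : ℝ => c.re + t * (ρ t).re := by fun_prop
  have ht : Tendsto (fun t : ℝ => c.re + t * (ρ t).re) (𝓝[>] 0) (𝓝 c.re) := by
    have := (hg2.tendsto 0).mono_left (nhdsWithin_le_nhds (s := Set.Ioi 0))
    simpa using this
  refine ge_of_tendsto ht ?_
  filter_upwards [nhdsWithin_le_nhds h, self_mem_nhdsWithin] with t h1 h2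
  rw [hre, hb, zero_add] at h1
  exact nonneg_of_mul_nonneg_right (nonneg_of_mul_nonneg_right h1 h2) h2

variable {n : Type*} [Fintype n] [DecidableEq n]

theorem exp2_det (M0 R M1 M2 M3 : Matrix n n ℂ) (hR : M0 * R = 1) :
    Exp2 (fun t => (M0 + (t : ℂ) • M1 + (t : ℂ) ^ 2 • M2 + (t : ℂ) ^ 3 • M3).det)
      M0.det (M0.det * (R * M1).trace)
      (M0.det * ((R * M2).trace + ((R * M1).trace ^ 2 - (R * M1 * (R * M1)).trace) / 2)) := by
  obtain ⟨ρ, hρ⟩ := det_expand' M0 R M1 M2 M3 hR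
  refine ⟨fun t => M0.det * ρ.eval (t : ℂ), ?_, fun t => ?_⟩
  · have : Continuous fun z : ℂ => ρ.eval z := ρ.continuous
    fun_prop
  · simp only [hρ]; ring

/-- `G (t) = det ((1 + tT) K (1 - tT) + (1 - tT) (B + tH) (1 + tT))` -/
theorem exp2_G (K B H T R : Matrix n n ℂ) (hR : (K + B) * R = 1) :
    Exp2 (fun t => ((1 + (t : ℂ) • T) * K * (1 - (t : ℂ) • T)
        + (1 - (t : ℂ) • T) * (B + (t : ℂ) • H) * (1 + (t : ℂ) • T)).det)
      (K + B).det
      ((K + B).det * (R * (H + (T * K - K * T) + (B * T - T * B))).trace)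
      ((K + B).det * ((R * (-(T * (K + B) * T) + (H * T - T * H))).trace
        + ((R * (H + (T * K - K * T) + (B * T - T * B))).trace ^ 2
          - (R * (H + (T * K - K * T) + (B * T - T * B))
            * (R * (H + (T * K - K * T) + (B * T - T * B)))).trace) / 2)) := by
  have := exp2_det (K + B) R (H + (T * K - K * T) + (B * T - T * B))
    (-(T * (K + B) * T) + (H * T - T * H)) (-(T * H * T)) hR
  convert this using 3 with t
  simp only [Matrix.mul_add, Matrix.add_mul, Matrix.mul_sub, Matrix.sub_mul, Matrix.one_mul,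
    Matrix.mul_one, smul_mul_assoc, mul_smul_comm, smul_add, smul_sub, smul_neg, smul_smul,
    Matrix.mul_assoc]
  rw [show (t : ℂ) ^ 2 = t * t by ring, show (t : ℂ) ^ 3 = t * t * t by ring]
  simp only [← mul_assoc]
  abel

theorem exp2_q (T : Matrix n n ℂ) :
    Exp2 (fun t => ((1 - (t : ℂ) • T) * (1 + (t : ℂ) • T)).det) 1 0 (-(T * T).trace) := by
  have := exp2_det (1 : Matrix n n ℂ) 1 0 (-(T * T)) 0 (by simp)
  simp only [det_one, one_mul, Matrix.mul_zero, trace_zero, zero_pow two_ne_zero, sub_zero,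
    zero_div, add_zero, trace_neg, smul_zero] at this
  convert this using 3 with t
  simp only [Matrix.mul_add, Matrix.sub_mul, Matrix.one_mul,
    Matrix.mul_one, smul_mul_assoc, mul_smul_comm, smul_neg, smul_sub, smul_smul]
  rw [show (t : ℂ) ^ 2 = t * t by ring]
  abel

theorem tr3 (A B C : Matrix n n ℂ) : (A * B * C).trace = (B * C * A).trace := by
  rw [Matrix.mul_assoc, Matrix.trace_mul_comm]

/-- first-order coefficient -/
theorem trace_first (M0 R B H T : Matrix n n ℂ) (hR : M0 * R = 1) (hR' : R * M0 = 1) :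
    (R * (H + (T * (M0 - B) - (M0 - B) * T) + (B * T - T * B))).trace
      = (R * (H + (2 : ℂ) • (B * T - T * B))).trace := by
  have e1 : R * (H + (T * (M0 - B) - (M0 - B) * T) + (B * T - T * B))
      = R * (H + (2 : ℂ) • (B * T - T * B)) + (R * T * M0 - T) := by
    simp only [Matrix.mul_add, Matrix.mul_sub, Matrix.sub_mul, mul_smul_comm, ← Matrix.mul_assoc,
      hR', Matrix.one_mul]
    module
  rw [e1, Matrix.trace_add, Matrix.trace_sub, Matrix.trace_mul_comm (R * T) M0,
    ← Matrix.mul_assoc, hR, Matrix.one_mul, sub_self, add_zero]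

/-- second-order coefficient -/
theorem trace_second (M0 R B H T : Matrix n n ℂ) (hR : M0 * R = 1) (hR' : R * M0 = 1) :
    (R * (-(T * M0 * T) + (H * T - T * H))).trace
      + ((R * (H + (T * (M0 - B) - (M0 - B) * T) + (B * T - T * B))).trace ^ 2
          - (R * (H + (T * (M0 - B) - (M0 - B) * T) + (B * T - T * B))
            * (R * (H + (T * (M0 - B) - (M0 - B) * T) + (B * T - T * B)))).trace) / 2
      + (T * T).trace
      = (H * (T * R - R * T)).trace + ((H + (2 : ℂ) • (B * T - T * B)) * (T * R - R * T)).trace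
      + ((R * (H + (2 : ℂ) • (B * T - T * B))).trace ^ 2
        - (R * (H + (2 : ℂ) • (B * T - T * B)) * (R * (H + (2 : ℂ) • (B * T - T * B)))).trace) / 2 := by
  rw [trace_first M0 R B H T hR hR']
  set J := H + (2 : ℂ) • (B * T - T * B) with hJ
  have e1 : R * (H + (T * (M0 - B) - (M0 - B) * T) + (B * T - T * B))
      = R * J + R * T * M0 - T := by
    rw [hJ]
    simp only [Matrix.mul_add, Matrix.mul_sub, Matrix.sub_mul, mul_smul_comm, ← Matrix.mul_assoc,
      hR', Matrix.one_mul]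
    module
  rw [e1]
  have e2 : (R * J + R * T * M0 - T) * (R * J + R * T * M0 - T)
      = R * J * (R * J) + R * J * R * T * M0 - R * J * T + R * T * J + R * T * T * M0
        - R * T * M0 * T - T * R * J - T * R * T * M0 + T * T := by
    have h1 : R * T * M0 * (R * J) = R * T * J := by
      rw [Matrix.mul_assoc (R * T), ← Matrix.mul_assoc M0, hR, Matrix.one_mul]
    have h2 : R * T * M0 * (R * T * M0) = R * T * T * M0 := by
      rw [Matrix.mul_assoc (R * T), ← Matrix.mul_assoc M0, ← Matrix.mul_assoc M0, hR,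
        Matrix.one_mul]
      simp only [Matrix.mul_assoc]
    simp only [Matrix.add_mul, Matrix.sub_mul, Matrix.mul_add, Matrix.mul_sub]
    rw [h1, h2]
    simp only [← Matrix.mul_assoc]
    abel
  rw [e2]
  have t1 : (R * J * R * T * M0).trace = (J * R * T).trace := by
    rw [Matrix.trace_mul_comm]
    simp only [← Matrix.mul_assoc, hR, Matrix.one_mul]
  have t2 : (R * J * T).trace = (J * T * R).trace := tr3 _ _ _
  have t3 : (R * T * J).trace = (J * R * T).trace := by rw [tr3, tr3]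
  have t4 : (R * T * T * M0).trace = (T * T).trace := by
    rw [Matrix.trace_mul_comm]
    simp only [← Matrix.mul_assoc, hR, Matrix.one_mul]
  have t5 : (T * R * J).trace = (J * T * R).trace := by rw [tr3, tr3]
  have t6 : (T * R * T * M0).trace = (R * T * M0 * T).trace := by
    rw [Matrix.mul_assoc, Matrix.mul_assoc, Matrix.trace_mul_comm]
    simp only [← Matrix.mul_assoc]
  have t7 : (R * H * T).trace = (H * T * R).trace := tr3 _ _ _
  have t8 : (R * T * H).trace = (H * R * T).trace := by rw [tr3, tr3]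
  have t9 : (R * T * M0 * T).trace = (R * (T * M0 * T)).trace := by
    simp only [← Matrix.mul_assoc]
  simp only [Matrix.mul_add, Matrix.mul_sub, Matrix.mul_neg, Matrix.trace_add, Matrix.trace_sub,
    Matrix.trace_neg, ← Matrix.mul_assoc, t1, t2, t3, t4, t5, t6, t7, t8]
  ring

/-- Cayley transform: unitarity. -/
theorem cayley_unitary (P : Matrix n n ℂ) (hcomm : P * star P = star P * P) (hP : IsUnit P.det) :
    star P * P⁻¹ ∈ unitaryGroup n ℂ := by
  have hP' : IsUnit (star P).det := by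
    rw [star_eq_conjTranspose, det_conjTranspose]
    exact hP.star
  rw [mem_unitaryGroup_iff, star_mul, star_star]
  have h1 : star (P⁻¹) = (star P)⁻¹ := by
    rw [star_eq_conjTranspose, star_eq_conjTranspose, conjTranspose_nonsing_inv]
  rw [h1]
  have h2 : P⁻¹ * (star P)⁻¹ = (star P)⁻¹ * P⁻¹ := by
    rw [← Matrix.mul_inv_rev, ← Matrix.mul_inv_rev, hcomm]
  calc star P * P⁻¹ * ((star P)⁻¹ * P) = star P * (P⁻¹ * (star P)⁻¹) * P := by
        simp only [Matrix.mul_assoc]
    _ = (star P * (star P)⁻¹) * (P⁻¹ * P) := by rw [h2]; simp only [Matrix.mul_assoc]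
    _ = 1 := by rw [Matrix.mul_nonsing_inv _ hP', Matrix.nonsing_inv_mul _ hP, Matrix.one_mul]

/-- Cayley transform: determinants. -/
theorem cayley_det (P K D : Matrix n n ℂ) (hcomm : P * star P = star P * P) (hP : IsUnit P.det) :
    (star P * P⁻¹ * K * star (star P * P⁻¹) + D).det * (P * star P).det
      = (star P * K * P + P * D * star P).det := by
  have hP' : IsUnit (star P).det := by
    rw [star_eq_conjTranspose, det_conjTranspose]
    exact hP.star
  have h1 : star (star P * P⁻¹) = (star P)⁻¹ * P := by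
    rw [star_mul, star_star, star_eq_conjTranspose, star_eq_conjTranspose,
      conjTranspose_nonsing_inv]
  rw [h1]
  have h3 : P * (star P * P⁻¹ * K * ((star P)⁻¹ * P) + D) * star P
      = star P * K * P + P * D * star P := by
    rw [Matrix.mul_add, Matrix.add_mul]
    congr 1
    calc P * (star P * P⁻¹ * K * ((star P)⁻¹ * P)) * star P
        = (P * star P) * P⁻¹ * K * (star P)⁻¹ * (P * star P) := by simp only [Matrix.mul_assoc]
      _ = star P * (P * P⁻¹) * K * ((star P)⁻¹ * star P) * P := by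
          rw [hcomm]; simp only [Matrix.mul_assoc]
      _ = star P * K * P := by
          rw [Matrix.mul_nonsing_inv _ hP, Matrix.nonsing_inv_mul _ hP', Matrix.mul_one,
            Matrix.mul_one]
  rw [← h3, Matrix.det_mul, Matrix.det_mul, Matrix.det_mul]
  ring

theorem scalar_so (Δ c a1 a2 q2 : ℂ) (α β : ℝ) (G q : ℝ → ℂ)
    (hG : Exp2 G Δ (Δ * a1) (Δ * a2)) (hq : Exp2 q 1 0 q2)
    (h : ∀ᶠ t : ℝ in 𝓝 0, ‖G t - c * q t‖ ^ 2 ≤ (‖Δ - c‖ ^ 2 + t * α + t ^ 2 * β) * ‖q t‖ ^ 2) :
    α + 2 * ((-conj (Δ - c) * Δ) * a1).re = 0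
    ∧ 0 ≤ β - ‖Δ‖ ^ 2 * ‖a1‖ ^ 2 + 2 * ((-conj (Δ - c) * Δ) * (a2 - q2)).re := by
  have hE := ((Exp2.poly ((‖Δ - c‖ ^ 2 : ℝ) : ℂ) (α : ℂ) (β : ℂ)).mul (hq.mul hq.conj)).sub
    ((hG.sub (hq.const_mul c)).mul (hG.sub (hq.const_mul c)).conj)
  have hn := hE.nonneg ?_ ?_
  · obtain ⟨h1, h2⟩ := hn
    constructor
    · rw [← h1, ← Complex.normSq_eq_norm_sq]
      simp only [Complex.add_re, Complex.sub_re, Complex.mul_re, Complex.mul_im, Complex.conj_re,
        Complex.conj_im, Complex.sub_im, Complex.add_im, Complex.ofReal_re, Complex.ofReal_im,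
        Complex.neg_re, Complex.neg_im, Complex.one_re, Complex.one_im, Complex.zero_re,
        Complex.zero_im, Complex.normSq_apply]
      ring
    · refine le_of_le_of_eq h2 ?_
      rw [← Complex.normSq_eq_norm_sq, ← Complex.normSq_eq_norm_sq, ← Complex.normSq_eq_norm_sq]
      simp only [Complex.add_re, Complex.sub_re, Complex.mul_re, Complex.mul_im, Complex.conj_re,
        Complex.conj_im, Complex.sub_im, Complex.add_im, Complex.ofReal_re, Complex.ofReal_im,
        Complex.neg_re, Complex.neg_im, Complex.one_re, Complex.one_im, Complex.zero_re,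
        Complex.zero_im, Complex.normSq_apply]
      ring
  · rw [← Complex.normSq_eq_norm_sq]
    simp only [Complex.add_re, Complex.sub_re, Complex.mul_re, Complex.mul_im, Complex.conj_re,
      Complex.conj_im, Complex.sub_im, Complex.add_im, Complex.ofReal_re, Complex.ofReal_im,
      Complex.neg_re, Complex.neg_im, Complex.one_re, Complex.one_im, Complex.zero_re,
      Complex.zero_im, Complex.normSq_apply]
    ring
  · filter_upwards [h] with t ht
    have e1 : (((((‖Δ - c‖ ^ 2 : ℝ) : ℂ) + t * (α : ℂ) + (t : ℂ) ^ 2 * (β : ℂ)) * (q t * conj (q t))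
        - (G t - c * q t) * conj (G t - c * q t) : ℂ)).re
        = (‖Δ - c‖ ^ 2 + t * α + t ^ 2 * β) * ‖q t‖ ^ 2 - ‖G t - c * q t‖ ^ 2 := by
      rw [Complex.mul_conj, Complex.mul_conj, Complex.normSq_eq_norm_sq, Complex.normSq_eq_norm_sq]
      norm_cast
    rw [e1]
    linarith

/-- First and second order conditions. -/
theorem second_order (K B H T : Matrix n n ℂ) (hT : star T = -T) (c : ℂ) (α β : ℝ)
    (R : Matrix n n ℂ) (hR : (K + B) * R = 1) (hR' : R * (K + B) = 1)
    (hmax : ∀ᶠ t : ℝ in 𝓝 0, ∀ U ∈ unitaryGroup n ℂ,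
      ‖(U * K * star U + (B + (t : ℂ) • H)).det - c‖ ^ 2 ≤ ‖(K + B).det - c‖ ^ 2 + t * α + t ^ 2 * β) :
    α + 2 * ((-conj ((K + B).det - c) * (K + B).det)
        * (R * (H + (2 : ℂ) • (B * T - T * B))).trace).re = 0
    ∧ 0 ≤ β - ‖(K + B).det‖ ^ 2 * ‖(R * (H + (2 : ℂ) • (B * T - T * B))).trace‖ ^ 2
      + 2 * ((-conj ((K + B).det - c) * (K + B).det) *
        ((H * (T * R - R * T)).trace + ((H + (2 : ℂ) • (B * T - T * B)) * (T * R - R * T)).trace
        + ((R * (H + (2 : ℂ) • (B * T - T * B))).trace ^ 2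
          - (R * (H + (2 : ℂ) • (B * T - T * B)) * (R * (H + (2 : ℂ) • (B * T - T * B)))).trace) / 2)).re := by
  have hK : K + B - B = K := by abel
  have hfirst := trace_first (K + B) R B H T hR hR'
  have hsecond := trace_second (K + B) R B H T hR hR'
  rw [hK] at hfirst hsecond
  have hG := exp2_G K B H T R hR
  have hq := exp2_q T
  have key := scalar_so (K + B).det c (R * (H + (T * K - K * T) + (B * T - T * B))).trace _ _ α β
    _ _ hG hq ?_
  · rw [hfirst] at key hsecond
    obtain ⟨k1, k2⟩ := key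
    refine ⟨k1, ?_⟩
    rw [sub_neg_eq_add, hsecond] at k2
    exact k2
  · -- the Cayley transform
    have hcont : Continuous fun t : ℝ => (1 - (t : ℂ) • T).det := by
      apply Continuous.matrix_det
      fun_prop
    have hne : ∀ᶠ t : ℝ in 𝓝 0, (1 - (t : ℂ) • T).det ≠ 0 := by
      have h0 : (1 - ((0 : ℝ) : ℂ) • T).det ≠ 0 := by simp
      exact hcont.continuousAt.eventually_ne h0
    filter_upwards [hmax, hne] with t ht hdet
    have hstar : star (1 - (t : ℂ) • T) = 1 + (t : ℂ) • T := by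
      rw [star_sub, star_one, star_smul, hT]
      simp
    have hcomm : (1 - (t : ℂ) • T) * star (1 - (t : ℂ) • T)
        = star (1 - (t : ℂ) • T) * (1 - (t : ℂ) • T) := by
      rw [hstar]
      simp only [Matrix.mul_add, Matrix.add_mul, Matrix.mul_sub, Matrix.sub_mul, Matrix.one_mul,
        Matrix.mul_one]
      abel
    have hU := cayley_unitary (1 - (t : ℂ) • T) hcomm (Ne.isUnit hdet)
    have hd := cayley_det (1 - (t : ℂ) • T) K (B + (t : ℂ) • H) hcomm (Ne.isUnit hdet)
    rw [hstar] at hU hd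
    have h1 := ht _ hU
    rw [← hd]
    set Δ' := ((1 + (t : ℂ) • T) * (1 - (t : ℂ) • T)⁻¹ * K
      * star ((1 + (t : ℂ) • T) * (1 - (t : ℂ) • T)⁻¹) + (B + (t : ℂ) • H)).det
    have : Δ' * ((1 - (t : ℂ) • T) * (1 + (t : ℂ) • T)).det
      - c * ((1 - (t : ℂ) • T) * (1 + (t : ℂ) • T)).det
      = (Δ' - c) * ((1 - (t : ℂ) • T) * (1 + (t : ℂ) • T)).det := by ring
    rw [this, norm_mul, mul_pow]
    exact mul_le_mul_of_nonneg_right h1 (sq_nonneg _)

end Pool.Agent.Helper54.OMC
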