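import Mathlib
import Pool.Agent.Helper54.OMCLocal
import Pool.Agent.Helper54.OMCAlg

/-!
A local maximum of `|det (U K U* + B) - c|² - M |B - B₁|²` with `K` Hermitian is diagonal.
-/

set_option autoImplicit false
set_option linter.unusedSimpArgs false
set_option linter.unusedSectionVars false

namespace Pool.Agent.Helper54.OMC

open Matrix Complex Filter Topology
open scoped ComplexConjugate

variable {n : Type*} [Fintype n] [DecidableEq n]

section
variable (K : Matrix n n ℂ) (b b1 : n → ℂ) (c : ℂ) (M ε : ℝ)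

/-- the local maximality hypothesis -/
def LocMax : Prop := ∀ U ∈ unitaryGroup n ℂ, ∀ b' : n → ℂ, (∀ j, ‖b' j - b j‖ < ε) →
  ‖(U * K * star U + diagonal b').det - c‖ ^ 2 ≤ ‖(K + diagonal b).det - c‖ ^ 2
    + M * ∑ j, (‖b' j - b1 j‖ ^ 2 - ‖b j - b1 j‖ ^ 2)

variable {K b b1 c M ε}

theorem LocMax.eventually (h : LocMax K b b1 c M ε) (hε : 0 < ε) (g : n → ℂ) :
    ∀ᶠ t : ℝ in 𝓝 0, ∀ U ∈ unitaryGroup n ℂ,
      ‖(U * K * star U + (diagonal b + (t : ℂ) • diagonal g)).det - c‖ ^ 2
        ≤ ‖(K + diagonal b).det - c‖ ^ 2 + t * (M * ∑ j, 2 * (conj (b j - b1 j) * g j).re)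
          + t ^ 2 * (M * ∑ j, ‖g j‖ ^ 2) := by
  have h1 : ∀ᶠ t : ℝ in 𝓝 0, ∀ j, ‖(t : ℂ) * g j‖ < ε := by
    rw [Filter.eventually_all]
    intro j
    have hc : Continuous fun t : ℝ => ‖(t : ℂ) * g j‖ := by fun_prop
    have h0 : ‖((0 : ℝ) : ℂ) * g j‖ < ε := by simpa using hε
    exact hc.continuousAt.eventually_lt_const h0
  filter_upwards [h1] with t ht U hU
  have e3 : ∀ j, ‖b j + (t : ℂ) * g j - b1 j‖ ^ 2 - ‖b j - b1 j‖ ^ 2
      = t * (2 * (conj (b j - b1 j) * g j).re) + t ^ 2 * ‖g j‖ ^ 2 := by
    intro j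
    rw [← Complex.normSq_eq_norm_sq, ← Complex.normSq_eq_norm_sq, ← Complex.normSq_eq_norm_sq,
      show b j + (t : ℂ) * g j - b1 j = (b j - b1 j) + (t : ℂ) * g j by ring, Complex.normSq_add]
    simp only [map_mul, Complex.normSq_mul, Complex.normSq_ofReal, Complex.conj_ofReal,
      Complex.mul_re, Complex.mul_im, Complex.conj_re, Complex.conj_im, Complex.ofReal_re,
      Complex.ofReal_im]
    ring
  have h2 := h U hU (fun j => b j + (t : ℂ) * g j) (fun j => by simpa using ht j)
  have e1 : diagonal b + (t : ℂ) • diagonal g = diagonal (fun j => b j + (t : ℂ) * g j) := by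
    rw [← diagonal_smul, diagonal_add]; rfl
  rw [e1]
  refine le_of_le_of_eq h2 ?_
  have e2 : ∑ j, (‖b j + (t : ℂ) * g j - b1 j‖ ^ 2 - ‖b j - b1 j‖ ^ 2)
      = t * ∑ j, 2 * (conj (b j - b1 j) * g j).re + t ^ 2 * ∑ j, ‖g j‖ ^ 2 := by
    rw [Finset.mul_sum, Finset.mul_sum, ← Finset.sum_add_distrib]
    exact Finset.sum_congr rfl (fun j _ => e3 j)
  rw [e2]
  ring

/-- First and second order conditions, in terms of `S`. -/
theorem LocMax.so (h : LocMax K b b1 c M ε) (hε : 0 < ε) (R : Matrix n n ℂ)
    (hR : (K + diagonal b) * R = 1) (hR' : R * (K + diagonal b) = 1) (η : ℂ) (hη : η ≠ 0)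
    (hηdef : η = -conj ((K + diagonal b).det - c) * (K + diagonal b).det)
    (S : Matrix n n ℂ) (hS : S = η • R)
    (Y : Matrix n n ℂ) (hY : Y.IsHermitian) (g : n → ℂ) (C : Matrix n n ℂ)
    (hC : Y * diagonal b - diagonal b * Y = C) :
    M * ∑ j, 2 * (conj (b j - b1 j) * g j).re
      + 2 * (S * (diagonal g - I • C)).trace.re = 0
    ∧ 0 ≤ M * ∑ j, ‖g j‖ ^ 2 - ‖(K + diagonal b).det‖ ^ 2 * ‖(R * (diagonal g - I • C)).trace‖ ^ 2
      + (2 * I * (diagonal g * (Y * S - S * Y)).trace + (C * (Y * S - S * Y)).trace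
        + ((S * (diagonal g - I • C)).trace ^ 2
          - (S * (diagonal g - I • C) * (S * (diagonal g - I • C))).trace) / η).re := by
  have hT : star ((I / 2) • Y) = -((I / 2) • Y) := by
    rw [star_smul, star_eq_conjTranspose, hY.eq]
    rw [← neg_smul]
    congr 1
    simp
    ring
  have hso := second_order K (diagonal b) (diagonal g) ((I / 2) • Y) hT c _ _ R hR hR'
    (h.eventually hε g)
  have hJ : diagonal g + (2 : ℂ) • (diagonal b * (I / 2) • Y - (I / 2) • Y * diagonal b)
      = diagonal g - I • C := by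
    rw [← hC, mul_smul_comm, smul_mul_assoc, ← smul_sub, smul_smul, show (2 : ℂ) * (I / 2) = I by ring]
    module
  rw [hJ, ← hηdef] at hso
  obtain ⟨h1, h2⟩ := hso
  set J := diagonal g - I • C with hJdef
  constructor
  · rw [← h1, hS, smul_mul_assoc, trace_smul, smul_eq_mul]
  · refine le_of_le_of_eq h2 ?_
    rw [add_left_cancel_iff, show ∀ z : ℂ, 2 * z.re = (2 * z).re by intro z; simp]
    congr 1
    rw [hS]
    simp only [smul_mul_assoc, mul_smul_comm, trace_smul, smul_eq_mul, ← smul_sub, smul_smul]
    have e2 : (J * (Y * R - R * Y)).trace = (diagonal g * (Y * R - R * Y)).trace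
        - I * (C * (Y * R - R * Y)).trace := by
      rw [hJdef, Matrix.sub_mul, Matrix.trace_sub, smul_mul_assoc, trace_smul, smul_eq_mul]
    rw [e2]
    field_simp
    ring_nf
    rw [Complex.I_sq]
    ring


/-- a real quadratic inequality -/
theorem eq_zero_of_quad (x : ℂ) (A : ℝ)
    (h : ∀ z : ℂ, 0 ≤ A * ‖z‖ ^ 2 + (2 * I * z * x).re) : x = 0 := by
  by_contra hx
  have hx2 : 0 < ‖x‖ ^ 2 := by positivity
  set s : ℝ := 1 / (|A| + 1) with hs
  have hs0 : 0 < s := by positivity
  have h1 := h (I * (s : ℂ) * conj x)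
  have e1 : ‖I * (s : ℂ) * conj x‖ ^ 2 = s ^ 2 * ‖x‖ ^ 2 := by
    rw [norm_mul, norm_mul, Complex.norm_I, one_mul, mul_pow, Complex.norm_conj, Complex.norm_real,
      Real.norm_eq_abs, sq_abs]
  have e2 : (2 * I * (I * (s : ℂ) * conj x) * x).re = - (2 * s * ‖x‖ ^ 2) := by
    rw [← Complex.normSq_eq_norm_sq]
    simp only [Complex.mul_re, Complex.mul_im, Complex.I_re, Complex.I_im, Complex.conj_re,
      Complex.conj_im, Complex.ofReal_re, Complex.ofReal_im, Complex.normSq_apply,
      Complex.re_ofNat, Complex.im_ofNat]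
    ring
  rw [e1, e2] at h1
  have h2 : s * A ≤ 1 := by
    rw [hs, div_mul_eq_mul_div, one_mul, div_le_one (by positivity)]
    have := le_abs_self A
    linarith
  have h3 : 0 < s * ‖x‖ ^ 2 := by positivity
  nlinarith

theorem hW_of_trace (S : Matrix n n ℂ) (b : n → ℂ)
    (h : ∀ Y : Matrix n n ℂ, Y.IsHermitian →
      (S * (Y * diagonal b - diagonal b * Y)).trace.im = 0) (i j : n) :
    S i j * (b j - b i) = conj (S j i * (b i - b j)) := by
  have key : ∀ (x : ℂ), (x * (S j i * (b i - b j)) + conj x * (S i j * (b j - b i))).im = 0 := by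
    intro x
    have hY : (Matrix.single i j x + Matrix.single j i (conj x)).IsHermitian := by
      rw [Matrix.IsHermitian, conjTranspose_add, conjTranspose_single, conjTranspose_single]
      simp [add_comm]
    have := h _ hY
    have e : (S * ((Matrix.single i j x + Matrix.single j i (conj x)) * diagonal b
        - diagonal b * (Matrix.single i j x + Matrix.single j i (conj x)))).trace
        = -(x * (S j i * (b i - b j)) + conj x * (S i j * (b j - b i))) := by
      have e1 : (Matrix.single i j x + Matrix.single j i (conj x)) * diagonal b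
        - diagonal b * (Matrix.single i j x + Matrix.single j i (conj x))
        = Matrix.single i j (x * (b j - b i)) + Matrix.single j i (conj x * (b i - b j)) := by
        ext p q
        simp only [Matrix.sub_apply, Matrix.mul_diagonal, Matrix.diagonal_mul, Matrix.add_apply,
          Matrix.single_apply]
        by_cases h1 : i = p ∧ j = q <;> by_cases h2 : j = p ∧ i = q
        · rw [if_pos h1, if_pos h2, if_pos h1, if_pos h2]
          rw [← h1.1, ← h1.2]
          rw [← h1.1] at h2
          rw [h2.1]; ring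
        · rw [if_pos h1, if_neg h2, if_pos h1, if_neg h2, ← h1.1, ← h1.2]; ring
        · rw [if_neg h1, if_pos h2, if_neg h1, if_pos h2, ← h2.1, ← h2.2]; ring
        · rw [if_neg h1, if_neg h2, if_neg h1, if_neg h2]; ring
      rw [e1, Matrix.mul_add, Matrix.trace_add, Matrix.trace_mul_single, Matrix.trace_mul_single,
        op_smul_eq_mul, op_smul_eq_mul]
      ring
    rw [e, Complex.neg_im] at this
    linarith
  have k1 := key 1
  have k2 := key I
  set p := S j i * (b i - b j)
  set q := S i j * (b j - b i)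
  apply Complex.ext
  · simp at k2 ⊢
    linarith
  · simp at k1 ⊢
    linarith

theorem hΓ_of_herm {K : Matrix n n ℂ} (hK : K.IsHermitian) {b : n → ℂ} {η : ℂ}
    {S : Matrix n n ℂ} (h1 : S * (K + diagonal b) = η • 1) (h2 : (K + diagonal b) * S = η • 1) :
    (∀ i j, ∑ l, conj (S l i) * (b l).im * S l j = Γ S η i j)
    ∧ (∀ i j, ∑ l, S i l * (b l).im * conj (S j l) = Γ S η i j) := by
  set M0 := K + diagonal b with hM0
  have hdiff : M0 - M0ᴴ = diagonal (fun l => 2 * I * ((b l).im : ℂ)) := by
    rw [hM0, conjTranspose_add, hK.eq, diagonal_conjTranspose, add_sub_add_left_eq_sub,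
      diagonal_sub]
    congr 1
    ext l
    have := Complex.sub_conj (b l)
    simp only [Pi.star_apply, RCLike.star_def]
    rw [this]
    push_cast
    ring
  have h1' : M0ᴴ * Sᴴ = (conj η) • 1 := by
    rw [← conjTranspose_mul, h1, conjTranspose_smul, conjTranspose_one]; rfl
  have h2' : Sᴴ * M0ᴴ = (conj η) • 1 := by
    rw [← conjTranspose_mul, h2, conjTranspose_smul, conjTranspose_one]; rfl
  have e1 : Sᴴ * diagonal (fun l => 2 * I * ((b l).im : ℂ)) * S = η • Sᴴ - (conj η) • S := by
    rw [← hdiff, Matrix.mul_sub, Matrix.sub_mul, h2', Matrix.mul_assoc, h2, mul_smul_comm,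
      Matrix.mul_one, smul_mul_assoc, Matrix.one_mul]
  have e2 : S * diagonal (fun l => 2 * I * ((b l).im : ℂ)) * Sᴴ = η • Sᴴ - (conj η) • S := by
    rw [← hdiff, Matrix.mul_sub, Matrix.sub_mul, h1, Matrix.mul_assoc, h1', mul_smul_comm,
      Matrix.mul_one, smul_mul_assoc, Matrix.one_mul]
  constructor
  · intro i j
    have := congrFun (congrFun e1 i) j
    rw [Matrix.mul_apply] at this
    simp only [Matrix.mul_diagonal, conjTranspose_apply, Matrix.sub_apply, Matrix.smul_apply,
      smul_eq_mul, RCLike.star_def] at this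
    have h3 : ∑ x, conj (S x i) * (2 * I * ((b x).im : ℂ)) * S x j
        = 2 * I * ∑ l, conj (S l i) * (b l).im * S l j := by
      rw [Finset.mul_sum]
      exact Finset.sum_congr rfl (fun l _ => by ring)
    rw [h3] at this
    rw [Γ]
    have hI : (2 * I) ≠ 0 := by simp
    apply mul_left_cancel₀ hI
    rw [this]
    linear_combination -(conj η * S i j - η * conj (S j i)) * Complex.I_sq
  · intro i j
    have := congrFun (congrFun e2 i) j
    rw [Matrix.mul_apply] at this
    simp only [Matrix.mul_diagonal, conjTranspose_apply, Matrix.sub_apply, Matrix.smul_apply,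
      smul_eq_mul, RCLike.star_def] at this
    have h3 : ∑ x, S i x * (2 * I * ((b x).im : ℂ)) * conj (S j x)
        = 2 * I * ∑ l, S i l * (b l).im * conj (S j l) := by
      rw [Finset.mul_sum]
      exact Finset.sum_congr rfl (fun l _ => by ring)
    rw [h3] at this
    rw [Γ]
    have hI : (2 * I) ≠ 0 := by simp
    apply mul_left_cancel₀ hI
    rw [this]
    linear_combination -(conj η * S i j - η * conj (S j i)) * Complex.I_sq


theorem trace_sq_single (S C : Matrix n n ℂ) (l : n) (z : ℂ) :
    (S * (Matrix.single l l z - I • C) * (S * (Matrix.single l l z - I • C))).trace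
      = z ^ 2 * S l l ^ 2 - 2 * I * z * (S * C * S) l l - (S * C * (S * C)).trace := by
  have e1' : ∀ X : Matrix n n ℂ, (X * Matrix.single l l z).trace = z * X l l := by
    intro X
    rw [Matrix.trace_mul_single, op_smul_eq_mul, mul_comm]
  have e30 : S * (Matrix.single l l z - I • C) = S * Matrix.single l l z - I • (S * C) := by
    rw [Matrix.mul_sub, mul_smul_comm]
  have e31 : (S * Matrix.single l l z * (S * Matrix.single l l z)).trace = z ^ 2 * S l l ^ 2 := by
    have e310 : (S * Matrix.single l l z * S) l l = S l l * z * S l l := by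
      rw [Matrix.mul_apply, Finset.sum_eq_single l]
      · rw [Matrix.mul_apply, Finset.sum_eq_single l]
        · simp
        · intro j _ hj
          simp [Matrix.single_apply, hj.symm]
        · simp
      · intro j _ hj
        rw [Matrix.mul_apply, Finset.sum_eq_zero, zero_mul]
        intro q _
        simp [Matrix.single_apply, hj.symm]
      · simp
    rw [← Matrix.mul_assoc, e1', e310]
    ring
  have e32 : (S * Matrix.single l l z * (S * C)).trace = z * (S * C * S) l l := by
    rw [Matrix.trace_mul_comm, ← Matrix.mul_assoc, e1']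
  have e33 : (S * C * (S * Matrix.single l l z)).trace = z * (S * C * S) l l := by
    rw [← Matrix.mul_assoc, e1']
  rw [e30, Matrix.sub_mul, Matrix.mul_sub, Matrix.mul_sub, smul_mul_assoc, mul_smul_comm,
    smul_mul_assoc, mul_smul_comm, Matrix.trace_sub, Matrix.trace_sub, Matrix.trace_sub,
    trace_smul, trace_smul, trace_smul, trace_smul, e31, e32, e33]
  simp only [smul_eq_mul]
  linear_combination (S * C * (S * C)).trace * Complex.I_sq

theorem diag0 : (diagonal (0 : n → ℂ) : Matrix n n ℂ) = 0 := diagonal_zero'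

/-- At a local maximum the Hermitian matrix is diagonal. -/
theorem LocMax.diag (h : LocMax K b b1 c M ε) (hε : 0 < ε) (hK : K.IsHermitian)
    (hb : Function.Injective b) (hy : ∀ j, (b j).im ≠ 0)
    (hΔ : (K + diagonal b).det ≠ 0) (hc : (K + diagonal b).det ≠ c) :
    ∀ i j, i ≠ j → K i j = 0 := by
  set M0 := K + diagonal b with hM0
  set Δ := M0.det with hΔdef
  have hu : IsUnit M0.det := Ne.isUnit hΔ
  set R := M0⁻¹ with hRdef
  have hR : M0 * R = 1 := Matrix.mul_nonsing_inv _ hu
  have hR' : R * M0 = 1 := Matrix.nonsing_inv_mul _ hu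
  set η : ℂ := -conj (Δ - c) * Δ with hη
  have hη0 : η ≠ 0 := by
    rw [hη]
    refine mul_ne_zero (neg_ne_zero.2 ?_) hΔ
    rw [Ne, map_eq_zero_iff _ (starRingEnd ℂ).injective, sub_eq_zero]
    exact hc
  set S := η • R with hS
  have hS1 : S * M0 = η • 1 := by rw [hS, smul_mul_assoc, hR']
  have hS2 : M0 * S = η • 1 := by rw [hS, mul_smul_comm, hR]
  have hso := fun (Y : Matrix n n ℂ) (hY : Y.IsHermitian) (g : n → ℂ) =>
    h.so hε R hR hR' η hη0 hη S hS Y hY g _ rfl
  -- W is Hermitian
  have hW : ∀ i j, S i j * (b j - b i) = conj (S j i * (b i - b j)) := by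
    apply hW_of_trace S b
    intro Y hY
    have h1 := (hso Y hY 0).1
    simp only [Pi.zero_apply, mul_zero, Complex.zero_re, Finset.sum_const_zero, diag0,
      zero_sub, Matrix.mul_neg, mul_smul_comm, trace_neg, trace_smul, smul_eq_mul, Complex.neg_re,
      Complex.mul_re, Complex.I_re, Complex.I_im, zero_mul, one_mul] at h1
    linarith
  obtain ⟨hΓ1, hΓ2⟩ := hΓ_of_herm hK hS1 hS2
  have hrs : ∀ X : Matrix n n ℂ, (S * X).trace = η * (R * X).trace := by
    intro X
    rw [hS, smul_mul_assoc, trace_smul, smul_eq_mul]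
  -- N_k = 0
  have hN : ∀ k, NN S b k = 0 := by
    intro k
    have h1 := (hso (YY S b k) (YY_isHermitian S b k) 0).2
    rw [YY_comm'] at h1
    have h0 := star_zero S b η k hb hW hΓ1 hΓ2 hη0
    have h2 := trace_SC_star S b η k hb hW hΓ1 hΓ2
    have e1 : (S * (diagonal (0 : n → ℂ) - I • CC S b k)).trace = - (I * (S * CC S b k).trace) := by
      simp only [diag0, zero_sub, Matrix.mul_neg, mul_smul_comm, trace_neg, trace_smul,
        smul_eq_mul]
    have e1' : (R * (diagonal (0 : n → ℂ) - I • CC S b k)).trace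
        = - (I * (R * CC S b k).trace) := by
      simp only [diag0, zero_sub, Matrix.mul_neg, mul_smul_comm, trace_neg, trace_smul,
        smul_eq_mul]
    have e2 : (S * (diagonal (0 : n → ℂ) - I • CC S b k)
        * (S * (diagonal (0 : n → ℂ) - I • CC S b k))).trace
        = - (S * CC S b k * (S * CC S b k)).trace := by
      have e0 : S * (diagonal (0 : n → ℂ) - I • CC S b k) = (-I) • (S * CC S b k) := by
        simp only [diag0, zero_sub, Matrix.mul_neg, mul_smul_comm, neg_smul]
      rw [e0, smul_mul_assoc, mul_smul_comm, smul_smul, trace_smul, smul_eq_mul,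
        neg_mul_neg, Complex.I_mul_I]
      ring
    rw [e1, e2, e1'] at h1
    have e3 : (2 * I * (diagonal (0 : n → ℂ) * (YY S b k * S - S * YY S b k)).trace
        + (CC S b k * (YY S b k * S - S * YY S b k)).trace
        + ((-(I * (S * CC S b k).trace)) ^ 2 - -(S * CC S b k * (S * CC S b k)).trace) / η)
        = (CC S b k * (YY S b k * S - S * YY S b k)).trace
      + ((S * CC S b k * (S * CC S b k)).trace - (S * CC S b k).trace ^ 2) / η := by
      rw [diag0, Matrix.zero_mul, trace_zero, neg_sq, mul_pow, Complex.I_sq]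
      ring
    rw [e3, h0] at h1
    simp only [Pi.zero_apply, norm_zero, ne_eq, OfNat.ofNat_ne_zero, not_false_eq_true, zero_pow,
      Finset.sum_const_zero, mul_zero, zero_sub, add_zero, norm_neg, norm_mul, Complex.norm_I,
      one_mul] at h1
    have hΔn : 0 < ‖Δ‖ ^ 2 := by positivity
    rw [← hM0, ← hΔdef] at h1
    have h3 : ‖(R * CC S b k).trace‖ ^ 2 = 0 := by
      have := sq_nonneg ‖(R * CC S b k).trace‖
      nlinarith
    have h4 : (R * CC S b k).trace = 0 := by
      rw [sq_eq_zero_iff, norm_eq_zero] at h3; exact h3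
    rw [hrs, h4, mul_zero] at h2
    have h6 : (NN S b k : ℂ) = 0 := by linear_combination (1/2) * h2
    exact_mod_cast h6
  -- vv = 0
  have hV : ∀ k l, l ≠ k → vv S b k l = 0 := by
    intro k l hl
    have hD : b l - b k ≠ 0 := fun hh => hl (hb (sub_eq_zero.1 hh))
    have h0 := star_zero S b η k hb hW hΓ1 hΓ2 hη0
    have h2 := trace_SC_star S b η k hb hW hΓ1 hΓ2
    rw [hN k, Complex.ofReal_zero, mul_zero] at h2
    have hx : (YY S b k * S - S * YY S b k) l l + (S * CC S b k * S) l l / η = 0 := by
      apply eq_zero_of_quad _ (M - ‖Δ‖ ^ 2 * ‖R l l‖ ^ 2)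
      intro z
      have h1 := (hso (YY S b k) (YY_isHermitian S b k) (Pi.single l z)).2
      rw [YY_comm'] at h1
      have hdg : diagonal (Pi.single l z) = Matrix.single l l z := by
        rw [diagonal_single]
      rw [hdg] at h1
      have e1 : ∀ X : Matrix n n ℂ, (Matrix.single l l z * X).trace = z * X l l := by
        intro X
        rw [Matrix.trace_mul_comm, Matrix.trace_mul_single, op_smul_eq_mul, mul_comm]
      have e1' : ∀ X : Matrix n n ℂ, (X * Matrix.single l l z).trace = z * X l l := by
        intro X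
        rw [Matrix.trace_mul_single, op_smul_eq_mul, mul_comm]
      have e2 : ∀ X : Matrix n n ℂ, (X * (Matrix.single l l z - I • CC S b k)).trace
          = z * X l l - I * (X * CC S b k).trace := by
        intro X
        rw [Matrix.mul_sub, mul_smul_comm, Matrix.trace_sub, trace_smul, smul_eq_mul, e1']
      have hRC : (R * CC S b k).trace = 0 := by
        rw [hrs] at h2
        exact (mul_eq_zero.1 h2).resolve_left hη0
      have e3 : (S * (Matrix.single l l z - I • CC S b k)
          * (S * (Matrix.single l l z - I • CC S b k))).trace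
          = z ^ 2 * S l l ^ 2 - 2 * I * z * (S * CC S b k * S) l l
            - (S * CC S b k * (S * CC S b k)).trace := by
        exact trace_sq_single S (CC S b k) l z
      rw [e1, e2, e2, e3, h2, hRC] at h1
      have hsum : ∑ j, ‖(Pi.single l z : n → ℂ) j‖ ^ 2 = ‖z‖ ^ 2 := by
        rw [Finset.sum_eq_single l]
        · simp
        · intro j _ hj
          simp [Pi.single_apply, hj]
        · simp
      rw [hsum, ← hM0, ← hΔdef] at h1
      rw [h2] at h0
      refine le_of_le_of_eq h1 ?_
      have e4 : 2 * I * (z * (YY S b k * S - S * YY S b k) l l)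
          + (CC S b k * (YY S b k * S - S * YY S b k)).trace
          + ((z * S l l - I * 0) ^ 2 - (z ^ 2 * S l l ^ 2 - 2 * I * z * (S * CC S b k * S) l l
            - (S * CC S b k * (S * CC S b k)).trace)) / η
          = 2 * I * z * ((YY S b k * S - S * YY S b k) l l + (S * CC S b k * S) l l / η)
          + ((CC S b k * (YY S b k * S - S * YY S b k)).trace
            + ((S * CC S b k * (S * CC S b k)).trace - 0 ^ 2) / η) := by
        ring
      rw [e4, Complex.add_re, h0, mul_zero, sub_zero, norm_mul]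
      ring
    rw [mixed_eq S b η k hb hW hΓ1 hΓ2 l hl hη0] at hx
    have hG := Γ_kk_eq S b η k hb hΓ1
    rw [hN k, Γ_kk, Complex.ofReal_zero, zero_add] at hG
    have hG' : -(conj η * S k k).im = (b k).im * Complex.normSq (S k k) := by
      have : ((-(conj η * S k k).im : ℝ) : ℂ) = (((b k).im * Complex.normSq (S k k) : ℝ) : ℂ) := by
        rw [hG]
        push_cast
        rw [← Complex.mul_conj]
        ring
      exact_mod_cast this
    rcases mul_eq_zero.1 hx with h5 | h5
    · have hcD : conj (b l - b k) ≠ 0 := by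
        rw [Ne, map_eq_zero_iff _ (starRingEnd ℂ).injective]; exact hD
      rw [div_eq_zero_iff] at h5
      rcases h5 with h5 | h5
      · rcases mul_eq_zero.1 h5 with h6 | h6
        · rcases mul_eq_zero.1 h6 with h7 | h7
          · norm_num at h7
          · exact Complex.normSq_eq_zero.1 (by exact_mod_cast h7)
        · exact absurd h6 hcD
      · exact absurd h5 hη0
    · exact absurd (cx2 (S k k) (b l - b k) η (b k).im (b l).im hη0 (by simp) (hy k) (hy l)
        h5 hG') id
  -- S is diagonal
  have hSd : ∀ i j, i ≠ j → S i j = 0 := by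
    intro i j hij
    rw [S_jk S b j hb hij, hV j i hij, neg_zero, zero_mul]
  -- M0 is diagonal
  intro i j hij
  have hM0S : ∀ i j, M0 i j * S j j = (η • (1 : Matrix n n ℂ)) i j := by
    intro i j
    rw [← hS2, Matrix.mul_apply, Finset.sum_eq_single j]
    · intro l _ hl
      rw [hSd l j hl, mul_zero]
    · simp
  have hjj : S j j ≠ 0 := by
    intro h0
    have := hM0S j j
    rw [h0, mul_zero] at this
    simp at this
    exact hη0 this.symm
  have h1 := hM0S i j
  rw [Matrix.smul_apply, Matrix.one_apply_ne hij, smul_zero] at h1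
  have h2 := (mul_eq_zero.1 h1).resolve_right hjj
  rw [hM0, Matrix.add_apply, diagonal_apply_ne _ hij, add_zero] at h2
  exact h2

end

end Pool.Agent.Helper54.OMC
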