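import Mathlib
import Pool.Agent.Helper54.OMCHerm

/-!
The disc form of the determinantal conjecture for `K` Hermitian and `B` normal.
-/

set_option autoImplicit false
set_option linter.unusedSimpArgs false
set_option linter.unusedSectionVars false

namespace Pool.Agent.Helper54.OMC

open Matrix Complex Filter Topology
open scoped ComplexConjugate

variable {n : Type*} [Fintype n] [DecidableEq n]

/-- Two functions on a finite type with the same multiset of values differ by a permutation. -/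
theorem exists_perm_of_map_eq {α : Type*} [DecidableEq α] (f g : n → α)
    (h : Finset.univ.val.map f = Finset.univ.val.map g) : ∃ σ : Equiv.Perm n, ∀ i, f i = g (σ i) := by
  have hcard : ∀ c, Fintype.card {a // f a = c} = Fintype.card {a // g a = c} := by
    intro c
    have h1 := congrArg (Multiset.count c) h
    rw [Multiset.count_map, Multiset.count_map] at h1
    rw [Fintype.card_subtype, Fintype.card_subtype]
    simp only [Finset.card, Finset.filter_val]
    simpa only [eq_comm] using h1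
  exact ⟨Equiv.ofFiberEquiv (fun c => Fintype.equivOfCardEq (hcard c)),
    fun i => (Equiv.ofFiberEquiv_map _ i).symm⟩

theorem charpoly_diagonal (d : n → ℂ) :
    (diagonal d).charpoly = (Finset.univ.val.map (fun i => Polynomial.X - Polynomial.C (d i))).prod := by
  rw [Matrix.charpoly_diagonal]
  rfl

theorem perm_of_diag (d κ : n → ℂ) (U : Matrix n n ℂ) (hU : U ∈ unitaryGroup n ℂ)
    (h : U * diagonal d * star U = diagonal κ) : ∃ σ : Equiv.Perm n, ∀ i, κ i = d (σ i) := by
  have h1 : (diagonal κ).charpoly = (diagonal d).charpoly := by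
    rw [← h]
    have hU1 : U * star U = 1 := mem_unitaryGroup_iff.1 hU
    have hU2 : star U * U = 1 := mem_unitaryGroup_iff'.1 hU
    rw [Matrix.mul_assoc, Matrix.charpoly_mul_comm, Matrix.mul_assoc, hU2, Matrix.mul_one]
  rw [charpoly_diagonal, charpoly_diagonal] at h1
  have h2 := congrArg Polynomial.roots h1
  have e : ∀ d : n → ℂ, Multiset.map (fun i => Polynomial.X - Polynomial.C (d i)) Finset.univ.val
      = Multiset.map (fun a => Polynomial.X - Polynomial.C a) (Multiset.map d Finset.univ.val) := by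
    intro d
    rw [Multiset.map_map]; rfl
  rw [e, e, Polynomial.roots_multiset_prod_X_sub_C, Polynomial.roots_multiset_prod_X_sub_C] at h2
  exact exists_perm_of_map_eq κ d h2

theorem det_diag_perm (d b κ : n → ℂ) (σ : Equiv.Perm n) (h : ∀ i, κ i = d (σ i)) :
    (diagonal κ + diagonal b).det = ∏ i, (d i + b (σ.symm i)) := by
  rw [diagonal_add, det_diagonal]
  rw [← Equiv.prod_comp σ.symm]
  refine Finset.prod_congr rfl (fun i _ => ?_)
  rw [h, Equiv.apply_symm_apply]

theorem isCompact_unitary : IsCompact {U : Matrix n n ℂ | U ∈ unitaryGroup n ℂ} := by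
  have hc : IsCompact (Set.pi Set.univ (fun _ : n => Set.pi Set.univ
      (fun _ : n => Metric.closedBall (0 : ℂ) 1))) :=
    isCompact_univ_pi (fun _ => isCompact_univ_pi (fun _ => isCompact_closedBall _ _))
  refine hc.of_isClosed_subset ?_ ?_
  · have : {U : Matrix n n ℂ | U ∈ unitaryGroup n ℂ} = {U | U * star U = 1} := by
      ext U; exact mem_unitaryGroup_iff
    rw [this]
    exact isClosed_eq (by fun_prop) continuous_const
  · intro U hU i _ j _
    rw [mem_closedBall_zero_iff]
    exact entry_norm_bound_of_unitary hU i j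

/-- maximum modulus -/
theorem exists_larger [Nonempty n] (M0 : Matrix n n ℂ) (c : ℂ) (P : ℂ → Prop)
    (hP : ∀ᶠ w in 𝓝 (0 : ℂ), P w) :
    ∃ w, P w ∧ ‖M0.det - c‖ < ‖(M0 + w • (1 : Matrix n n ℂ)).det - c‖ := by
  by_contra hcon
  push Not at hcon
  set g : ℂ → ℂ := fun w => (M0 + w • (1 : Matrix n n ℂ)).det - c with hg
  set p : Polynomial ℂ := (-M0).charpoly with hp
  have hgp : ∀ w, g w = p.eval w - c := by
    intro w
    rw [hg, hp, Matrix.eval_charpoly]
    simp only
    congr 2
    rw [sub_neg_eq_add, add_comm]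
    congr 1
    rw [smul_one_eq_diagonal]; rfl
  have hdiff : Differentiable ℂ g := by
    have : g = fun w => p.eval w - c := funext hgp
    rw [this]
    exact p.differentiable.sub_const c
  have hg0 : g 0 = M0.det - c := by simp [hg]
  have hmax : IsLocalMax (norm ∘ g) 0 := by
    filter_upwards [hP] with w hw
    have := hcon w hw
    simp only [Function.comp_apply]
    rw [hg0]
    exact this
  have hev := Complex.eventually_eq_of_isLocalMax_norm (Eventually.of_forall fun z => hdiff z) hmax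
  -- p - C (p 0) has infinitely many roots
  have hinf : {w : ℂ | p.eval w = (Polynomial.C (p.eval 0)).eval w}.Infinite := by
    have : {w : ℂ | p.eval w = (Polynomial.C (p.eval 0)).eval w} ∈ 𝓝 (0 : ℂ) := by
      filter_upwards [hev] with w hw
      rw [hgp, hgp] at hw
      simp only [Set.mem_ofPred_eq, Polynomial.eval_C]
      linear_combination hw
    exact infinite_of_mem_nhds 0 this
  have heq := Polynomial.eq_of_infinite_eval_eq p _ hinf
  have hdeg : p.natDegree = Fintype.card n := Matrix.charpoly_natDegree_eq_dim _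
  rw [heq, Polynomial.natDegree_C] at hdeg
  exact Fintype.card_ne_zero hdeg.symm

theorem eventually_affine_ne {a v : ℂ} (hv : v ≠ 0) : ∀ᶠ t : ℝ in 𝓝[≠] 0, a + (t : ℂ) * v ≠ 0 := by
  by_cases ha : a = 0
  · filter_upwards [self_mem_nhdsWithin] with t ht
    rw [ha, zero_add]
    exact mul_ne_zero (by exact_mod_cast ht) hv
  · have hc : Continuous fun t : ℝ => a + (t : ℂ) * v := by fun_prop
    have h0 : a + ((0 : ℝ) : ℂ) * v ≠ 0 := by simpa using ha
    exact nhdsWithin_le_nhds (hc.continuousAt.eventually_ne h0)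

/-- generic perturbation -/
theorem exists_generic (b : n → ℂ) (P : (n → ℂ) → Prop) (hP : ∀ᶠ b' in 𝓝 b, P b') :
    ∃ b', P b' ∧ Function.Injective b' ∧ ∀ j, (b' j).im ≠ 0 := by
  set e := Fintype.equivFin n
  set v : n → ℂ := fun j => I * ((e j : ℕ) + 1) with hv
  have hvinj : ∀ i j, i ≠ j → v i - v j ≠ 0 := by
    intro i j hij h
    apply hij
    rw [sub_eq_zero] at h
    simp only [hv] at h
    have h1 := mul_left_cancel₀ Complex.I_ne_zero h
    have h2 : ((e i : ℕ) : ℂ) = ((e j : ℕ) : ℂ) := add_right_cancel h1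
    have h3 : (e i : ℕ) = (e j : ℕ) := by exact_mod_cast h2
    exact e.injective (Fin.ext h3)
  have hcont : Continuous fun t : ℝ => (fun j => b j + (t : ℂ) * v j : n → ℂ) := by fun_prop
  have h1 : ∀ᶠ t : ℝ in 𝓝[≠] 0, P (fun j => b j + (t : ℂ) * v j) := by
    have ht : Tendsto (fun t : ℝ => (fun j => b j + (t : ℂ) * v j : n → ℂ)) (𝓝 0) (𝓝 b) := by
      have := hcont.tendsto 0
      simpa using this
    exact nhdsWithin_le_nhds (ht.eventually hP)
  have h2 : ∀ᶠ t : ℝ in 𝓝[≠] 0, ∀ i j, i ≠ j → (b i + (t : ℂ) * v i) ≠ b j + (t : ℂ) * v j := by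
    rw [Filter.eventually_all]
    intro i
    rw [Filter.eventually_all]
    intro j
    by_cases hij : i = j
    · exact Eventually.of_forall fun t h => absurd hij h
    · filter_upwards [eventually_affine_ne (a := b i - b j) (hvinj i j hij)] with t ht _ h
      apply ht
      linear_combination h
  have h3 : ∀ᶠ t : ℝ in 𝓝[≠] 0, ∀ j, (b j + (t : ℂ) * v j).im ≠ 0 := by
    rw [Filter.eventually_all]
    intro j
    have hv' : (((e j : ℕ) : ℂ) + 1) ≠ 0 := Nat.cast_add_one_ne_zero _
    filter_upwards [eventually_affine_ne (a := ((b j).im : ℂ)) hv'] with t ht h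
    apply ht
    have : (b j + (t : ℂ) * v j).im = (b j).im + t * ((e j : ℕ) + 1) := by
      simp [hv]
    rw [this] at h
    exact_mod_cast h
  obtain ⟨t, ht1, ht2, ht3⟩ := (h1.and (h2.and h3)).exists
  exact ⟨_, ht1, fun i j hij => by_contra fun h => ht2 i j h hij, ht3⟩

section main

variable (lam : n → ℝ) (c : ℂ)

/-- the determinant -/
noncomputable def FF (U : Matrix n n ℂ) (b : n → ℂ) : ℂ :=
  (U * diagonal (fun i => (lam i : ℂ)) * star U + diagonal b).det

/-- the permutation points -/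
noncomputable def zz (σ : Equiv.Perm n) (b : n → ℂ) : ℂ := ∏ i, ((lam i : ℂ) + b (σ i))

/-- `F` lies outside a disc about `c` containing all the permutation points -/
def Bad (U : Matrix n n ℂ) (b : n → ℂ) : Prop :=
  U ∈ unitaryGroup n ℂ ∧ ∀ σ, ‖zz lam σ b - c‖ < ‖FF lam U b - c‖

theorem continuous_FF : Continuous fun p : Matrix n n ℂ × (n → ℂ) => FF lam p.1 p.2 := by
  unfold FF
  fun_prop

theorem continuous_zz (σ : Equiv.Perm n) : Continuous (zz lam σ) := by
  unfold zz
  fun_prop

theorem FF_isHermitian (U : Matrix n n ℂ) :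
    (U * diagonal (fun i => (lam i : ℂ)) * star U).IsHermitian := by
  rw [Matrix.IsHermitian, star_eq_conjTranspose, conjTranspose_mul, conjTranspose_mul,
    conjTranspose_conjTranspose, diagonal_conjTranspose, Matrix.mul_assoc]
  congr 3
  ext i
  simp

/-- Choice of a generic starting point. -/
theorem exists_start (U0 : Matrix n n ℂ) (b0 : n → ℂ) (h0 : Bad lam c U0 b0) :
    ∃ U1 b1, Bad lam c U1 b1 ∧ Function.Injective b1 ∧ (∀ j, (b1 j).im ≠ 0)
      ∧ (∀ U b, Bad lam c U b → ‖FF lam U1 b1 - c‖ ≤ ‖FF lam U b - c‖ → FF lam U b ≠ 0) := by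
  rcases isEmpty_or_nonempty n with hn | hn
  · exfalso
    have := h0.2 1
    simp [zz, FF] at this
  by_cases hcase : ∃ U b, Bad lam c U b ∧ ‖c‖ ≤ ‖FF lam U b - c‖
  · obtain ⟨U, b, hB, hc⟩ := hcase
    -- perturb to make it strict
    have hP : ∀ᶠ w in 𝓝 (0 : ℂ), Bad lam c U (fun j => b j + w) := by
      have hcw : Continuous fun w : ℂ => (fun j => b j + w : n → ℂ) := by fun_prop
      have h1 : ∀ᶠ w in 𝓝 (0 : ℂ), ∀ σ, ‖zz lam σ (fun j => b j + w) - c‖
          < ‖FF lam U (fun j => b j + w) - c‖ := by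
        rw [Filter.eventually_all]
        intro σ
        have hc1 : Continuous fun w : ℂ => ‖zz lam σ (fun j => b j + w) - c‖ :=
          (((continuous_zz lam σ).comp hcw).sub continuous_const).norm
        have hc2 : Continuous fun w : ℂ => ‖FF lam U (fun j => b j + w) - c‖ :=
          (((continuous_FF lam).comp (continuous_const.prodMk hcw)).sub continuous_const).norm
        have h00 : ‖zz lam σ (fun j => b j + 0) - c‖ < ‖FF lam U (fun j => b j + 0) - c‖ := by
          simpa using hB.2 σ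
        exact hc1.continuousAt.eventually_lt hc2.continuousAt h00
      filter_upwards [h1] with w hw
      exact ⟨hB.1, hw⟩
    obtain ⟨w, hw1, hw2⟩ := exists_larger (U * diagonal (fun i => (lam i : ℂ)) * star U
      + diagonal b) c _ hP
    have e : U * diagonal (fun i => (lam i : ℂ)) * star U + diagonal b + w • (1 : Matrix n n ℂ)
        = U * diagonal (fun i => (lam i : ℂ)) * star U + diagonal (fun j => b j + w) := by
      rw [add_assoc, smul_one_eq_diagonal, diagonal_add]
    rw [e] at hw2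
    have hw3 : ‖c‖ < ‖FF lam U (fun j => b j + w) - c‖ := lt_of_le_of_lt hc hw2
    set b2 : n → ℂ := fun j => b j + w with hb2
    have hcont : Continuous fun b' : n → ℂ => ‖FF lam U b' - c‖ :=
      (((continuous_FF lam).comp (continuous_const.prodMk continuous_id)).sub
        continuous_const).norm
    have hQ : ∀ᶠ b' in 𝓝 b2, Bad lam c U b' ∧ ‖c‖ < ‖FF lam U b' - c‖ := by
      have h1 : ∀ᶠ b' in 𝓝 b2, ∀ σ, ‖zz lam σ b' - c‖ < ‖FF lam U b' - c‖ := by
        rw [Filter.eventually_all]
        intro σ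
        exact (((continuous_zz lam σ).sub continuous_const).norm).continuousAt.eventually_lt
          hcont.continuousAt (hw1.2 σ)
      have h2 : ∀ᶠ b' in 𝓝 b2, ‖c‖ < ‖FF lam U b' - c‖ :=
        continuousAt_const.eventually_lt hcont.continuousAt hw3
      filter_upwards [h1, h2] with b' h1 h2
      exact ⟨⟨hB.1, h1⟩, h2⟩
    obtain ⟨b1, hb1, hinj, him⟩ := exists_generic b2 _ hQ
    refine ⟨U, b1, hb1.1, hinj, him, fun U' b' _ hle h0 => ?_⟩
    rw [h0, zero_sub, norm_neg] at hle
    exact absurd hb1.2 (not_lt.2 hle)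
  · push Not at hcase
    have hcont : Continuous fun b' : n → ℂ => ‖FF lam U0 b' - c‖ :=
      (((continuous_FF lam).comp (continuous_const.prodMk continuous_id)).sub
        continuous_const).norm
    have hQ : ∀ᶠ b' in 𝓝 b0, Bad lam c U0 b' := by
      have h1 : ∀ᶠ b' in 𝓝 b0, ∀ σ, ‖zz lam σ b' - c‖ < ‖FF lam U0 b' - c‖ := by
        rw [Filter.eventually_all]
        intro σ
        exact (((continuous_zz lam σ).sub continuous_const).norm).continuousAt.eventually_lt
          hcont.continuousAt (h0.2 σ)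
      filter_upwards [h1] with b' h1
      exact ⟨h0.1, h1⟩
    obtain ⟨b1, hb1, hinj, him⟩ := exists_generic b0 _ hQ
    refine ⟨U0, b1, hb1, hinj, him, fun U' b' hB _ h0 => ?_⟩
    have := hcase U' b' hB
    rw [h0, zero_sub, norm_neg] at this
    exact lt_irrefl _ this

/-- Disc form of the determinantal conjecture, `K` Hermitian. -/
theorem disc_herm (U : Matrix n n ℂ) (hU : U ∈ unitaryGroup n ℂ) (b : n → ℂ) :
    ∃ σ, ‖FF lam U b - c‖ ≤ ‖zz lam σ b - c‖ := by
  by_contra hcon
  push Not at hcon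
  obtain ⟨U1, b1, hB1, hinj1, him1, hne1⟩ := exists_start lam c U b ⟨hU, hcon⟩
  -- radius
  have hQ : ∀ᶠ b' in 𝓝 b1, (∀ σ, ‖zz lam σ b' - c‖ < ‖FF lam U1 b1 - c‖)
      ∧ Function.Injective b' ∧ ∀ j, (b' j).im ≠ 0 := by
    have h1 : ∀ᶠ b' in 𝓝 b1, ∀ σ, ‖zz lam σ b' - c‖ < ‖FF lam U1 b1 - c‖ := by
      rw [Filter.eventually_all]
      intro σ
      exact (((continuous_zz lam σ).sub continuous_const).norm).continuousAt.eventually_lt
        continuousAt_const (hB1.2 σ)
    have h2 : ∀ᶠ b' : n → ℂ in 𝓝 b1, ∀ i j, i ≠ j → b' i ≠ b' j := by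
      rw [Filter.eventually_all]
      intro i
      rw [Filter.eventually_all]
      intro j
      by_cases hij : i = j
      · exact Eventually.of_forall fun t h => absurd hij h
      · have hc : Continuous fun b' : n → ℂ => b' i - b' j := by fun_prop
        have hne : b1 i - b1 j ≠ 0 := sub_ne_zero.2 fun h => hij (hinj1 h)
        filter_upwards [hc.continuousAt.eventually_ne hne] with b' hb' _
        exact sub_ne_zero.1 hb'
    have h3 : ∀ᶠ b' : n → ℂ in 𝓝 b1, ∀ j, (b' j).im ≠ 0 := by
      rw [Filter.eventually_all]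
      intro j
      have hc : Continuous fun b' : n → ℂ => (b' j).im := by fun_prop
      exact hc.continuousAt.eventually_ne (him1 j)
    filter_upwards [h1, h2, h3] with b' h1 h2 h3
    exact ⟨h1, fun i j hij => by_contra fun h => h2 i j h hij, h3⟩
  obtain ⟨r, hr0, hr⟩ := Metric.eventually_nhds_iff.1 hQ
  set ρ : ℝ := r / 2 with hρ
  have hρ0 : 0 < ρ := by positivity
  have hρr : ρ < r := by rw [hρ]; linarith
  -- compact set
  set 𝒦 : Set (Matrix n n ℂ × (n → ℂ)) :=
    {U : Matrix n n ℂ | U ∈ unitaryGroup n ℂ} ×ˢ Metric.closedBall b1 ρ with h𝒦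
  have hKc : IsCompact 𝒦 := isCompact_unitary.prod (isCompact_closedBall _ _)
  have hmem1 : (U1, b1) ∈ 𝒦 := ⟨hB1.1, Metric.mem_closedBall_self hρ0.le⟩
  have hne : 𝒦.Nonempty := ⟨_, hmem1⟩
  have hfc : Continuous fun p : Matrix n n ℂ × (n → ℂ) => ‖FF lam p.1 p.2 - c‖ ^ 2 :=
    (((continuous_FF lam).sub continuous_const).norm).pow 2
  obtain ⟨p0, _, hp0⟩ := hKc.exists_isMaxOn hne hfc.continuousOn
  set B0 : ℝ := ‖FF lam p0.1 p0.2 - c‖ ^ 2 with hB0
  have hB00 : 0 ≤ B0 := by positivity
  set M : ℝ := (B0 + 1) / ρ ^ 2 with hM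
  have hM0 : 0 < M := by positivity
  have hΞc : Continuous fun p : Matrix n n ℂ × (n → ℂ) =>
      ‖FF lam p.1 p.2 - c‖ ^ 2 - M * ∑ j, ‖p.2 j - b1 j‖ ^ 2 := by
    refine hfc.sub (continuous_const.mul ?_)
    fun_prop
  obtain ⟨⟨U2, b2⟩, hmem2, hmax⟩ := hKc.exists_isMaxOn hne hΞc.continuousOn
  have hU2 : U2 ∈ unitaryGroup n ℂ := hmem2.1
  have hb2 : b2 ∈ Metric.closedBall b1 ρ := hmem2.2
  have h12 := hmax hmem1
  simp only [Set.mem_ofPred_eq, sub_self, norm_zero, ne_eq, OfNat.ofNat_ne_zero,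
    not_false_eq_true, zero_pow, Finset.sum_const_zero, mul_zero, sub_zero] at h12
  have hf12 : ‖FF lam U1 b1 - c‖ ≤ ‖FF lam U2 b2 - c‖ := by
    have hs : 0 ≤ M * ∑ j, ‖b2 j - b1 j‖ ^ 2 :=
      mul_nonneg hM0.le (Finset.sum_nonneg fun j _ => sq_nonneg _)
    have h3 : ‖FF lam U1 b1 - c‖ ^ 2 ≤ ‖FF lam U2 b2 - c‖ ^ 2 := by linarith
    exact (sq_le_sq₀ (norm_nonneg _) (norm_nonneg _)).1 h3
  have hgood := hr (lt_of_le_of_lt (Metric.mem_closedBall.1 hb2) hρr)
  have hB2 : Bad lam c U2 b2 := ⟨hU2, fun σ => lt_of_lt_of_le (hgood.1 σ) hf12⟩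
  have hΔ2 : FF lam U2 b2 ≠ 0 := hne1 U2 b2 hB2 hf12
  have hc2 : FF lam U2 b2 ≠ c := by
    intro h
    have := hB2.2 1
    rw [h, sub_self, norm_zero] at this
    exact absurd this (not_lt.2 (norm_nonneg _))
  -- interior in `b`
  have hsum : ∑ j, ‖b2 j - b1 j‖ ^ 2 < ρ ^ 2 := by
    have h3 := hp0 hmem2
    simp only [Set.mem_ofPred_eq] at h3
    rw [← hB0] at h3
    have h4 : M * ∑ j, ‖b2 j - b1 j‖ ^ 2 < M * ρ ^ 2 := by
      have e1 : M * ρ ^ 2 = B0 + 1 := by rw [hM]; field_simp
      have := sq_nonneg ‖FF lam U1 b1 - c‖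
      rw [e1]; linarith
    exact lt_of_mul_lt_mul_left h4 hM0.le
  have hj : ∀ j, ‖b2 j - b1 j‖ < ρ := by
    intro j
    have h3 : ‖b2 j - b1 j‖ ^ 2 < ρ ^ 2 :=
      lt_of_le_of_lt (Finset.single_le_sum (f := fun j => ‖b2 j - b1 j‖ ^ 2)
        (fun i _ => sq_nonneg _) (Finset.mem_univ j)) hsum
    exact (sq_lt_sq₀ (norm_nonneg _) hρ0.le).1 h3
  have hdist : dist b2 b1 < ρ := by
    rw [dist_pi_lt_iff hρ0]
    intro j
    rw [dist_eq_norm]
    exact hj j
  -- local maximum
  have hloc : LocMax (U2 * diagonal (fun i => (lam i : ℂ)) * star U2) b2 b1 c M (ρ - dist b2 b1) := by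
    intro V hV b' hb'
    have hVU : V * U2 ∈ unitaryGroup n ℂ := mul_mem hV hU2
    have hbb : b' ∈ Metric.closedBall b1 ρ := by
      rw [Metric.mem_closedBall, dist_pi_le_iff hρ0.le]
      intro j
      calc dist (b' j) (b1 j) ≤ dist (b' j) (b2 j) + dist (b2 j) (b1 j) := dist_triangle _ _ _
        _ ≤ (ρ - dist b2 b1) + dist b2 b1 := by
            refine add_le_add ?_ (dist_le_pi_dist _ _ j)
            rw [dist_eq_norm]
            exact (hb' j).le
        _ = ρ := by ring
    have hmem : (V * U2, b') ∈ 𝒦 := ⟨hVU, hbb⟩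
    have h3 := hmax hmem
    simp only [Set.mem_ofPred_eq] at h3
    have e1 : V * (U2 * diagonal (fun i => (lam i : ℂ)) * star U2) * star V
        = (V * U2) * diagonal (fun i => (lam i : ℂ)) * star (V * U2) := by
      rw [star_mul]
      simp only [Matrix.mul_assoc]
    rw [e1, Finset.sum_sub_distrib]
    have e2 : ((V * U2) * diagonal (fun i => (lam i : ℂ)) * star (V * U2) + diagonal b').det
      = FF lam (V * U2) b' := rfl
    have e3 : (U2 * diagonal (fun i => (lam i : ℂ)) * star U2 + diagonal b2).det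
      = FF lam U2 b2 := rfl
    rw [e2, e3]
    linarith
  have hdiag := hloc.diag (by linarith) (FF_isHermitian lam U2) hgood.2.1 hgood.2.2 hΔ2 hc2
  set κ : n → ℂ := fun i => (U2 * diagonal (fun i => (lam i : ℂ)) * star U2) i i with hκ
  have hKκ : U2 * diagonal (fun i => (lam i : ℂ)) * star U2 = diagonal κ := by
    ext i j
    by_cases hij : i = j
    · subst hij; simp [hκ]
    · rw [hdiag i j hij, diagonal_apply_ne _ hij]
  obtain ⟨σ, hσ⟩ := perm_of_diag _ κ U2 hU2 hKκ
  have hfin : FF lam U2 b2 = zz lam σ.symm b2 := by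
    rw [FF, hKκ, det_diag_perm (fun i => (lam i : ℂ)) b2 κ σ hσ, zz]
  have := hB2.2 σ.symm
  rw [hfin] at this
  exact lt_irrefl _ this

end main

end Pool.Agent.Helper54.OMC
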