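import Mathlib
import Pool.Agent.Helper54.OMCGlobal

/-!
From discs to convex hulls, and from the real line to arbitrary circles and lines.
-/

set_option autoImplicit false
set_option linter.unusedSimpArgs false
set_option linter.unusedSectionVars false

namespace Pool.Agent.Helper54.OMC

open Matrix Complex Filter Topology
open scoped ComplexConjugate

/-- A point lying in every disc that contains finitely many given points is in their hull. -/
theorem mem_hull_of_disc {ι : Type*} [Fintype ι] [Nonempty ι] (z : ι → ℂ) (w : ℂ)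
    (h : ∀ c : ℂ, ∃ i, ‖w - c‖ ≤ ‖z i - c‖) : w ∈ convexHull ℝ (Set.range z) := by
  by_contra hw
  set K := convexHull ℝ (Set.range z) with hK
  have hfin : (Set.range z).Finite := Set.finite_range z
  have hcl : IsClosed K := hfin.isClosed_convexHull ℝ
  have hcv : Convex ℝ K := convex_convexHull ℝ _
  have hne : K.Nonempty := (Set.range_nonempty z).convexHull
  obtain ⟨v, hvK, hv⟩ := exists_norm_eq_iInf_of_complete_convex hne hcl.isComplete hcv w
  have hinner := (norm_eq_iInf_iff_real_inner_le_zero hcv hvK).1 hv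
  have hd : w - v ≠ 0 := by
    intro h0
    rw [sub_eq_zero] at h0
    exact hw (h0 ▸ hvK)
  set d := w - v with hdd
  have hd2 : 0 < ‖d‖ ^ 2 := by positivity
  set Bd : ℝ := ∑ i, ‖z i - v‖ ^ 2 with hBd
  have hBd0 : 0 ≤ Bd := Finset.sum_nonneg fun i _ => sq_nonneg _
  set T : ℝ := Bd / ‖d‖ ^ 2 with hT
  have hT0 : 0 ≤ T := by positivity
  obtain ⟨i, hi⟩ := h (v - (T : ℂ) * d)
  have e1 : w - (v - (T : ℂ) * d) = ((1 + T : ℝ) : ℂ) * d := by
    rw [hdd]; push_cast; ring
  have e2 : z i - (v - (T : ℂ) * d) = (z i - v) + (T : ℂ) * d := by ring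
  rw [e1, e2] at hi
  have h1 : ‖((1 + T : ℝ) : ℂ) * d‖ ^ 2 = (1 + T) ^ 2 * ‖d‖ ^ 2 := by
    rw [norm_mul, Complex.norm_real, mul_pow, Real.norm_eq_abs, sq_abs]
  have h2 : ‖(z i - v) + (T : ℂ) * d‖ ^ 2 = ‖z i - v‖ ^ 2 + 2 * T * inner ℝ d (z i - v)
      + T ^ 2 * ‖d‖ ^ 2 := by
    rw [← Complex.normSq_eq_norm_sq, ← Complex.normSq_eq_norm_sq, ← Complex.normSq_eq_norm_sq,
      Complex.normSq_add]
    have : inner ℝ d (z i - v) = (conj d * (z i - v)).re := by
      rw [Complex.inner]; ring_nf
    rw [this]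
    simp only [Complex.normSq_mul, Complex.normSq_ofReal, map_mul, Complex.conj_ofReal,
      Complex.mul_re, Complex.mul_im, Complex.conj_re, Complex.conj_im, Complex.ofReal_re,
      Complex.ofReal_im]
    ring
  have h3 : inner ℝ d (z i - v) ≤ 0 :=
    hinner (z i) (subset_convexHull ℝ _ (Set.mem_range_self i))
  have h4 : ‖((1 + T : ℝ) : ℂ) * d‖ ^ 2 ≤ ‖(z i - v) + (T : ℂ) * d‖ ^ 2 :=
    (sq_le_sq₀ (norm_nonneg _) (norm_nonneg _)).2 hi
  rw [h1, h2] at h4
  have h5 : ‖z i - v‖ ^ 2 ≤ Bd :=
    Finset.single_le_sum (f := fun i => ‖z i - v‖ ^ 2) (fun i _ => sq_nonneg _)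
      (Finset.mem_univ i)
  have h6 : T * ‖d‖ ^ 2 = Bd := by rw [hT]; field_simp
  have h7 : 2 * T * inner ℝ d (z i - v) ≤ 0 :=
    mul_nonpos_of_nonneg_of_nonpos (by positivity) h3
  nlinarith

variable {n : Type*} [Fintype n] [DecidableEq n]

/-- The disc form of the determinantal conjecture for eigenvalues `a` of `A`. -/
def DiscProp (a : n → ℂ) : Prop :=
  ∀ (b : n → ℂ) (c : ℂ) (U : Matrix n n ℂ), U ∈ unitaryGroup n ℂ →
    ∃ σ : Equiv.Perm n, ‖(U * diagonal a * star U + diagonal b).det - c‖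
      ≤ ‖∏ i, (a i + b (σ i)) - c‖

theorem discProp_real (lam : n → ℝ) : DiscProp (fun i => (lam i : ℂ)) :=
  fun b c U hU => disc_herm lam c U hU b

theorem unitary_conj_mul (U : Matrix n n ℂ) (hU : U ∈ unitaryGroup n ℂ) (x y : n → ℂ) :
    U * diagonal x * star U * (U * diagonal y * star U)
      = U * diagonal (fun i => x i * y i) * star U := by
  have h : star U * U = 1 := mem_unitaryGroup_iff'.1 hU
  calc U * diagonal x * star U * (U * diagonal y * star U)
      = U * diagonal x * (star U * U) * diagonal y * star U := by simp only [Matrix.mul_assoc]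
    _ = U * diagonal (fun i => x i * y i) * star U := by
        rw [h, Matrix.mul_one, Matrix.mul_assoc U, diagonal_mul_diagonal]

theorem unitary_conj_affine (U : Matrix n n ℂ) (hU : U ∈ unitaryGroup n ℂ) (x : n → ℂ) (p q : ℂ) :
    U * diagonal (fun i => p * x i + q) * star U
      = p • (U * diagonal x * star U) + q • (1 : Matrix n n ℂ) := by
  have h : U * star U = 1 := mem_unitaryGroup_iff.1 hU
  have e : diagonal (fun i => p * x i + q) = p • diagonal x + q • (1 : Matrix n n ℂ) := by
    rw [smul_one_eq_diagonal, ← diagonal_smul, diagonal_add]; rfl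
  rw [e, Matrix.mul_add, Matrix.add_mul, mul_smul_comm, mul_smul_comm, smul_mul_assoc,
    smul_mul_assoc, Matrix.mul_one, h]

theorem det_unitary_conj (U : Matrix n n ℂ) (hU : U ∈ unitaryGroup n ℂ) (x : n → ℂ) :
    (U * diagonal x * star U).det = ∏ i, x i := by
  have h : star U * U = 1 := mem_unitaryGroup_iff'.1 hU
  rw [Matrix.mul_assoc, Matrix.det_mul_comm, Matrix.mul_assoc, h, Matrix.mul_one, det_diagonal]

/-- Möbius invariance. -/
theorem DiscProp.mobius {a : n → ℂ} (ha : DiscProp a) (α β γ δ : ℂ) (hdet : α * δ - β * γ ≠ 0)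
    (hne : ∀ i, γ * a i + δ ≠ 0) :
    DiscProp (fun i => (α * a i + β) / (γ * a i + δ)) := by
  -- the generic case
  have hgen : ∀ (b : n → ℂ) (c : ℂ) (U : Matrix n n ℂ), U ∈ unitaryGroup n ℂ →
      (∀ j, α + γ * b j ≠ 0) →
      ∃ σ : Equiv.Perm n, ‖(U * diagonal (fun i => (α * a i + β) / (γ * a i + δ)) * star U
        + diagonal b).det - c‖ ≤ ‖∏ i, ((α * a i + β) / (γ * a i + δ) + b (σ i)) - c‖ := by
    intro b c U hU hb
    set b' : n → ℂ := fun j => (β + δ * b j) / (α + γ * b j) with hb'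
    set κ : ℂ := (∏ j, (α + γ * b j)) / ∏ i, (γ * a i + δ) with hκ
    have hP1 : (∏ j, (α + γ * b j)) ≠ 0 := Finset.prod_ne_zero_iff.2 fun j _ => hb j
    have hP2 : (∏ i, (γ * a i + δ)) ≠ 0 := Finset.prod_ne_zero_iff.2 fun j _ => hne j
    have hκ0 : κ ≠ 0 := div_ne_zero hP1 hP2
    have hdetκ : (U * diagonal (fun i => (α * a i + β) / (γ * a i + δ)) * star U
        + diagonal b).det = κ * (U * diagonal a * star U + diagonal b').det := by
      have hD : (U * diagonal (fun i => γ * a i + δ) * star U).det = ∏ i, (γ * a i + δ) :=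
        det_unitary_conj U hU _
      have e1 : (U * diagonal (fun i => (α * a i + β) / (γ * a i + δ)) * star U + diagonal b)
          * (U * diagonal (fun i => γ * a i + δ) * star U)
          = diagonal (fun j => α + γ * b j) * (U * diagonal a * star U + diagonal b') := by
        rw [Matrix.add_mul, unitary_conj_mul U hU]
        have e2 : (fun i => (α * a i + β) / (γ * a i + δ) * (γ * a i + δ))
            = fun i => α * a i + β := by
          ext i; exact div_mul_cancel₀ _ (hne i)
        rw [e2, unitary_conj_affine U hU, unitary_conj_affine U hU]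
        have e3 : diagonal (fun j => α + γ * b j) * diagonal b'
            = β • (1 : Matrix n n ℂ) + δ • diagonal b := by
          rw [diagonal_mul_diagonal, smul_one_eq_diagonal, ← diagonal_smul, diagonal_add]
          congr 1
          ext j
          simp only [hb', Pi.smul_apply, smul_eq_mul]
          rw [mul_div_cancel₀ _ (hb j)]
        have e4 : diagonal (fun j => α + γ * b j)
            = α • (1 : Matrix n n ℂ) + γ • diagonal b := by
          rw [smul_one_eq_diagonal, ← diagonal_smul, diagonal_add]; rfl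
        rw [Matrix.mul_add (diagonal fun j => α + γ * b j), e3, e4, Matrix.add_mul,
          Matrix.mul_add, smul_mul_assoc, Matrix.one_mul, smul_mul_assoc, mul_smul_comm,
          mul_smul_comm, Matrix.mul_one]
        abel
      have e5 := congrArg Matrix.det e1
      rw [Matrix.det_mul, hD, Matrix.det_mul, det_diagonal] at e5
      rw [hκ, div_mul_eq_mul_div, eq_div_iff hP2, e5]
    have hprod : ∀ σ : Equiv.Perm n, ∏ i, ((α * a i + β) / (γ * a i + δ) + b (σ i))
        = κ * ∏ i, (a i + b' (σ i)) := by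
      intro σ
      have e1 : ∀ i, (α * a i + β) / (γ * a i + δ) + b (σ i)
          = (α + γ * b (σ i)) / (γ * a i + δ) * (a i + b' (σ i)) := by
        intro i
        have h1 := hne i
        have h2 : (α + γ * b (σ i)) * b' (σ i) = β + δ * b (σ i) := by
          simp only [hb']
          rw [mul_div_cancel₀ _ (hb (σ i))]
        rw [div_add' _ _ _ h1, div_mul_eq_mul_div]
        congr 1
        linear_combination -h2
      rw [Finset.prod_congr rfl (fun i _ => e1 i), Finset.prod_mul_distrib,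
        Finset.prod_div_distrib, Equiv.prod_comp σ (fun j => α + γ * b j)]
    obtain ⟨σ, hσ⟩ := ha b' (c / κ) U hU
    refine ⟨σ, ?_⟩
    rw [hdetκ, hprod]
    have e : ∀ x : ℂ, κ * x - c = κ * (x - c / κ) := by intro x; field_simp
    rw [e, e, norm_mul, norm_mul]
    exact mul_le_mul_of_nonneg_left hσ (norm_nonneg _)
  -- the general case
  intro b c U hU
  by_contra hcon
  push Not at hcon
  have hcw : Continuous fun t : ℝ => (fun j => b j + (t : ℂ) : n → ℂ) := by fun_prop
  have h1 : ∀ᶠ t : ℝ in 𝓝 0, ∀ σ : Equiv.Perm n,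
      ‖∏ i, ((α * a i + β) / (γ * a i + δ) + (b (σ i) + (t : ℂ))) - c‖
      < ‖(U * diagonal (fun i => (α * a i + β) / (γ * a i + δ)) * star U
        + diagonal (fun j => b j + (t : ℂ))).det - c‖ := by
    rw [Filter.eventually_all]
    intro σ
    have c1 : Continuous fun t : ℝ =>
        ‖∏ i, ((α * a i + β) / (γ * a i + δ) + (b (σ i) + (t : ℂ))) - c‖ := by fun_prop
    have c2 : Continuous fun t : ℝ =>
        ‖(U * diagonal (fun i => (α * a i + β) / (γ * a i + δ)) * star U
          + diagonal (fun j => b j + (t : ℂ))).det - c‖ := by fun_prop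
    refine c1.continuousAt.eventually_lt c2.continuousAt ?_
    simpa using hcon σ
  have h2 : ∀ᶠ t : ℝ in 𝓝[≠] 0, ∀ j, α + γ * (b j + (t : ℂ)) ≠ 0 := by
    rw [Filter.eventually_all]
    intro j
    by_cases hγ : γ = 0
    · refine Eventually.of_forall fun t => ?_
      rw [hγ, zero_mul, add_zero]
      rintro rfl
      rw [hγ] at hdet
      simp at hdet
    · filter_upwards [eventually_affine_ne (a := α + γ * b j) hγ] with t ht h
      apply ht
      linear_combination h
  have h1' : ∀ᶠ t : ℝ in 𝓝[≠] 0, ∀ σ : Equiv.Perm n,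
      ‖∏ i, ((α * a i + β) / (γ * a i + δ) + (b (σ i) + (t : ℂ))) - c‖
      < ‖(U * diagonal (fun i => (α * a i + β) / (γ * a i + δ)) * star U
        + diagonal (fun j => b j + (t : ℂ))).det - c‖ := nhdsWithin_le_nhds h1
  obtain ⟨t, ht1, ht2⟩ := (h1'.and h2).exists
  obtain ⟨σ, hσ⟩ := hgen (fun j => b j + (t : ℂ)) c U hU ht2
  exact absurd (ht1 σ) (not_lt.2 hσ)

theorem discProp_const (p : ℂ) : DiscProp (fun _ : n => p) := by
  have h := (discProp_real (n := n) (fun _ => 0)).mobius 1 p 0 1 (by simp) (by simp)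
  simpa using h

theorem discProp_line (p v : ℂ) (r : n → ℝ) : DiscProp (fun i => (r i : ℂ) * v + p) := by
  by_cases hv : v = 0
  · subst hv
    simpa using discProp_const (n := n) p
  · have h := (discProp_real r).mobius v p 0 1 (by simpa using hv) (by simp)
    simpa [mul_comm v] using h

theorem discProp_of_collinear (a : n → ℂ) (h : Collinear ℝ (Set.range a)) : DiscProp a := by
  rw [collinear_iff_exists_forall_eq_smul_vadd] at h
  obtain ⟨p, v, h⟩ := h
  choose r hr using fun i => h (a i) (Set.mem_range_self i)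
  have : a = fun i => (r i : ℂ) * v + p := by
    ext i
    rw [hr i]
    simp
  rw [this]
  exact discProp_line p v r

theorem exists_omega (u : n → ℂ) : ∃ ω : ℂ, ‖ω‖ = 1 ∧ ∀ i, u i ≠ ω := by
  set f : ℕ → ℂ := fun m => ((m : ℂ) - I) / ((m : ℂ) + I) with hf
  have hne : ∀ m : ℕ, (m : ℂ) + I ≠ 0 := by
    intro m h
    have := congrArg Complex.im h
    simp at this
  have hinj : Function.Injective f := by
    intro m k h
    simp only [hf] at h
    rw [div_eq_div_iff (hne m) (hne k)] at h
    have h2 : (2 * I) * ((m : ℂ) - k) = 0 := by linear_combination h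
    have h3 := (mul_eq_zero.1 h2).resolve_left (by simp)
    exact_mod_cast sub_eq_zero.1 h3
  have hex : ∃ m, f m ∉ Set.range u := by
    by_contra hcon
    push Not at hcon
    exact Set.infinite_range_of_injective hinj
      ((Set.finite_range u).subset (Set.range_subset_iff.2 hcon))
  obtain ⟨m, hm⟩ := hex
  refine ⟨f m, ?_, fun i h => hm ⟨i, h⟩⟩
  have h1 : ‖(m : ℂ) - I‖ = ‖(m : ℂ) + I‖ := by
    have : (m : ℂ) - I = conj ((m : ℂ) + I) := by simp [sub_eq_add_neg]
    rw [this, Complex.norm_conj]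
  simp only [hf]
  rw [norm_div, h1, div_self (norm_ne_zero_iff.2 (hne m))]

theorem cayley_real (v : ℂ) (hv : ‖v‖ = 1) (hv1 : v ≠ 1) :
    ∃ r : ℝ, (r : ℂ) + I ≠ 0 ∧ v = ((r : ℂ) - I) / ((r : ℂ) + I) := by
  have h1 : (1 : ℂ) - v ≠ 0 := sub_ne_zero.2 (Ne.symm hv1)
  have him : (I * (1 + v) / (1 - v)).im = 0 := by
    have hn : v.re * v.re + v.im * v.im = 1 := by
      have : Complex.normSq v = 1 := by rw [Complex.normSq_eq_norm_sq, hv]; norm_num
      rwa [Complex.normSq_apply] at this
    have hne : Complex.normSq (1 - v) ≠ 0 := by rwa [Ne, Complex.normSq_eq_zero]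
    rw [Complex.div_im]
    simp only [Complex.mul_re, Complex.mul_im, Complex.I_re, Complex.I_im, Complex.add_re,
      Complex.add_im, Complex.one_re, Complex.one_im, Complex.sub_re, Complex.sub_im]
    rw [← sub_div, div_eq_zero_iff]
    left
    linear_combination -hn
  set r : ℝ := (I * (1 + v) / (1 - v)).re with hr
  have hrc : (r : ℂ) = I * (1 + v) / (1 - v) := by
    apply Complex.ext
    · simp [hr]
    · rw [Complex.ofReal_im, him]
  have e1 : (r : ℂ) + I = 2 * I / (1 - v) := by rw [hrc]; field_simp; ring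
  have e2 : (r : ℂ) - I = 2 * I * v / (1 - v) := by rw [hrc]; field_simp; ring
  have e3 : (r : ℂ) + I ≠ 0 := by
    rw [e1]
    exact div_ne_zero (by simp) h1
  refine ⟨r, e3, ?_⟩
  rw [eq_div_iff e3, e1, e2]
  ring

theorem discProp_of_cospherical (a : n → ℂ) (h : EuclideanGeometry.Cospherical (Set.range a)) :
    DiscProp a := by
  obtain ⟨p, ρ, h⟩ := h
  have hρ : ∀ i, ‖a i - p‖ = ρ := fun i => by
    rw [← dist_eq_norm]; exact h (a i) (Set.mem_range_self i)
  rcases isEmpty_or_nonempty n with hn | ⟨⟨i0⟩⟩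
  · have : a = fun _ => p := funext fun i => hn.elim i
    rw [this]; exact discProp_const p
  by_cases hρ0 : ρ = 0
  · have : a = fun _ => p := by
      ext i
      have := hρ i
      rw [hρ0, norm_eq_zero, sub_eq_zero] at this
      exact this
    rw [this]; exact discProp_const p
  have hρn : 0 ≤ ρ := by rw [← hρ i0]; exact norm_nonneg _
  have hρp : 0 < ρ := lt_of_le_of_ne hρn (Ne.symm hρ0)
  have hρc : (ρ : ℂ) ≠ 0 := by exact_mod_cast hρ0
  -- a point of the circle which is not an eigenvalue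
  obtain ⟨ω, hω, hne⟩ := exists_omega (fun i => (a i - p) / ρ)
  have hω0 : ω ≠ 0 := by
    rintro rfl
    simp at hω
  have hv : ∀ i, ∃ r : ℝ, (r : ℂ) + I ≠ 0 ∧
      (a i - p) / (ρ * ω) = ((r : ℂ) - I) / ((r : ℂ) + I) := by
    intro i
    apply cayley_real
    · rw [norm_div, hρ i, norm_mul, hω, mul_one, Complex.norm_real, Real.norm_eq_abs,
        abs_of_pos hρp, div_self hρ0]
    · intro h1
      apply hne i
      rw [div_eq_iff (mul_ne_zero hρc hω0), one_mul] at h1
      rw [h1]
      field_simp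
  choose r hr0 hr using hv
  have ha : a = fun i => ((p + ρ * ω) * (r i : ℂ) + I * (p - ρ * ω)) / (1 * (r i : ℂ) + I) := by
    ext i
    rw [one_mul, eq_div_iff (hr0 i)]
    have h1 := hr i
    rw [div_eq_div_iff (mul_ne_zero hρc hω0) (hr0 i)] at h1
    linear_combination h1
  rw [ha]
  refine (discProp_real r).mobius _ _ _ _ ?_ (fun i => by rw [one_mul]; exact hr0 i)
  have : (p + ρ * ω) * I - I * (p - ρ * ω) * 1 = 2 * I * (ρ * ω) := by ring
  rw [this]
  exact mul_ne_zero (by simp) (mul_ne_zero hρc hω0)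

/-- The determinantal conjecture from the disc property. -/
theorem DiscProp.hull {d1 : n → ℂ} (h : DiscProp d1) (d2 : n → ℂ)
    (U1 U2 : unitary (Matrix n n ℂ)) :
    ((U1 : Matrix n n ℂ) * diagonal d1 * star (U1 : Matrix n n ℂ)
      + (U2 : Matrix n n ℂ) * diagonal d2 * star (U2 : Matrix n n ℂ)).det
      ∈ convexHull ℝ { ∏ i, (d1 i + d2 (σ i)) | σ : Equiv.Perm n } := by
  have e : ((U1 : Matrix n n ℂ) * diagonal d1 * star (U1 : Matrix n n ℂ)
      + (U2 : Matrix n n ℂ) * diagonal d2 * star (U2 : Matrix n n ℂ)).det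
      = ((star (U2 : Matrix n n ℂ) * U1) * diagonal d1 * star (star (U2 : Matrix n n ℂ) * U1)
        + diagonal d2).det := by
    have h2 : star (U2 : Matrix n n ℂ) * (U2 : Matrix n n ℂ) = 1 :=
      Unitary.star_mul_self_of_mem U2.2
    have h3 : (U2 : Matrix n n ℂ) * star (U2 : Matrix n n ℂ) = 1 :=
      Unitary.mul_star_self_of_mem U2.2
    have e1 : (U1 : Matrix n n ℂ) * diagonal d1 * star (U1 : Matrix n n ℂ)
      + (U2 : Matrix n n ℂ) * diagonal d2 * star (U2 : Matrix n n ℂ)
      = (U2 : Matrix n n ℂ) * ((star (U2 : Matrix n n ℂ) * U1) * diagonal d1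
        * star (star (U2 : Matrix n n ℂ) * U1) + diagonal d2) * star (U2 : Matrix n n ℂ) := by
      rw [star_mul, star_star, Matrix.mul_add, Matrix.add_mul]
      congr 1
      calc (U1 : Matrix n n ℂ) * diagonal d1 * star (U1 : Matrix n n ℂ)
          = ((U2 : Matrix n n ℂ) * star (U2 : Matrix n n ℂ)) * ((U1 : Matrix n n ℂ) * diagonal d1
            * star (U1 : Matrix n n ℂ)) * ((U2 : Matrix n n ℂ) * star (U2 : Matrix n n ℂ)) := by
            rw [h3, Matrix.one_mul, Matrix.mul_one]
        _ = _ := by simp only [Matrix.mul_assoc]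
    rw [e1, Matrix.mul_assoc, Matrix.det_mul_comm, Matrix.mul_assoc, h2, Matrix.mul_one]
  rw [e]
  have hU : star (U2 : Matrix n n ℂ) * (U1 : Matrix n n ℂ) ∈ unitaryGroup n ℂ :=
    mul_mem (Unitary.star_mem U2.2) U1.2
  exact mem_hull_of_disc (fun σ : Equiv.Perm n => ∏ i, (d1 i + d2 (σ i))) _
    (fun c => h d2 c _ hU)

theorem DiscProp.hull' {d2 : n → ℂ} (h : DiscProp d2) (d1 : n → ℂ)
    (U1 U2 : unitary (Matrix n n ℂ)) :
    ((U1 : Matrix n n ℂ) * diagonal d1 * star (U1 : Matrix n n ℂ)
      + (U2 : Matrix n n ℂ) * diagonal d2 * star (U2 : Matrix n n ℂ)).det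
      ∈ convexHull ℝ { ∏ i, (d1 i + d2 (σ i)) | σ : Equiv.Perm n } := by
  have h1 := h.hull d1 U2 U1
  rw [add_comm] at h1
  convert h1 using 2
  ext x
  constructor
  · rintro ⟨σ, rfl⟩
    refine ⟨σ.symm, ?_⟩
    rw [← Equiv.prod_comp σ]
    refine Finset.prod_congr rfl fun i _ => ?_
    rw [Equiv.symm_apply_apply, add_comm]
  · rintro ⟨σ, rfl⟩
    refine ⟨σ.symm, ?_⟩
    rw [← Equiv.prod_comp σ]
    refine Finset.prod_congr rfl fun i _ => ?_
    rw [Equiv.symm_apply_apply, add_comm]

theorem three_points (x y z : ℂ) :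
    Collinear ℝ ({x, y, z} : Set ℂ) ∨ EuclideanGeometry.Cospherical ({x, y, z} : Set ℂ) := by
  by_cases h : Collinear ℝ ({x, y, z} : Set ℂ)
  · exact Or.inl h
  · right
    rw [← affineIndependent_iff_not_collinear_set] at h
    obtain ⟨s, ⟨_, hs⟩, _⟩ := h.existsUnique_dist_eq
    refine ⟨s.center, s.radius, fun p hp => ?_⟩
    have hr : Set.range ![x, y, z] = {x, y, z} := by
      ext q
      simp only [Matrix.range_cons, Matrix.range_empty, Set.mem_union, Set.mem_singleton_iff,
        Set.mem_insert_iff, Set.mem_empty_iff_false, or_false]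
    have := hs (hr ▸ hp)
    exact this

/-- The disc property holds when there are at most three different eigenvalues. -/
theorem discProp_of_ncard (a : n → ℂ) (h : (Set.range a).ncard ≤ 3) : DiscProp a := by
  have hsub : ∃ x y z : ℂ, Set.range a ⊆ {x, y, z} := by
    have hfin := Set.finite_range a
    have hcard : hfin.toFinset.card ≤ 3 := by
      rw [Set.ncard_eq_toFinset_card _ hfin] at h; exact h
    obtain ⟨t, ht, hc⟩ := Infinite.exists_superset_card_eq hfin.toFinset 3 hcard
    obtain ⟨x, y, z, _, _, _, rfl⟩ := Finset.card_eq_three.1 hc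
    refine ⟨x, y, z, fun p hp => ?_⟩
    have := ht (hfin.mem_toFinset.2 hp)
    simpa using this
  obtain ⟨x, y, z, hsub⟩ := hsub
  rcases three_points x y z with h1 | h1
  · exact discProp_of_collinear a (h1.subset hsub)
  · exact discProp_of_cospherical a (h1.subset hsub)

end Pool.Agent.Helper54.OMC
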