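import Pool.Agent.Helper21.LR.Stmts

/-!
MP_6358c9_nt (Laurent-Roy), module LR-CNT: Dirichlet, restriction, monotonicity.
-/

open MvPolynomial
open Pool.Agent.Helper21.LR

namespace Pool.Agent.Helper54.LRCnt

/-- the set of functions of level `X` -/
def S {m : ℕ} (ξ : Fin m → ℂ) (X : ℕ) : Set ℂ :=
  {g : ℂ | ∃ Q G, Rep ξ X Q G ∧ len G ≤ Real.exp X ∧ g = aeval ξ Q}

theorem cnt_eq {m : ℕ} (ξ : Fin m → ℂ) (X : ℕ) : cnt ξ X = Real.log (S ξ X).ncard := rfl

theorem len_C {ι : Type*} (c : ℂ) : len (C c : MvPolynomial ι ℂ) ≤ ‖c‖ := by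
  classical
  unfold len
  have hs : (C c : MvPolynomial ι ℂ).support ⊆ {0} := by
    intro α hα
    rw [mem_support_iff, coeff_C] at hα
    by_contra h
    apply hα
    rw [if_neg]
    intro h0
    exact h (by simp [← h0])
  calc ∑ α ∈ (C c : MvPolynomial ι ℂ).support, ‖(C c : MvPolynomial ι ℂ).coeff α‖
      ≤ ∑ α ∈ {0}, ‖(C c : MvPolynomial ι ℂ).coeff α‖ :=
        Finset.sum_le_sum_of_subset_of_nonneg hs (fun _ _ _ => norm_nonneg _)
    _ = ‖c‖ := by simp

theorem len_eq {ι : Type*} (G : MvPolynomial ι ℂ) (s : Finset (ι →₀ ℕ)) (h : G.support ⊆ s) :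
    len G = ∑ α ∈ s, ‖G.coeff α‖ := by
  unfold len
  apply Finset.sum_subset h
  intro α _ hα
  rw [notMem_support_iff] at hα
  simp [hα]

theorem len_sub {ι : Type*} (G H : MvPolynomial ι ℂ) : len (G - H) ≤ len G + len H := by
  classical
  rw [len_eq G (G.support ∪ H.support) Finset.subset_union_left,
    len_eq H (G.support ∪ H.support) Finset.subset_union_right,
    len_eq (G - H) (G.support ∪ H.support) (support_sub (ι) G H), ← Finset.sum_add_distrib]
  apply Finset.sum_le_sum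
  intro α _
  rw [coeff_sub]
  exact norm_sub_le _ _

theorem two_exp_le (X : ℕ) : Real.exp X + Real.exp X ≤ Real.exp ((X+1 : ℕ) : ℝ) := by
  have h : (2 : ℝ) ≤ Real.exp 1 := by
    have := Real.add_one_le_exp (1 : ℝ)
    linarith
  have := Real.exp_pos (X : ℝ)
  push_cast
  rw [Real.exp_add]
  nlinarith

theorem Rep.mono {m : ℕ} {ξ : Fin m → ℂ} {N N' : ℕ} {Q : MvPolynomial (Fin m) ℤ}
    {G : MvPolynomial (Fin m) ℂ} (h : Rep ξ N Q G) (hN : N ≤ N') : Rep ξ N' Q G :=
  ⟨h.1.trans hN, h.2.1.trans hN, h.2.2⟩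

theorem Rep.sub {m : ℕ} {ξ : Fin m → ℂ} {N : ℕ} {Q Q' : MvPolynomial (Fin m) ℤ}
    {G G' : MvPolynomial (Fin m) ℂ} (h : Rep ξ N Q G) (h' : Rep ξ N Q' G') :
    Rep ξ N (Q - Q') (G - G') := by
  refine ⟨(totalDegree_sub _ _).trans (max_le h.1 h'.1),
    (totalDegree_sub _ _).trans (max_le h.2.1 h'.2.1), ?_⟩
  intro p hp
  rw [map_sub, map_sub, h.2.2 p hp, h'.2.2 p hp]

theorem Rep.restrict {m : ℕ} {ξ η : Fin m → ℂ} {N : ℕ} {Q : MvPolynomial (Fin m) ℤ}
    {G : MvPolynomial (Fin m) ℂ} (h : Rep ξ N Q G) (hη : OnV ξ η) : Rep η N Q G :=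
  ⟨h.1, h.2.1, fun p hp => h.2.2 p (fun Q hQ => hp Q (hη Q hQ))⟩

theorem Rep.intC {m : ℕ} (ξ : Fin m → ℂ) (N : ℕ) (n : ℤ) :
    Rep ξ N (C n) (C (n : ℂ)) := by
  refine ⟨by rw [totalDegree_C]; exact Nat.zero_le _, by rw [totalDegree_C]; exact Nat.zero_le _, ?_⟩
  intro p _
  rw [aeval_C, eval_C]
  simp

theorem intC_mem {m : ℕ} (ξ : Fin m → ℂ) (X : ℕ) (n : ℤ) (hn : |n| ≤ 1) : (n : ℂ) ∈ S ξ X := by
  refine ⟨C n, C (n : ℂ), Rep.intC ξ X n, ?_, by simp⟩
  refine (len_C _).trans ?_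
  have h1 : ‖(n : ℂ)‖ ≤ 1 := by
    rw [Complex.norm_intCast]
    exact_mod_cast hn
  exact h1.trans (Real.one_le_exp (by positivity))

theorem three_le {m : ℕ} (ξ : Fin m → ℂ) (X : ℕ) (hfin : (S ξ X).Finite) :
    3 ≤ (S ξ X).ncard := by
  have hsub : (((({0, 1, -1} : Finset ℤ).image (fun n : ℤ => (n : ℂ)) : Finset ℂ)) : Set ℂ) ⊆ S ξ X := by
    intro z hz
    simp only [Finset.coe_image, Set.mem_image, Finset.mem_coe] at hz
    obtain ⟨n, hn, rfl⟩ := hz
    apply intC_mem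
    fin_cases hn <;> simp
  have h := Set.ncard_le_ncard hsub hfin
  rw [Set.ncard_coe_finset, Finset.card_image_of_injective _ Int.cast_injective] at h
  simpa using h

theorem fin (hU : SUpper) {m r : ℕ} {ξ : Fin m → ℂ}
    {F : MvPolynomial (Fin (r+1) × Fin (m+1)) ℤ} (hF : IsVar r ξ F) (X : ℕ) (hX : 1 ≤ X) :
    (S ξ X).Finite := by
  obtain ⟨C, _, h⟩ := hU m
  exact (h r ξ F hF X hX).1

theorem S_mono {m : ℕ} (ξ : Fin m → ℂ) {X Y : ℕ} (h : X ≤ Y) : S ξ X ⊆ S ξ Y := by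
  rintro g ⟨Q, G, hR, hl, rfl⟩
  exact ⟨Q, G, Rep.mono hR h, hl.trans (Real.exp_le_exp.2 (by exact_mod_cast h)), rfl⟩

theorem cntBasic (hU : SUpper) : SCnt := by
  intro m r ξ F hF
  constructor
  · intro X Y hX hXY
    rw [cnt_eq, cnt_eq]
    have h3 := three_le ξ X (fin hU hF X hX)
    apply Real.log_le_log
    · exact_mod_cast (by omega : 0 < (S ξ X).ncard)
    · exact_mod_cast Set.ncard_le_ncard (S_mono ξ hXY) (fin hU hF Y (hX.trans hXY))
  · intro X hX
    rw [cnt_eq]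
    have h3 := three_le ξ X (fin hU hF X hX)
    have h3' : (3 : ℝ) ≤ (S ξ X).ncard := by exact_mod_cast h3
    rw [Real.le_log_iff_exp_le (by linarith)]
    have := Real.exp_one_lt_d9
    linarith

theorem inj (hU : SUpper) : SInj := by
  classical
  intro m r r' ξ η F F' hF hF' hξη X hX hv
  have key : ∀ g : ℂ, g ∈ S ξ X → ∃ (Q : MvPolynomial (Fin m) ℤ) (G : MvPolynomial (Fin m) ℂ),
    Rep ξ X Q G ∧ len G ≤ Real.exp X ∧ g = aeval ξ Q := fun g hg => hg
  choose! Q G hR hl he using key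
  rw [cnt_eq, cnt_eq]
  have h3 := three_le ξ X (fin hU hF X hX)
  apply Real.log_le_log
  · exact_mod_cast (by omega : 0 < (S ξ X).ncard)
  have hle : (S ξ X).ncard ≤ (S η X).ncard := by
    apply Set.ncard_le_ncard_of_injOn (fun g => aeval η (Q g)) _ _ (fin hU hF' X hX)
    · intro g hg
      exact ⟨Q g, G g, Rep.restrict (hR g hg) hξη, hl g hg, rfl⟩
    · intro g hg g' hg' hgg'
      by_contra hne
      have h0 : aeval ξ (Q g - Q g') ≠ 0 := by
        rw [map_sub, ← he g hg, ← he g' hg']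
        exact sub_ne_zero.2 hne
      have := hv (Q g - Q g') (G g - G g')
        (Rep.mono (Rep.sub (hR g hg) (hR g' hg')) (Nat.le_succ X))
        ((len_sub _ _).trans ((add_le_add (hl g hg) (hl g' hg')).trans (two_exp_le X))) h0
      apply this
      rw [map_sub]
      exact sub_eq_zero.2 hgg'
  exact_mod_cast hle

theorem eval_bound {m : ℕ} (θ : Fin m → ℂ) (M : ℝ) (hM1 : 1 ≤ M) (hM : ‖θ‖ ≤ M)
    (G : MvPolynomial (Fin m) ℂ) (X : ℕ) (hG : G.totalDegree ≤ X) :
    ‖eval θ G‖ ≤ len G * M ^ X := by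
  rw [eval_eq']
  refine (norm_sum_le _ _).trans ?_
  rw [len, Finset.sum_mul]
  apply Finset.sum_le_sum
  intro α hα
  rw [norm_mul]
  apply mul_le_mul_of_nonneg_left _ (norm_nonneg _)
  rw [norm_prod]
  calc ∏ i, ‖θ i ^ α i‖ ≤ ∏ i, M ^ α i := by
        apply Finset.prod_le_prod
        · intro i _
          exact norm_nonneg _
        · intro i _
          rw [norm_pow]
          exact pow_le_pow_left₀ (norm_nonneg _) ((norm_le_pi_norm θ i).trans hM) _
    _ = M ^ (∑ i, α i) := by rw [Finset.prod_pow_eq_pow_sum]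
    _ ≤ M ^ X := by
        apply pow_le_pow_right₀ hM1
        refine le_trans ?_ hG
        refine le_trans (le_of_eq ?_) (le_totalDegree hα)
        rw [Finsupp.sum_fintype]
        simp

/-- pigeonhole in a square -/
theorem pigeon {ι : Type*} (A : Finset ι) (f : ι → ℂ) (ρ : ℝ) (hρ : 0 < ρ)
    (hf : ∀ i ∈ A, ‖f i‖ ≤ ρ) (k : ℕ) (hk : 1 ≤ k) (hA : (k+1) * (k+1) < A.card) :
    ∃ i ∈ A, ∃ j ∈ A, i ≠ j ∧ ‖f i - f j‖ ≤ 4 * ρ / k := by
  classical
  have hk0 : (0 : ℝ) < k := by exact_mod_cast hk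
  set φ : ℝ → ℕ := fun x => ⌊(x + ρ) * (k / (2 * ρ))⌋₊ with hφ
  have hφ1 : ∀ x, |x| ≤ ρ → φ x < k + 1 := by
    intro x hx
    rw [abs_le] at hx
    rw [Nat.lt_succ_iff]
    apply Nat.floor_le_of_le
    calc (x + ρ) * (k / (2 * ρ)) ≤ (2 * ρ) * (k / (2 * ρ)) := by
          apply mul_le_mul_of_nonneg_right (by linarith) (by positivity)
      _ = k := by field_simp
  have hφ2 : ∀ x y, |x| ≤ ρ → |y| ≤ ρ → φ x = φ y → |x - y| ≤ 2 * ρ / k := by
    intro x y hx hy hxy
    rw [abs_le] at hx hy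
    have hx0 : 0 ≤ (x + ρ) * (k / (2 * ρ)) := mul_nonneg (by linarith) (by positivity)
    have hy0 : 0 ≤ (y + ρ) * (k / (2 * ρ)) := mul_nonneg (by linarith) (by positivity)
    have h1 := Nat.floor_le hx0
    have h2 := Nat.lt_floor_add_one ((x + ρ) * (k / (2 * ρ)))
    have h3 := Nat.floor_le hy0
    have h4 := Nat.lt_floor_add_one ((y + ρ) * (k / (2 * ρ)))
    have hxy' : (⌊(x + ρ) * (k / (2 * ρ))⌋₊ : ℝ) = ⌊(y + ρ) * (k / (2 * ρ))⌋₊ := by
      exact_mod_cast hxy
    rw [hxy'] at h1 h2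
    have h5 : |(x - y) * (k / (2 * ρ))| ≤ 1 := by
      rw [abs_le]
      constructor <;> nlinarith
    rw [abs_mul, abs_of_pos (by positivity : (0 : ℝ) < k / (2 * ρ))] at h5
    rw [le_div_iff₀ hk0]
    have h6 : |x - y| * (k / (2 * ρ)) * (2 * ρ) ≤ 1 * (2 * ρ) :=
      mul_le_mul_of_nonneg_right h5 (by positivity)
    have h7 : |x - y| * (k / (2 * ρ)) * (2 * ρ) = |x - y| * k := by field_simp
    linarith
  have hcard : ((Finset.range (k+1)) ×ˢ (Finset.range (k+1))).card < A.card := by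
    rw [Finset.card_product, Finset.card_range]
    exact hA
  obtain ⟨i, hi, j, hj, hij, h⟩ := Finset.exists_ne_map_eq_of_card_lt_of_maps_to hcard
    (f := fun i => (φ (f i).re, φ (f i).im)) (by
      intro i hi
      have := hf i hi
      simp only [Finset.coe_product, Finset.coe_range, Set.mem_prod, Set.mem_Iio]
      exact ⟨hφ1 _ ((Complex.abs_re_le_norm _).trans this),
        hφ1 _ ((Complex.abs_im_le_norm _).trans this)⟩)
  refine ⟨i, hi, j, hj, hij, ?_⟩
  simp only [Prod.mk.injEq] at h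
  have h1 := hφ2 _ _ ((Complex.abs_re_le_norm _).trans (hf i hi))
    ((Complex.abs_re_le_norm _).trans (hf j hj)) h.1
  have h2 := hφ2 _ _ ((Complex.abs_im_le_norm _).trans (hf i hi))
    ((Complex.abs_im_le_norm _).trans (hf j hj)) h.2
  refine (Complex.norm_le_abs_re_add_abs_im _).trans ?_
  rw [Complex.sub_re, Complex.sub_im]
  calc |(f i).re - (f j).re| + |(f i).im - (f j).im| ≤ 2 * ρ / k + 2 * ρ / k := add_le_add h1 h2
    _ = 4 * ρ / k := by ring

theorem dir (hU : SUpper) : SDir := by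
  classical
  intro m θ
  set M : ℝ := max 1 ‖θ‖ with hM
  have hM1 : 1 ≤ M := le_max_left _ _
  have hM0 : 0 < M := by linarith
  have hlogM : 0 ≤ Real.log M := Real.log_nonneg hM1
  refine ⟨5 + Real.log M, by linarith, ?_⟩
  intro r ξ F hF X hX
  have hfin := fin hU hF X hX
  have h3 := three_le ξ X hfin
  set n := (S ξ X).ncard with hn
  have hn0 : (0 : ℝ) < n := by exact_mod_cast (by omega : 0 < n)
  have hX1 : (1 : ℝ) ≤ X := by exact_mod_cast hX
  have hexp : Real.exp (-(cnt ξ X / 2 - (5 + Real.log M) * X)) =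
      Real.exp (5 * X) * M ^ X / Real.sqrt n := by
    have h1 : -(cnt ξ X / 2 - (5 + Real.log M) * X) =
        5 * X + Real.log M * X - Real.log n / 2 := by
      rw [cnt_eq]
      ring
    have h2 : Real.exp (Real.log M * X) = M ^ X := by
      rw [Real.exp_mul, Real.exp_log hM0, Real.rpow_natCast]
    have h4 : Real.exp (Real.log n / 2) = Real.sqrt n := by
      rw [Real.exp_half, Real.exp_log hn0]
    rw [h1, Real.exp_sub, Real.exp_add, h2, h4]
  have hsq : 0 < Real.sqrt n := Real.sqrt_pos.2 hn0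
  have hMX : 1 ≤ M ^ X := one_le_pow₀ hM1
  have he2 : (2 : ℝ) ≤ Real.exp 1 := by
    have := Real.add_one_le_exp (1 : ℝ)
    linarith
  have he16 : (16 : ℝ) ≤ Real.exp (4 * X) := by
    have h1 : Real.exp 1 ^ 4 ≤ Real.exp (4 * X) := by
      rw [← Real.exp_nat_mul]
      apply Real.exp_le_exp.2
      push_cast
      linarith
    have h2 : (2 : ℝ) ^ 4 ≤ Real.exp 1 ^ 4 := pow_le_pow_left₀ (by norm_num) he2 4
    linarith
  have heX : 1 ≤ Real.exp X := Real.one_le_exp (by positivity)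
  have he5 : Real.exp (5 * X) = Real.exp (4 * X) * Real.exp X := by
    rw [← Real.exp_add]
    congr 1
    ring
  rw [hexp]
  by_cases hn16 : n ≤ 16
  · refine ⟨C 1, C ((1 : ℤ) : ℂ), Rep.intC ξ (X+1) 1, ?_, ?_, ?_⟩
    · refine (len_C _).trans ?_
      simp only [Int.cast_one, norm_one]
      exact Real.one_le_exp (by positivity)
    · simp
    · rw [eval_C, le_div_iff₀ hsq]
      simp only [Int.cast_one, norm_one, one_mul]
      have h4 : Real.sqrt n ≤ 4 := by
        rw [Real.sqrt_le_left (by norm_num)]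
        have : (n : ℝ) ≤ 16 := by exact_mod_cast hn16
        linarith
      nlinarith [mul_nonneg (Real.exp_pos (4 * (X : ℝ))).le (Real.exp_pos (X : ℝ)).le]
  · push Not at hn16
    set k := Nat.sqrt (n - 1) - 1 with hk
    have h4 : 4 ≤ Nat.sqrt (n - 1) := Nat.le_sqrt'.2 (by omega)
    have hk1 : k + 1 = Nat.sqrt (n - 1) := by omega
    have hk3 : 3 ≤ k := by omega
    have hlt : (k+1) * (k+1) < n := by
      have := Nat.sqrt_le (n - 1)
      rw [← hk1] at this
      omega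
    have hle : n ≤ (4 * k) * (4 * k) := by
      have h := Nat.lt_succ_sqrt (n - 1)
      rw [← hk1] at h
      simp only [Nat.succ_eq_add_one] at h
      have h' : n ≤ (k + 1 + 1) * (k + 1 + 1) := by omega
      nlinarith
    have hsqk : Real.sqrt n ≤ 4 * k := by
      rw [Real.sqrt_le_left (by positivity)]
      have : (n : ℝ) ≤ (4 * k) * (4 * k) := by exact_mod_cast hle
      nlinarith
    have hk0 : (0 : ℝ) < k := by exact_mod_cast (by omega : 0 < k)
    have key : ∀ g : ℂ, g ∈ S ξ X → ∃ (Q : MvPolynomial (Fin m) ℤ) (G : MvPolynomial (Fin m) ℂ),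
      Rep ξ X Q G ∧ len G ≤ Real.exp X ∧ g = aeval ξ Q := fun g hg => hg
    choose! Q G hR hl he using key
    obtain ⟨g, hg, g', hg', hne, hclose⟩ := pigeon hfin.toFinset (fun g => eval θ (G g))
      (Real.exp X * M ^ X) (by positivity) (by
        intro g hg
        rw [Set.Finite.mem_toFinset] at hg
        exact (eval_bound θ M hM1 (le_max_right _ _) (G g) X (hR g hg).2.1).trans
          (mul_le_mul_of_nonneg_right (hl g hg) (by positivity))) k (by omega) (by
        rw [← Set.ncard_eq_toFinset_card _ hfin]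
        exact hlt)
    rw [Set.Finite.mem_toFinset] at hg hg'
    refine ⟨Q g - Q g', G g - G g', Rep.mono (Rep.sub (hR g hg) (hR g' hg')) (Nat.le_succ X),
      (len_sub _ _).trans ((add_le_add (hl g hg) (hl g' hg')).trans (two_exp_le X)), ?_, ?_⟩
    · rw [map_sub, ← he g hg, ← he g' hg']
      exact sub_ne_zero.2 hne
    · rw [map_sub]
      refine hclose.trans ?_
      rw [div_le_div_iff₀ hk0 hsq, he5]
      have hpos : 0 < Real.exp X * M ^ X := by positivity
      calc 4 * (Real.exp X * M ^ X) * Real.sqrt n ≤ 4 * (Real.exp X * M ^ X) * (4 * k) :=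
            mul_le_mul_of_nonneg_left hsqk (by positivity)
        _ = 16 * ((Real.exp X * M ^ X) * k) := by ring
        _ ≤ Real.exp (4 * X) * ((Real.exp X * M ^ X) * k) :=
            mul_le_mul_of_nonneg_right he16 (by positivity)
        _ = Real.exp (4 * X) * Real.exp X * M ^ X * k := by ring

end Pool.Agent.Helper54.LRCnt
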