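import Mathlib

set_option autoImplicit false

/-!
An analytic subset of Baire space which is not Borel (diagonal argument).
-/

namespace Pool.Agent.Helper54.EndCanc

open MeasureTheory Set TopologicalSpace

/-- Evaluation `(f, n) ↦ f n` is continuous on `(ℕ → β) × ℕ`. -/
theorem continuous_eval {β : Type} [TopologicalSpace β] :
    Continuous (fun p : (ℕ → β) × ℕ => p.1 p.2) := by
  rw [continuous_prod_of_discrete_right]
  intro n
  exact continuous_apply n

theorem exists_analytic_not_borel :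
    ∃ D : Set (ℕ → ℕ), AnalyticSet D ∧ ¬ MeasurableSet D := by
  -- an enumeration of a countable basis of `(ℕ → ℕ)²`
  obtain ⟨B, hB⟩ : ∃ B : ℕ → Set ((ℕ → ℕ) × (ℕ → ℕ)),
      insert ∅ (countableBasis ((ℕ → ℕ) × (ℕ → ℕ))) = range B :=
    ((countable_countableBasis _).insert ∅).exists_eq_range (insert_nonempty _ _)
  have hBo : ∀ n, IsOpen (B n) := by
    intro n
    have : B n ∈ insert ∅ (countableBasis ((ℕ → ℕ) × (ℕ → ℕ))) := by
      rw [hB]; exact mem_range_self n
    rcases this with h | h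
    · rw [h]; exact isOpen_empty
    · exact isOpen_of_mem_countableBasis h
  -- every open set is a union of basis elements
  have hcode : ∀ O : Set ((ℕ → ℕ) × (ℕ → ℕ)), IsOpen O → ∃ x : ℕ → ℕ, O = ⋃ n, B (x n) := by
    intro O hO
    obtain ⟨S, hS, hS'⟩ := (isBasis_countableBasis ((ℕ → ℕ) × (ℕ → ℕ))).open_eq_sUnion hO
    have hcount : (insert ∅ S).Countable := ((countable_countableBasis _).mono hS).insert ∅
    obtain ⟨g, hg⟩ := hcount.exists_eq_range (insert_nonempty _ _)
    have hsub : ∀ n, ∃ k, B k = g n := by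
      intro n
      have h1 : g n ∈ insert ∅ S := by rw [hg]; exact mem_range_self n
      have h2 : g n ∈ insert ∅ (countableBasis ((ℕ → ℕ) × (ℕ → ℕ))) :=
        insert_subset_insert hS h1
      rw [hB] at h2
      exact h2
    choose x hx using hsub
    refine ⟨x, ?_⟩
    have h3 : (⋃ n, B (x n)) = ⋃₀ (insert ∅ S) := by
      rw [hg, sUnion_range]
      exact iUnion_congr hx
    rw [h3, hS', sUnion_insert, empty_union]
  let C : Set ((ℕ → ℕ) × (ℕ → ℕ)) := {p | ∀ n, p ∉ B (p.1 n)}
  have hC : IsClosed C := by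
    have h1 : C = ⋂ n, ⋂ k, ({p : (ℕ → ℕ) × (ℕ → ℕ) | p.1 n ≠ k} ∪ (B k)ᶜ) := by
      ext p
      simp only [C, mem_ofPred_eq, mem_iInter, mem_union, mem_compl_iff]
      constructor
      · intro h n k
        by_cases hk : p.1 n = k
        · right; rw [← hk]; exact h n
        · left; exact hk
      · intro h n
        rcases h n (p.1 n) with h | h
        · exact absurd rfl h
        · exact h
    rw [h1]
    refine isClosed_iInter fun n => isClosed_iInter fun k => IsClosed.union ?_ (hBo k).isClosed_compl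
    have hcont : Continuous (fun p : (ℕ → ℕ) × (ℕ → ℕ) => p.1 n) :=
      (continuous_apply n).comp continuous_fst
    exact (isClosed_discrete ({k}ᶜ : Set ℕ)).preimage hcont
  refine ⟨Prod.fst '' C, hC.analyticSet.image_of_continuous continuous_fst, fun hmeas => ?_⟩
  have hana : AnalyticSet (Prod.fst '' C)ᶜ := hmeas.compl.analyticSet
  -- the complement is the projection of a closed set
  obtain ⟨K, hK, hK'⟩ : ∃ K : Set ((ℕ → ℕ) × (ℕ → ℕ)), IsClosed K ∧
      (Prod.fst '' C)ᶜ = Prod.fst '' K := by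
    rw [AnalyticSet] at hana
    rcases hana with h | ⟨f, hf, hf'⟩
    · exact ⟨∅, isClosed_empty, by rw [h, image_empty]⟩
    · refine ⟨{p | f p.2 = p.1}, isClosed_eq (hf.comp continuous_snd) continuous_fst, ?_⟩
      rw [← hf']
      ext x
      constructor
      · rintro ⟨y, rfl⟩
        exact ⟨(f y, y), rfl, rfl⟩
      · rintro ⟨⟨a, y⟩, h, rfl⟩
        exact ⟨y, h⟩
  obtain ⟨x, hx⟩ := hcode Kᶜ hK.isOpen_compl
  have key : ∀ y, (x, y) ∈ C ↔ (x, y) ∈ K := by
    intro y
    have h1 : (x, y) ∈ K ↔ (x, y) ∉ Kᶜ := by simp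
    rw [h1, hx, mem_iUnion, not_exists]
    rfl
  have h2 : x ∈ Prod.fst '' C ↔ x ∈ Prod.fst '' K := by
    constructor
    · rintro ⟨⟨a, y⟩, h, rfl⟩
      exact ⟨(a, y), (key y).1 h, rfl⟩
    · rintro ⟨⟨a, y⟩, h, rfl⟩
      exact ⟨(a, y), (key y).2 h, rfl⟩
  rw [← hK'] at h2
  by_cases h3 : x ∈ Prod.fst '' C
  · exact (h2.1 h3) h3
  · exact h3 (h2.2 h3)

end Pool.Agent.Helper54.EndCanc
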