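import Pool.Agent.Helper54.EndTree
import Pool.Agent.Helper54.AnalyticNonBorel

set_option autoImplicit false

namespace Pool.Agent.Helper54.EndCanc

open MeasureTheory Set

section transfer

variable {X Y : Type}

/-- Transport of an operation along a bijection. -/
def transp (e : X ≃ Y) (m : X → X → X) : Y → Y → Y := fun a b => e (m (e.symm a) (e.symm b))

theorem isCommSemigroup_trans (e : X ≃ Y) {m : X → X → X} (h : IsCommSemigroup m) :
    IsCommSemigroup (transp e m) := by
  constructor
  · intro x y z
    simp [transp, h.1]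
  · intro x y
    simp [transp, h.2]

theorem isEnd_trans (e : X ≃ Y) {m : X → X → X} {f : X → X} (h : IsEnd m f) :
    IsEnd (transp e m) (e ∘ f ∘ e.symm) := by
  intro x y
  simp only [transp, Function.comp, Equiv.symm_apply_apply]
  rw [h]

theorem isEnd_of_trans (e : X ≃ Y) {m : X → X → X} {f : Y → Y} (h : IsEnd (transp e m) f) :
    IsEnd m (e.symm ∘ f ∘ e) := by
  intro x y
  have := h (e x) (e y)
  simp only [transp, Equiv.symm_apply_apply] at this
  simp [this]

theorem endCancellative_trans (e : X ≃ Y) {m : X → X → X} :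
    EndCancellative (transp e m) ↔ EndCancellative m := by
  constructor
  · intro H f g h hf hg hh hfg
    have h1 := H _ _ _ (isEnd_trans e hf) (isEnd_trans e hg) (isEnd_trans e hh) (fun y => by
      simp [transp, hfg])
    funext x
    have h2 := congrFun h1 (e x)
    simpa using h2
  · intro H f g h hf hg hh hfg
    have h1 := H _ _ _ (isEnd_of_trans e hf) (isEnd_of_trans e hg) (isEnd_of_trans e hh) (fun x => by
      have := hfg (e x)
      simp only [transp] at this
      simpa using this)
    funext y
    have h2 := congrFun h1 (e.symm y)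
    simpa using h2

end transfer

section countable

instance : Countable Vt := by
  let F : Vt → ℕ ⊕ List ℕ ⊕ ℕ := fun v => match v with
    | .sk n => Sum.inl n
    | .nd s => Sum.inr (Sum.inl s)
    | .pt n => Sum.inr (Sum.inr n)
  refine Function.Injective.countable (f := F) ?_
  intro a b h
  cases a <;> cases b <;> simp_all [F]

instance (V : Type) (E : V → V → Prop) [Countable V] : Countable (El V E) := by
  let F : El V E → (V ⊕ V) ⊕ (ℕ ⊕ (V × V)) ⊕ ℕ := fun a => match a with
    | .X v => Sum.inl (Sum.inl v)
    | .Y v => Sum.inl (Sum.inr v)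
    | .g9 => Sum.inr (Sum.inl (Sum.inl 0))
    | .g10 => Sum.inr (Sum.inl (Sum.inl 1))
    | .g12 => Sum.inr (Sum.inl (Sum.inl 2))
    | .g13 => Sum.inr (Sum.inl (Sum.inl 3))
    | .g14 => Sum.inr (Sum.inl (Sum.inl 4))
    | .c => Sum.inr (Sum.inl (Sum.inl 5))
    | .b1 => Sum.inr (Sum.inl (Sum.inl 6))
    | .b v w _ => Sum.inr (Sum.inl (Sum.inr (v, w)))
    | .z n => Sum.inr (Sum.inr n)
  refine Function.Injective.countable (f := F) ?_
  intro a b h
  cases a <;> cases b <;> simp_all [F]

instance (V : Type) (E : V → V → Prop) : Infinite (El V E) :=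
  Infinite.of_injective (fun n : ℕ => (.z n : El V E)) (fun a b h => by simpa using h)

/-- A fixed enumeration of the underlying set. -/
noncomputable def enum : El Vt Ed ≃ ℕ := Classical.choice nonempty_equiv_of_countable

/-- The multiplication table on `ℕ` attached to a set `T` of finite sequences. -/
noncomputable def code (T : List ℕ → Bool) : ℕ → ℕ → ℕ := transp enum (mul (cl T))

end countable

section continuity

theorem mul_cases (a b : El Vt Ed) :
    (∃ r : El Vt Ed, ∀ T, mul (cl T) a b = r) ∨ ∃ s, ∀ T, mul (cl T) a b = xc (cl T) (.nd s) := by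
  have hxc : ∀ v : Vt, (∃ r : El Vt Ed, ∀ T, (xc (cl T) v : El Vt Ed) = r) ∨
      ∃ s, ∀ T, (xc (cl T) v : El Vt Ed) = xc (cl T) (.nd s) := by
    intro v
    cases v with
    | sk n => exact Or.inl ⟨.c, fun T => by simp [xc, cl]⟩
    | nd s => exact Or.inr ⟨s, fun T => rfl⟩
    | pt n => exact Or.inl ⟨.c, fun T => by simp [xc, cl]⟩
  cases a <;> cases b <;> first
    | exact Or.inl ⟨_, fun T => rfl⟩
    | exact hxc _

theorem continuous_code {α : Type} [TopologicalSpace α] {T : α → List ℕ → Bool}
    (hT : ∀ s, Continuous fun x => T x s) : Continuous fun x => code (T x) := by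
  refine continuous_pi fun i => continuous_pi fun j => ?_
  unfold code transp
  rcases mul_cases (enum.symm i) (enum.symm j) with ⟨r, hr⟩ | ⟨s, hs⟩
  · simp only [hr]
    exact continuous_const
  · simp only [hs]
    have : (fun x => enum (xc (cl (T x)) (.nd s))) =
        (fun b : Bool => enum (xc (fun _ => b) (.nd s))) ∘ fun x => T x s := rfl
    rw [this]
    exact continuous_of_discreteTopology.comp (hT s)

end continuity

section reduction

/-- The tree attached to `x`, for a function `f` on Baire space. -/
noncomputable def tree (f : (ℕ → ℕ) → ℕ → ℕ) (x : ℕ → ℕ) (s : List ℕ) : Bool := by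
  classical
  exact decide (∃ y, br y s.length = s ∧ ∀ i : Fin s.length, f y i = x i)

theorem tree_iff (f : (ℕ → ℕ) → ℕ → ℕ) (x : ℕ → ℕ) (s : List ℕ) :
    tree f x s = true ↔ ∃ y, br y s.length = s ∧ ∀ i : Fin s.length, f y i = x i := by
  simp [tree]

theorem continuous_tree (f : (ℕ → ℕ) → ℕ → ℕ) (s : List ℕ) :
    Continuous fun x => tree f x s := by
  classical
  have : (fun x => tree f x s) = (fun u : Fin s.length → ℕ =>
      decide (∃ y, br y s.length = s ∧ ∀ i : Fin s.length, f y i = u i)) ∘ fun x i => x i := by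
    funext x
    simp only [tree, Function.comp]
  rw [this]
  refine continuous_of_discreteTopology.comp ?_
  exact continuous_pi fun i => continuous_apply _

theorem br_eq_iff (y w : ℕ → ℕ) (n : ℕ) : br y n = br w n ↔ ∀ i < n, y i = w i := by
  induction n with
  | zero => simp [br]
  | succ n ih =>
    simp only [br, List.cons.injEq, ih]
    constructor
    · rintro ⟨h1, h2⟩ i hi
      rcases Nat.lt_succ_iff_lt_or_eq.1 hi with h | h
      · exact h2 i h
      · rw [h]; exact h1
    · intro h
      exact ⟨h n (Nat.lt_succ_self n), fun i hi => h i (Nat.lt_succ_of_lt hi)⟩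

theorem branch_iff {f : (ℕ → ℕ) → ℕ → ℕ} (hf : Continuous f) (x : ℕ → ℕ) :
    (∃ y : ℕ → ℕ, ∀ n, tree f x (br y n) = true) ↔ x ∈ range f := by
  constructor
  · rintro ⟨y, hy⟩
    have h1 : ∀ n, ∃ w : ℕ → ℕ, (∀ i < n, w i = y i) ∧ ∀ i < n, f w i = x i := by
      intro n
      obtain ⟨w, hw, hw'⟩ := (tree_iff _ _ _).1 (hy n)
      rw [br_length] at hw hw'
      refine ⟨w, (br_eq_iff _ _ _).1 hw, fun i hi => ?_⟩
      exact hw' ⟨i, hi⟩
    choose w hw hw' using h1
    have hlim : Filter.Tendsto w Filter.atTop (nhds y) := by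
      rw [tendsto_pi_nhds]
      intro i
      refine tendsto_const_nhds.congr' ?_
      filter_upwards [Filter.eventually_gt_atTop i] with n hn
      exact (hw n i hn).symm
    have hlim2 := (hf.tendsto y).comp hlim
    refine ⟨y, funext fun i => ?_⟩
    have h2 := (tendsto_pi_nhds.1 hlim2) i
    have h3 : Filter.Tendsto (fun n => (f ∘ w) n i) Filter.atTop (nhds (x i)) := by
      refine tendsto_const_nhds.congr' ?_
      filter_upwards [Filter.eventually_gt_atTop i] with n hn
      exact (hw' n i hn).symm
    exact tendsto_nhds_unique h2 h3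
  · rintro ⟨y, rfl⟩
    refine ⟨y, fun n => ?_⟩
    rw [tree_iff]
    exact ⟨y, by rw [br_length], fun i => rfl⟩

end reduction

end Pool.Agent.Helper54.EndCanc
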