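import Mathlib

set_option autoImplicit false

namespace Pool.Agent.Helper54.EndCanc

/-- The binary operation `m` makes `X` a commutative semigroup. -/
def IsCommSemigroup {X : Type} (m : X → X → X) : Prop :=
  (∀ x y z, m (m x y) z = m x (m y z)) ∧ ∀ x y, m x y = m y x

/-- `f` is an endomorphism of `(X, m)`. -/
def IsEnd {X : Type} (m : X → X → X) (f : X → X) : Prop :=
  ∀ x y, f (m x y) = m (f x) (f y)

/-- The endomorphisms of `(X, m)` form a cancellative semigroup under pointwise multiplication:
`f h = g h` (pointwise) implies `f = g`. -/
def EndCancellative {X : Type} (m : X → X → X) : Prop :=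
  ∀ f g h : X → X, IsEnd m f → IsEnd m g → IsEnd m h →
    (∀ x, m (f x) (h x) = m (g x) (h x)) → f = g

/-- Sanity check: for a commutative semigroup `S` the notion agrees with cancellativity of
Mathlib's semigroup of endomorphisms `S →ₙ* S` with its pointwise multiplication. -/
theorem endCancellative_iff {S : Type} [CommSemigroup S] :
    EndCancellative (fun x y : S => x * y) ↔
      ∀ f g h : S →ₙ* S, f * h = g * h → f = g := by
  constructor
  · intro H f g h hfg
    have := H f g h (map_mul f) (map_mul g) (map_mul h) (fun x => by
      have := DFunLike.congr_fun hfg x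
      simpa using this)
    exact DFunLike.coe_injective this
  · intro H f g h hf hg hh hfg
    have := H ⟨f, hf⟩ ⟨g, hg⟩ ⟨h, hh⟩ (MulHom.ext hfg)
    exact congrArg (fun k : S →ₙ* S => (k : S → S)) this

end Pool.Agent.Helper54.EndCanc
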