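import Pool.Agent.Helper54.EndDefs

set_option autoImplicit false

namespace Pool.Agent.Helper54.EndCanc

/-- The elements of the semigroup encoding a coloured digraph `(V, E, col)`. -/
inductive El (V : Type) (E : V → V → Prop) : Type
  | X (v : V) | Y (v : V)
  | g9 | g10 | g12 | g13 | g14
  | c | b1
  | b (v w : V) (h : v ≠ w ∧ ¬ E v w)
  | z (n : ℕ)

variable {V : Type} {E : V → V → Prop}

/-- The degree. -/
def deg : El V E → ℕ
  | .X _ => 8
  | .Y _ => 15
  | .g9 => 9
  | .g10 => 10
  | .g12 => 12
  | .g13 => 13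
  | .g14 => 14
  | .c => 22
  | .b1 => 23
  | .b _ _ _ => 23
  | .z n => 16 + n

@[simp] theorem deg_X (v : V) : deg (.X v : El V E) = 8 := rfl
@[simp] theorem deg_Y (v : V) : deg (.Y v : El V E) = 15 := rfl
@[simp] theorem deg_g9 : deg (.g9 : El V E) = 9 := rfl
@[simp] theorem deg_g10 : deg (.g10 : El V E) = 10 := rfl
@[simp] theorem deg_g12 : deg (.g12 : El V E) = 12 := rfl
@[simp] theorem deg_g13 : deg (.g13 : El V E) = 13 := rfl
@[simp] theorem deg_g14 : deg (.g14 : El V E) = 14 := rfl
@[simp] theorem deg_c : deg (.c : El V E) = 22 := rfl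
@[simp] theorem deg_b1 : deg (.b1 : El V E) = 23 := rfl
@[simp] theorem deg_b (v w : V) (h : v ≠ w ∧ ¬ E v w) : deg (.b v w h : El V E) = 23 := rfl
@[simp] theorem deg_z (n : ℕ) : deg (.z n : El V E) = 16 + n := rfl

open Classical in
/-- The product of `X v` and `Y w`. -/
noncomputable def xy (v w : V) : El V E :=
  if h : v ≠ w ∧ ¬ E v w then .b v w h else if v = w then .z 7 else .b1

/-- The product of `X v` and `g14`. -/
def xc (col : V → Bool) (v : V) : El V E := if col v then .c else .z 6

/-- The multiplication. -/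
noncomputable def mul (col : V → Bool) : El V E → El V E → El V E
  | .X v, .Y w => xy v w
  | .Y w, .X v => xy v w
  | .X v, .g14 => xc col v
  | .g14, .X v => xc col v
  | .g10, .g13 => .b1
  | .g13, .g10 => .b1
  | .g9, .g13 => .c
  | .g13, .g9 => .c
  | a, b => .z (deg a + deg b - 16)

@[simp] theorem deg_xy (v w : V) : deg (xy v w : El V E) = 23 := by
  unfold xy; split_ifs <;> rfl

@[simp] theorem deg_xc (col : V → Bool) (v : V) : deg (xc col v : El V E) = 22 := by
  unfold xc; split_ifs <;> rfl

theorem deg_ge (a : El V E) : 8 ≤ deg a := by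
  cases a <;> simp
  omega

theorem deg_ne_11 (a : El V E) : deg a ≠ 11 := by
  cases a <;> simp
  omega

theorem deg_mul (col : V → Bool) (a b : El V E) : deg (mul col a b) = deg a + deg b := by
  cases a <;> cases b <;> simp [mul] <;> omega

theorem mul_z (col : V → Bool) (a b : El V E) (h22 : deg a + deg b ≠ 22)
    (h23 : deg a + deg b ≠ 23) : mul col a b = .z (deg a + deg b - 16) := by
  cases a <;> cases b <;> simp_all [mul]

theorem eq_z_of_deg {a : El V E} (h16 : 16 ≤ deg a) (h22 : deg a ≠ 22) (h23 : deg a ≠ 23) :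
    a = .z (deg a - 16) := by
  cases a <;> simp_all

theorem mul_comm' (col : V → Bool) (a b : El V E) : mul col a b = mul col b a := by
  cases a <;> cases b <;> simp [mul, add_comm]

theorem mul_assoc' (col : V → Bool) (a b d : El V E) :
    mul col (mul col a b) d = mul col a (mul col b d) := by
  have h1 := deg_mul col a b
  have h2 := deg_mul col b d
  have ha := deg_ge a
  have hb := deg_ge b
  have hd := deg_ge d
  rw [mul_z col (mul col a b) d (by omega) (by omega), mul_z col a (mul col b d) (by omega) (by omega),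
    h1, h2, add_assoc]

theorem isCommSemigroup (col : V → Bool) : IsCommSemigroup (mul (E := E) col) :=
  ⟨mul_assoc' col, mul_comm' col⟩

/-- Powers: `pw a n = a ^ (n + 1)`. -/
noncomputable def pw (col : V → Bool) (a : El V E) : ℕ → El V E
  | 0 => a
  | n + 1 => mul col (pw col a n) a

theorem deg_pw (col : V → Bool) (a : El V E) (n : ℕ) : deg (pw col a n) = (n + 1) * deg a := by
  induction n with
  | zero => simp [pw]
  | succ n ih => rw [pw, deg_mul, ih]; ring

theorem pw_eq (col : V → Bool) (a : El V E) (n : ℕ) (h : 24 ≤ (n + 2) * deg a) :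
    pw col a (n + 1) = .z ((n + 2) * deg a - 16) := by
  have h1 := deg_pw col a n
  have h2 : (n + 1) * deg a + deg a = (n + 2) * deg a := by ring
  rw [pw, mul_z, h1, h2]
  · rw [h1, h2]; omega
  · rw [h1, h2]; omega

theorem map_pw {col : V → Bool} {f : El V E → El V E} (hf : IsEnd (mul col) f) (a : El V E)
    (n : ℕ) : f (pw col a n) = pw col (f a) n := by
  induction n with
  | zero => rfl
  | succ n ih => rw [pw, hf, ih, pw]

theorem deg_cross {col : V → Bool} {f : El V E → El V E} (hf : IsEnd (mul col) f) (a b : El V E) :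
    deg b * deg (f a) = deg a * deg (f b) := by
  have ha := deg_ge a
  have hb := deg_ge b
  obtain ⟨i, hi⟩ : ∃ i, deg a = i + 2 := ⟨deg a - 2, by omega⟩
  obtain ⟨j, hj⟩ : ∃ j, deg b = j + 2 := ⟨deg b - 2, by omega⟩
  have h24 : 24 ≤ deg a * deg b := le_trans (by norm_num) (Nat.mul_le_mul ha hb)
  have e1 : pw col a (j + 1) = .z ((j + 2) * deg a - 16) := pw_eq col a j (by
    rw [← hj, mul_comm]; exact h24)
  have e2 : pw col b (i + 1) = .z ((i + 2) * deg b - 16) := pw_eq col b i (by
    rw [← hi]; exact h24)
  have e3 : pw col a (j + 1) = pw col b (i + 1) := by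
    rw [e1, e2, ← hi, ← hj, mul_comm]
  have e4 := congrArg (fun x => deg (f x)) e3
  simp only [map_pw hf, deg_pw] at e4
  have e5 : (j + 1 + 1) = deg b := by omega
  have e6 : (i + 1 + 1) = deg a := by omega
  rw [e5, e6] at e4
  exact e4

theorem scale {col : V → Bool} {f : El V E → El V E} (hf : IsEnd (mul col) f) :
    ∃ k, 1 ≤ k ∧ ∀ a, deg (f a) = k * deg a := by
  have h := deg_cross hf (El.g9 : El V E) .g10
  have h9 : deg (El.g9 : El V E) = 9 := rfl
  have h10 : deg (El.g10 : El V E) = 10 := rfl
  rw [h9, h10] at h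
  obtain ⟨k, hk⟩ : ∃ k, deg (f (El.g9 : El V E)) = 9 * k :=
    ⟨deg (f (El.g10 : El V E)) - deg (f (El.g9 : El V E)), by omega⟩
  refine ⟨k, ?_, fun a => ?_⟩
  · have := deg_ge (f (El.g9 : El V E))
    by_contra hcon
    have : k = 0 := by omega
    subst this
    omega
  · have h1 := deg_cross hf a (El.g9 : El V E)
    rw [h9, hk] at h1
    have h2 : 9 * deg (f a) = 9 * (k * deg a) := by rw [h1]; ring
    omega

theorem eq_of_scale {f : El V E → El V E} {k : ℕ} (hk : 2 ≤ k)
    (h : ∀ a, deg (f a) = k * deg a) (a : El V E) : f a = .z (k * deg a - 16) := by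
  have h1 := h a
  have h8 := deg_ge a
  have h11 := deg_ne_11 a
  have h16 : 16 ≤ k * deg a := le_trans (by norm_num) (Nat.mul_le_mul hk h8)
  have hne : k * deg a ≠ 22 ∧ k * deg a ≠ 23 := by
    rcases Nat.lt_or_ge k 3 with hk3 | hk3
    · have : k = 2 := by omega
      subst this
      omega
    · have : 24 ≤ k * deg a := le_trans (by norm_num) (Nat.mul_le_mul hk3 h8)
      omega
  have := eq_z_of_deg (a := f a) (by omega) (by omega) (by omega)
  rw [this, h1]

/-- A colour and edge preserving map. -/
def IsHom (E : V → V → Prop) (col : V → Bool) (φ : V → V) : Prop :=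
  (∀ v w, E v w → E (φ v) (φ w)) ∧ ∀ v, col (φ v) = col v

/-- The endomorphism induced by a homomorphism. -/
noncomputable def ind (φ : V → V) : El V E → El V E
  | .X v => .X (φ v)
  | .Y v => .Y (φ v)
  | .b v w _ => xy (φ v) (φ w)
  | a => a

@[simp] theorem ind_X (φ : V → V) (v : V) : (ind φ (.X v) : El V E) = .X (φ v) := rfl
@[simp] theorem ind_Y (φ : V → V) (v : V) : (ind φ (.Y v) : El V E) = .Y (φ v) := rfl
@[simp] theorem ind_g9 (φ : V → V) : (ind φ .g9 : El V E) = .g9 := rfl
@[simp] theorem ind_g10 (φ : V → V) : (ind φ .g10 : El V E) = .g10 := rfl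
@[simp] theorem ind_g12 (φ : V → V) : (ind φ .g12 : El V E) = .g12 := rfl
@[simp] theorem ind_g13 (φ : V → V) : (ind φ .g13 : El V E) = .g13 := rfl
@[simp] theorem ind_g14 (φ : V → V) : (ind φ .g14 : El V E) = .g14 := rfl
@[simp] theorem ind_c (φ : V → V) : (ind φ .c : El V E) = .c := rfl
@[simp] theorem ind_b1 (φ : V → V) : (ind φ .b1 : El V E) = .b1 := rfl
@[simp] theorem ind_b (φ : V → V) (v w : V) (h : v ≠ w ∧ ¬ E v w) :
    (ind φ (.b v w h) : El V E) = xy (φ v) (φ w) := rfl
@[simp] theorem ind_z (φ : V → V) (n : ℕ) : (ind φ (.z n) : El V E) = .z n := rfl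

@[simp] theorem deg_ind (φ : V → V) (a : El V E) : deg (ind φ a) = deg a := by
  cases a <;> simp

theorem isEnd_ind (hE : ∀ v, ¬ E v v) {col : V → Bool} {φ : V → V} (h : IsHom E col φ) :
    IsEnd (mul col) (ind φ : El V E → El V E) := by
  intro a b
  by_cases h2 : deg a + deg b = 22 ∨ deg a + deg b = 23
  · have hxy : ∀ v w, (ind φ (xy v w) : El V E) = xy (φ v) (φ w) := by
      intro v w
      by_cases hvw : v = w
      · subst hvw
        simp [xy]
      · by_cases hEvw : E v w
        · have h3 := h.1 v w hEvw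
          have h4 : φ v ≠ φ w := by
            intro h5
            rw [h5] at h3
            exact hE _ h3
          simp [xy, hvw, hEvw, h3, h4]
        · rw [xy, dif_pos ⟨hvw, hEvw⟩, ind_b]
    have hxc : ∀ v, (ind φ (xc col v) : El V E) = xc col (φ v) := by
      intro v
      unfold xc
      rw [h.2 v]
      split_ifs <;> rfl
    clear h
    cases a <;> cases b <;> simp only [deg_X, deg_Y, deg_g9, deg_g10, deg_g12, deg_g13, deg_g14,
      deg_c, deg_b1, deg_b, deg_z] at h2 <;> first
      | (exfalso; omega)
      | simp [mul, hxy, hxc]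
  · push Not at h2
    rw [mul_z col a b h2.1 h2.2, mul_z col _ _ (by rw [deg_ind, deg_ind]; exact h2.1)
      (by rw [deg_ind, deg_ind]; exact h2.2), deg_ind, deg_ind]
    rfl

theorem id_of_scale_one (hE : ∀ v, ¬ E v v) {col : V → Bool} (hrig : ∀ φ, IsHom E col φ → φ = id)
    {f : El V E → El V E} (hf : IsEnd (mul col) f) (h : ∀ a, deg (f a) = deg a) : f = id := by
  have hX : ∀ v, ∃ w, f (.X v) = .X w := by
    intro v
    have := h (.X v)
    cases hfx : f (.X v) <;> rw [hfx] at this <;> simp_all
    omega
  have hY : ∀ v, ∃ w, f (.Y v) = .Y w := by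
    intro v
    have := h (.Y v)
    cases hfx : f (.Y v) <;> rw [hfx] at this <;> simp_all
    omega
  have h9 : f .g9 = .g9 := by
    have := h .g9
    cases hfx : f .g9 <;> rw [hfx] at this <;> simp_all
    omega
  have h10 : f .g10 = .g10 := by
    have := h .g10
    cases hfx : f .g10 <;> rw [hfx] at this <;> simp_all
    omega
  have h12 : f .g12 = .g12 := by
    have := h .g12
    cases hfx : f .g12 <;> rw [hfx] at this <;> simp_all
    omega
  have h13 : f .g13 = .g13 := by
    have := h .g13
    cases hfx : f .g13 <;> rw [hfx] at this <;> simp_all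
    omega
  have h14 : f .g14 = .g14 := by
    have := h .g14
    cases hfx : f .g14 <;> rw [hfx] at this <;> simp_all
    omega
  have hc : f .c = .c := by
    have := hf .g9 .g13
    rw [h9, h13] at this
    exact this
  have hb1 : f .b1 = .b1 := by
    have := hf .g10 .g13
    rw [h10, h13] at this
    exact this
  have hz7 : f (.z 7) = .z 7 := by
    have := hf .g9 .g14
    rw [h9, h14] at this
    exact this
  have hz6 : f (.z 6) = .z 6 := by
    have := hf .g10 .g12
    rw [h10, h12] at this
    exact this
  choose φ hφ using hX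
  choose ψ hψ using hY
  have hφψ : ψ = φ := by
    funext v
    have h1 := hf (.X v) (.Y v)
    rw [hφ, hψ] at h1
    have h2 : mul col (.X v) (.Y v) = (.z 7 : El V E) := by simp [mul, xy]
    rw [h2, hz7] at h1
    by_contra hne
    by_cases hEv : E (φ v) (ψ v)
    · simp [mul, xy, hEv, Ne.symm hne] at h1
    · simp [mul, xy, hEv, Ne.symm hne] at h1
  subst hφψ
  have hhom : IsHom E col ψ := by
    constructor
    · intro v w hvw
      have hne : v ≠ w := by
        rintro rfl
        exact hE _ hvw
      have h1 := hf (.X v) (.Y w)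
      rw [hφ, hψ] at h1
      have h2 : mul col (.X v) (.Y w) = (.b1 : El V E) := by simp [mul, xy, hvw, hne]
      rw [h2, hb1] at h1
      by_contra hcon
      by_cases hEv : ψ v = ψ w
      · simp [mul, xy, hEv] at h1
      · simp [mul, xy, hEv, hcon] at h1
    · intro v
      have h1 := hf (.X v) .g14
      rw [hφ, h14] at h1
      by_cases hv : col v
      · simp only [mul, xc, hv, if_true, hc] at h1
        by_contra hcon
        simp [hv] at hcon
        simp [hcon] at h1
      · simp only [mul, xc, hv] at h1
        by_contra hcon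
        simp [hv] at hcon
        simp [hcon, hz6] at h1
  have hid := hrig ψ hhom
  subst hid
  funext a
  cases a with
  | X v => exact hφ v
  | Y v => exact hψ v
  | g9 => exact h9
  | g10 => exact h10
  | g12 => exact h12
  | g13 => exact h13
  | g14 => exact h14
  | c => exact hc
  | b1 => exact hb1
  | b v w hvw =>
    have h1 := hf (.X v) (.Y w)
    rw [hφ, hψ] at h1
    have h2 : mul col (.X v) (.Y w) = (.b v w hvw : El V E) := by simp [mul, xy, hvw]
    rw [id, id, h2] at h1
    exact h1
  | z n =>
    by_cases hn6 : n = 6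
    · subst hn6; exact hz6
    by_cases hn7 : n = 7
    · subst hn7; exact hz7
    have h1 := h (.z n)
    have h2 : deg (.z n : El V E) = 16 + n := rfl
    rw [h2] at h1
    have h3 := eq_z_of_deg (a := f (.z n)) (by omega) (by omega) (by omega)
    rw [h1] at h3
    rw [h3, id]
    congr 1
    omega

/-- **Encoding theorem.** For an irreflexive digraph `(V, E)` with a colouring `col`, the
commutative semigroup `(El V E, mul col)` has cancellative pointwise endomorphism semigroup iff the
only colour preserving digraph endomorphism of `(V, E, col)` is the identity. -/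
theorem endCancellative_mul_iff (hE : ∀ v, ¬ E v v) (col : V → Bool) :
    EndCancellative (mul (E := E) col) ↔ ∀ φ, IsHom E col φ → φ = id := by
  constructor
  · intro H φ hφ
    have h1 := H (ind φ) id id (isEnd_ind hE hφ) (fun _ _ => rfl) (fun _ _ => rfl) (fun a => by
      have h11 := deg_ne_11 a
      rw [mul_z, mul_z, deg_ind]
      all_goals simp only [id, deg_ind] <;> omega)
    funext v
    have h2 := congrFun h1 (.X v)
    simpa [ind] using h2
  · intro hrig f g h hf hg hh hfg
    obtain ⟨k, hk, hfk⟩ := scale hf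
    obtain ⟨l, hl, hgl⟩ := scale hg
    have hdeg : ∀ a, deg (f a) = deg (g a) := by
      intro a
      have := congrArg deg (hfg a)
      rw [deg_mul, deg_mul] at this
      omega
    have hkl : k = l := by
      have h1 := hfk (.g9 : El V E)
      have h2 := hgl (.g9 : El V E)
      have h3 := hdeg (.g9 : El V E)
      have h9 : deg (El.g9 : El V E) = 9 := rfl
      rw [h9] at h1 h2
      omega
    subst hkl
    rcases Nat.lt_or_ge k 2 with hk2 | hk2
    · have : k = 1 := by omega
      subst this
      rw [id_of_scale_one hE hrig hf (by intro a; rw [hfk a, one_mul]),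
        id_of_scale_one hE hrig hg (by intro a; rw [hgl a, one_mul])]
    · funext a
      rw [eq_of_scale hk2 hfk a, eq_of_scale hk2 hgl a]

end Pool.Agent.Helper54.EndCanc
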