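import Pool.Agent.Helper54.EndDefs

set_option autoImplicit false

namespace Pool.Agent.Helper54.EndCanc

section

variable {S : Type} [CommSemigroup S]

theorem mulHom_mul_comm (f g : S →ₙ* S) : f * g = g * f :=
  MulHom.ext fun x => by simp [mul_comm]

theorem isCancelMul_end_iff :
    IsCancelMul (S →ₙ* S) ↔ ∀ f g h : S →ₙ* S, f * h = g * h → f = g := by
  constructor
  · intro H f g h hfg
    exact mul_right_cancel hfg
  · intro H
    exact { mul_left_cancel := fun a b c hbc => by
              simp only at hbc
              rw [mulHom_mul_comm a b, mulHom_mul_comm a c] at hbc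
              exact H b c a hbc
            mul_right_cancel := fun a b c hbc => H b c a hbc }

theorem isCancelMul_end_iff' :
    IsCancelMul (S →ₙ* S) ↔ EndCancellative (fun x y : S => x * y) := by
  rw [isCancelMul_end_iff, endCancellative_iff]

end

end Pool.Agent.Helper54.EndCanc
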