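import Pool.Agent.Helper54.EndEnc

set_option autoImplicit false

namespace Pool.Agent.Helper54.EndCanc

/-- The vertices: a skeleton `sk n`, the finite sequences `nd s` (in reversed order), and a path
`pt n`. -/
inductive Vt : Type
  | sk (n : ℕ) | nd (s : List ℕ) | pt (n : ℕ)

/-- The label of a finite sequence. -/
def lab (s : List ℕ) : ℕ := Encodable.encode s + 3

theorem lab_inj {s t : List ℕ} (h : lab s = lab t) : s = t := by
  unfold lab at h
  exact Encodable.encode_injective (by omega)

theorem lab_ge (s : List ℕ) : 3 ≤ lab s := by unfold lab; omega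

/-- The edge relation. -/
def Ed : Vt → Vt → Prop
  | .sk n, .sk m => m = n + 1 ∨ (n = 0 ∧ m = 2)
  | .nd s, .sk m => m = lab s ∨ (s = [] ∧ m = 0)
  | .nd s, .nd t => ∃ k, s = k :: t
  | .pt n, .pt m => n = m + 1
  | .pt n, .sk m => n = 0 ∧ m = 0
  | _, _ => False

/-- The colouring attached to a set `T` of finite sequences. -/
def cl (T : List ℕ → Bool) : Vt → Bool
  | .nd s => T s
  | _ => true

theorem Ed_irrefl (v : Vt) : ¬ Ed v v := by
  cases v with
  | sk n => simp only [Ed]; omega
  | nd s =>
    simp only [Ed, not_exists]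
    intro k h
    have := congrArg List.length h
    simp at this
  | pt n => simp [Ed]

/-- The reversed initial segment of length `n` of `y`. -/
def br (y : ℕ → ℕ) : ℕ → List ℕ
  | 0 => []
  | n + 1 => y n :: br y n

theorem br_length (y : ℕ → ℕ) (n : ℕ) : (br y n).length = n := by
  induction n with
  | zero => rfl
  | succ n ih => rw [br, List.length_cons, ih]

/-- The endomorphism attached to a branch. -/
def brMap (y : ℕ → ℕ) : Vt → Vt
  | .pt n => .nd (br y n)
  | v => v

theorem brMap_isHom {T : List ℕ → Bool} {y : ℕ → ℕ} (h : ∀ n, T (br y n) = true) :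
    IsHom Ed (cl T) (brMap y) := by
  constructor
  · intro v w hvw
    cases v <;> cases w <;> simp_all [Ed, brMap]
    · exact Or.inr rfl
    · exact ⟨_, rfl⟩
  · intro v
    cases v <;> simp [brMap, cl, h]

section rigid

variable {T : List ℕ → Bool} {φ : Vt → Vt}

theorem sk_fixed (h : IsHom Ed (cl T) φ) (n : ℕ) : φ (.sk n) = .sk n := by
  have h01 := h.1 (.sk 0) (.sk 1) (by simp [Ed])
  have h12 := h.1 (.sk 1) (.sk 2) (by simp [Ed])
  have h02 := h.1 (.sk 0) (.sk 2) (by simp [Ed])
  have key : φ (.sk 0) = .sk 0 ∧ φ (.sk 1) = .sk 1 := by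
    rcases h0 : φ (.sk 0) with a | s | a <;> rcases h1 : φ (.sk 1) with b | t | b <;>
      rcases h2 : φ (.sk 2) with c | u | c <;> rw [h0, h1] at h01 <;> rw [h1, h2] at h12 <;>
      rw [h0, h2] at h02 <;> simp only [Ed] at h01 h12 h02
    · have h3 : a = 0 ∧ b = 1 := by omega
      rw [h3.1, h3.2]
      exact ⟨rfl, rfl⟩
    · exfalso
      have := lab_ge s
      rcases h01 with h01 | h01 <;> rcases h02 with h02 | h02 <;> omega
    · exfalso
      obtain ⟨k, hk⟩ := h01
      rcases h12 with h12 | h12
      · rcases h02 with h02 | h02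
        · have := lab_inj (h12.symm.trans h02)
          rw [this] at hk
          have := congrArg List.length hk
          simp at this
        · rw [h02.1] at hk
          simp at hk
      · rcases h02 with h02 | h02
        · have := lab_ge s
          omega
        · rw [h02.1] at hk
          simp at hk
    · exfalso
      obtain ⟨k, hk⟩ := h01
      obtain ⟨l, hl⟩ := h12
      obtain ⟨m, hm⟩ := h02
      rw [hm, hl] at hk
      have := congrArg List.length hk
      simp at this
    · exfalso; omega
    · exfalso; omega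
    · exfalso; omega
  induction n with
  | zero => exact key.1
  | succ n ih =>
    rcases Nat.eq_zero_or_pos n with rfl | hn
    · exact key.2
    · have h3 := h.1 (.sk n) (.sk (n + 1)) (by simp [Ed])
      rw [ih] at h3
      rcases h4 : φ (.sk (n + 1)) with b | t | b <;> rw [h4] at h3 <;> simp only [Ed] at h3
      congr 1
      omega

theorem nd_fixed (h : IsHom Ed (cl T) φ) (s : List ℕ) : φ (.nd s) = .nd s := by
  induction s with
  | nil =>
    have h1 := h.1 (.nd []) (.sk 0) (by simp [Ed])
    have h2 := h.1 (.nd []) (.sk (lab [])) (by simp [Ed])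
    rw [sk_fixed h] at h1 h2
    have := lab_ge []
    rcases h3 : φ (.nd []) with a | t | a <;> rw [h3] at h1 h2 <;> simp only [Ed] at h1 h2
    · omega
    · congr 1
      rcases h2 with h2 | h2
      · exact (lab_inj h2).symm
      · omega
    · omega
  | cons k s ih =>
    have h1 := h.1 (.nd (k :: s)) (.nd s) ⟨k, rfl⟩
    have h2 := h.1 (.nd (k :: s)) (.sk (lab (k :: s))) (by simp [Ed])
    rw [sk_fixed h] at h2
    rw [ih] at h1
    have := lab_ge (k :: s)
    rcases h3 : φ (.nd (k :: s)) with a | t | a <;> rw [h3] at h1 h2 <;> simp only [Ed] at h1 h2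
    congr 1
    rcases h2 with h2 | h2
    · exact (lab_inj h2).symm
    · omega

theorem rigid_of_wf (hT : ¬ ∃ y : ℕ → ℕ, ∀ n, T (br y n) = true) (h : IsHom Ed (cl T) φ) :
    φ = id := by
  have h0 : φ (.pt 0) = .pt 0 ∨ (φ (.pt 0) = .nd [] ∧ T [] = true) := by
    have h1 := h.1 (.pt 0) (.sk 0) (by simp [Ed])
    have hc := h.2 (.pt 0)
    rw [sk_fixed h] at h1
    rcases h3 : φ (.pt 0) with a | t | a <;> rw [h3] at h1 hc <;> simp only [Ed] at h1
    · omega
    · right
      have := lab_ge t
      rcases h1 with h1 | h1
      · omega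
      · rw [h1.1]
        refine ⟨rfl, ?_⟩
        rw [h1.1] at hc
        exact hc
    · left
      rw [h1.1]
  rcases h0 with h0 | ⟨h0, hT0⟩
  · have hp : ∀ n, φ (.pt n) = .pt n := by
      intro n
      induction n with
      | zero => exact h0
      | succ n ih =>
        have h1 := h.1 (.pt (n + 1)) (.pt n) (by simp [Ed])
        rw [ih] at h1
        rcases h3 : φ (.pt (n + 1)) with a | t | a <;> rw [h3] at h1 <;> simp only [Ed] at h1
        congr 1
    funext v
    cases v with
    | sk n => exact sk_fixed h n
    | nd s => exact nd_fixed h s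
    | pt n => exact hp n
  · exfalso
    apply hT
    have hex : ∀ n, ∃ s : List ℕ, s.length = n ∧ φ (.pt n) = .nd s := by
      intro n
      induction n with
      | zero => exact ⟨[], rfl, h0⟩
      | succ n ih =>
        obtain ⟨s, hs, hs'⟩ := ih
        have h1 := h.1 (.pt (n + 1)) (.pt n) (by simp [Ed])
        rw [hs'] at h1
        rcases h3 : φ (.pt (n + 1)) with a | t | a <;> rw [h3] at h1 <;> simp only [Ed] at h1
        obtain ⟨k, hk⟩ := h1
        exact ⟨t, by rw [hk, List.length_cons, hs], rfl⟩
    choose s hs hs' using hex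
    have hstep : ∀ n, ∃ k, s (n + 1) = k :: s n := by
      intro n
      have h1 := h.1 (.pt (n + 1)) (.pt n) (by simp [Ed])
      rw [hs' n, hs' (n + 1)] at h1
      exact h1
    choose y hy using hstep
    have hbr : ∀ n, br y n = s n := by
      intro n
      induction n with
      | zero =>
        have := hs 0
        rw [List.length_eq_zero_iff] at this
        rw [this]
        rfl
      | succ n ih => rw [br, ih, hy n]
    refine ⟨y, fun n => ?_⟩
    have hc := h.2 (.pt n)
    rw [hs' n] at hc
    rw [hbr n]
    exact hc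

end rigid

/-- The semigroup attached to `T` has cancellative endomorphism semigroup iff `T` has no infinite
branch. -/
theorem endCancellative_tree_iff (T : List ℕ → Bool) :
    EndCancellative (mul (E := Ed) (cl T)) ↔ ¬ ∃ y : ℕ → ℕ, ∀ n, T (br y n) = true := by
  rw [endCancellative_mul_iff Ed_irrefl]
  constructor
  · rintro H ⟨y, hy⟩
    have := congrFun (H _ (brMap_isHom hy)) (.pt 0)
    simp [brMap] at this
  · intro hT φ hφ
    exact rigid_of_wf hT hφ

end Pool.Agent.Helper54.EndCanc
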