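import Pool.Agent.Helper54.Stiemke

set_option autoImplicit false

/-!
Farkas' alternative for finitely generated commutative monoids.
-/

namespace Pool.Agent.Helper54.EndCanc

section farkas

variable {S : Type*} [CommMonoid S] {k : ℕ}

/-- A finitely generated commutative monoid is the set of monomials in finitely many elements. -/
theorem exists_gens [Monoid.FG S] : ∃ (k : ℕ) (a : Fin k → S), ∀ x, ∃ u, mono a u = x := by
  obtain ⟨T, hT, hTfin⟩ := Monoid.fg_iff.1 (inferInstance : Monoid.FG S)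
  have : Finite T := hTfin
  obtain ⟨k, ⟨e⟩⟩ := Finite.exists_equiv_fin T
  let a : Fin k → S := fun i => (e.symm i : S)
  have hrange : Set.range a = T := by
    ext x
    constructor
    · rintro ⟨i, rfl⟩
      exact (e.symm i).2
    · intro hx
      exact ⟨e ⟨x, hx⟩, by simp [a]⟩
  refine ⟨k, a, fun x => ?_⟩
  have hx : x ∈ Submonoid.closure (Set.range a) := by rw [hrange, hT]; trivial
  obtain ⟨u, hu⟩ := Submonoid.exists_of_mem_closure_range _ _ hx
  exact ⟨u, hu.symm⟩

/-- A nonnegative functional on the rational relation quotient gives a homomorphism to `ℕ`. -/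
theorem hom_of_functional {a : Fin k → S} (hsurj : ∀ x, ∃ u, mono a u = x)
    (l : ((Fin k → ℚ) ⧸ relMod a) →ₗ[ℚ] ℚ)
    (hl : ∀ i, 0 ≤ l (Submodule.Quotient.mk (Pi.single i (1 : ℚ)))) :
    ∃ L : S → ℕ, (∀ x y, L (x * y) = L x + L y) ∧
      ∀ i, 0 < l (Submodule.Quotient.mk (Pi.single i (1 : ℚ))) → 0 < L (a i) := by
  classical
  let f : (Fin k → ℚ) →ₗ[ℚ] ℚ := l.comp (relMod a).mkQ
  have hf : ∀ w : Fin k → ℚ, f w = ∑ i, w i * f (Pi.single i 1) := by
    intro w
    conv_lhs => rw [pi_eq_sum_univ' w]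
    rw [map_sum]
    refine Finset.sum_congr rfl fun i _ => ?_
    rw [map_smul, smul_eq_mul]
  have hf0 : ∀ u v : Fin k → ℕ, mono a u = mono a v →
      f (fun i => (u i : ℚ)) = f (fun i => (v i : ℚ)) := by
    intro u v huv
    rw [← sub_eq_zero, ← map_sub]
    have : ((fun i => (u i : ℚ)) - fun i => (v i : ℚ)) ∈ relMod a :=
      ⟨1, one_pos, u, v, huv, fun i => by simp⟩
    change l ((relMod a).mkQ _) = 0
    rw [Submodule.mkQ_apply, (Submodule.Quotient.mk_eq_zero _).2 this, map_zero]
  let D : ℕ := ∏ i, (f (Pi.single i 1)).den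
  have hD : 0 < D := Finset.prod_pos fun i _ => Rat.den_pos _
  have hμ : ∀ i, ∃ m : ℕ, (m : ℚ) = D * f (Pi.single i 1) := by
    intro i
    obtain ⟨d, hd⟩ : (f (Pi.single i 1)).den ∣ D := Finset.dvd_prod_of_mem _ (Finset.mem_univ i)
    have h0 : 0 ≤ f (Pi.single i 1) := hl i
    refine ⟨d * (f (Pi.single i 1)).num.toNat, ?_⟩
    have h1 : (((f (Pi.single i 1)).num.toNat : ℕ) : ℚ) = ((f (Pi.single i 1)).num : ℚ) := by
      have : (((f (Pi.single i 1)).num.toNat : ℕ) : ℤ) = (f (Pi.single i 1)).num :=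
        Int.toNat_of_nonneg (Rat.num_nonneg.2 h0)
      exact_mod_cast this
    push_cast
    rw [h1, hd, ← Rat.mul_den_eq_num]
    push_cast
    ring
  choose μ hμ' using hμ
  choose u hu using hsurj
  have key : ∀ (x : S) (v : Fin k → ℕ), mono a v = x → ∑ i, u x i * μ i = ∑ i, v i * μ i := by
    intro x v hv
    have h1 := hf0 (u x) v (by rw [hu, hv])
    rw [hf, hf (fun i => (v i : ℚ))] at h1
    have h2 : ((∑ i, u x i * μ i : ℕ) : ℚ) = ((∑ i, v i * μ i : ℕ) : ℚ) := by
      push_cast
      simp only [hμ']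
      have e1 : ∀ w : Fin k → ℕ, ∑ i, (w i : ℚ) * (D * f (Pi.single i 1)) =
          D * ∑ i, (w i : ℚ) * f (Pi.single i 1) := by
        intro w
        rw [Finset.mul_sum]
        exact Finset.sum_congr rfl fun i _ => by ring
      rw [e1, e1, h1]
    exact_mod_cast h2
  refine ⟨fun x => ∑ i, u x i * μ i, fun x y => ?_, fun j hj => ?_⟩
  · simp only
    rw [key (x * y) (u x + u y) (by rw [mono_add, hu, hu]), ← Finset.sum_add_distrib]
    exact Finset.sum_congr rfl fun i _ => by rw [Pi.add_apply, add_mul]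
  · simp only
    rw [key (a j) (Pi.single j 1) (by
      unfold mono
      rw [Finset.prod_eq_single j]
      · simp
      · intro i _ hi
        simp [hi]
      · simp)]
    have h1 : 0 < μ j := by
      have : (0 : ℚ) < μ j := by
        rw [hμ']
        exact mul_pos (by exact_mod_cast hD) hj
      exact_mod_cast this
    have h2 : (Pi.single j 1 : Fin k → ℕ) j * μ j ≤ ∑ i, (Pi.single j 1 : Fin k → ℕ) i * μ i :=
      Finset.single_le_sum (f := fun i => (Pi.single j 1 : Fin k → ℕ) i * μ i)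
        (fun _ _ => Nat.zero_le _) (Finset.mem_univ j)
    simp only [Pi.single_eq_same, one_mul] at h2
    omega

/-- **Farkas alternative for monoids.** For an element `x` of a finitely generated commutative
monoid, either some homomorphism to `(ℕ, +)` is positive at `x`, or `x v w = w` for some `v, w`. -/
theorem farkas [Monoid.FG S] (x : S) :
    (∃ L : S → ℕ, (∀ x y, L (x * y) = L x + L y) ∧ 0 < L x) ∨ ∃ v w : S, x * v * w = w := by
  classical
  obtain ⟨k, a, hsurj⟩ := exists_gens (S := S)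
  by_cases hx : ∃ L : S → ℕ, (∀ x y, L (x * y) = L x + L y) ∧ 0 < L x
  · exact Or.inl hx
  right
  let e : Fin k → (Fin k → ℚ) ⧸ relMod a := fun i => Submodule.Quotient.mk (Pi.single i (1 : ℚ))
  -- the generators at which no nonnegative functional is positive
  let J : Type := {i : Fin k // ∀ l : ((Fin k → ℚ) ⧸ relMod a) →ₗ[ℚ] ℚ,
    (∀ i, 0 ≤ l (e i)) → l (e i) = 0}
  obtain ⟨j, ⟨eJ⟩⟩ := Finite.exists_equiv_fin J
  -- a functional positive exactly outside `J`
  obtain ⟨l0, hl0, hl0'⟩ : ∃ l : ((Fin k → ℚ) ⧸ relMod a) →ₗ[ℚ] ℚ, (∀ i, 0 ≤ l (e i)) ∧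
      ∀ i, (¬ ∀ l : ((Fin k → ℚ) ⧸ relMod a) →ₗ[ℚ] ℚ, (∀ i, 0 ≤ l (e i)) → l (e i) = 0) →
        0 < l (e i) := by
    have h1 : ∀ i, ∃ l : ((Fin k → ℚ) ⧸ relMod a) →ₗ[ℚ] ℚ, (∀ i, 0 ≤ l (e i)) ∧
        ((¬ ∀ l : ((Fin k → ℚ) ⧸ relMod a) →ₗ[ℚ] ℚ, (∀ i, 0 ≤ l (e i)) → l (e i) = 0) →
        0 < l (e i)) := by
      intro i
      by_cases h : ∀ l : ((Fin k → ℚ) ⧸ relMod a) →ₗ[ℚ] ℚ, (∀ i, 0 ≤ l (e i)) → l (e i) = 0
      · exact ⟨0, fun i => le_refl _, fun h' => absurd h h'⟩
      · have h'' := h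
        push Not at h''
        obtain ⟨l, hl, hl'⟩ := h''
        exact ⟨l, hl, fun _ => lt_of_le_of_ne (hl i) (Ne.symm hl')⟩
    choose l hl hl' using h1
    refine ⟨∑ i, l i, fun i => ?_, fun i hi => ?_⟩
    · rw [LinearMap.sum_apply]
      exact Finset.sum_nonneg fun i' _ => hl i' i
    · rw [LinearMap.sum_apply]
      exact Finset.sum_pos' (fun i' _ => hl i' i) ⟨i, Finset.mem_univ _, hl' i hi⟩
  -- the relation between the generators in `J`
  obtain ⟨n, hn, hn'⟩ : ∃ n : Fin j → ℚ, (∀ i, 0 < n i) ∧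
      ∑ i, n i • e (eJ.symm i).1 = 0 := by
    rcases stiemke j _ (fun i => e (eJ.symm i).1) with ⟨l, hl, r, hr⟩ | h
    · exfalso
      obtain ⟨t, ht⟩ : ∃ t : ℚ, ∀ i, 0 ≤ l (e i) + t * l0 (e i) ∧ 0 ≤ t := by
        refine ⟨∑ i, |l (e i)| / l0 (e i), fun i => ⟨?_, ?_⟩⟩
        · by_cases hi : ∀ l : ((Fin k → ℚ) ⧸ relMod a) →ₗ[ℚ] ℚ, (∀ i, 0 ≤ l (e i)) → l (e i) = 0
          · have h1 := hl (eJ ⟨i, hi⟩)
            rw [Equiv.symm_apply_apply] at h1
            rw [hi l0 hl0, mul_zero, add_zero]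
            exact h1
          · have h1 := hl0' i hi
            have h2 : |l (e i)| / l0 (e i) ≤ ∑ i, |l (e i)| / l0 (e i) :=
              Finset.single_le_sum (f := fun i => |l (e i)| / l0 (e i))
                (fun i _ => div_nonneg (abs_nonneg _) (hl0 i)) (Finset.mem_univ i)
            have h3 : |l (e i)| ≤ (∑ i, |l (e i)| / l0 (e i)) * l0 (e i) := by
              rwa [div_le_iff₀ h1] at h2
            have h4 := neg_abs_le (l (e i))
            linarith
        · exact Finset.sum_nonneg fun i _ => div_nonneg (abs_nonneg _) (hl0 i)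
      have h5 := (eJ.symm r).2 (l + t • l0) (fun i => by
        rw [LinearMap.add_apply, LinearMap.smul_apply, smul_eq_mul]
        exact (ht i).1)
      rw [LinearMap.add_apply, LinearMap.smul_apply, (eJ.symm r).2 l0 hl0, smul_zero,
        add_zero] at h5
      rw [h5] at hr
      exact lt_irrefl _ hr
    · exact h
  -- extend by zero
  have hinj : Function.Injective (fun i : Fin j => (eJ.symm i).1) := fun p q hpq =>
    eJ.symm.injective (Subtype.ext hpq)
  let n' : Fin k → ℚ := Function.extend (fun i : Fin j => (eJ.symm i).1) n 0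
  have hn'1 : ∀ i : Fin j, n' (eJ.symm i).1 = n i := fun i => hinj.extend_apply n 0 i
  have hn'0 : ∀ i, i ∉ Set.range (fun i : Fin j => (eJ.symm i).1) → n' i = 0 := fun i hi => by
    simp only [n']
    rw [Function.extend_apply' _ _ _ (by simpa using hi)]
    rfl
  have hrange : ∀ i, (∀ l : ((Fin k → ℚ) ⧸ relMod a) →ₗ[ℚ] ℚ,
      (∀ i, 0 ≤ l (e i)) → l (e i) = 0) → ∃ r : Fin j, (eJ.symm r).1 = i := fun i hi =>
    ⟨eJ ⟨i, hi⟩, by rw [Equiv.symm_apply_apply]⟩
  have hn'mem : n' ∈ relMod a := by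
    rw [← Submodule.Quotient.mk_eq_zero, ← hn', ← Submodule.mkQ_apply]
    conv_lhs => rw [pi_eq_sum_univ' n']
    rw [map_sum]
    have h1 : ∀ i, (relMod a).mkQ (n' i • Pi.single i (1 : ℚ)) = n' i • e i := by
      intro i
      rw [map_smul]
      rfl
    simp only [h1]
    symm
    apply Fintype.sum_of_injective (fun i : Fin j => (eJ.symm i).1) hinj
    · intro i hi
      rw [hn'0 i hi, zero_smul]
    · intro i
      rw [hn'1]
  obtain ⟨N, hN, u, v, huv, hi⟩ := hn'mem
  have hle : ∀ i, v i ≤ u i := by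
    intro i
    have h2 : (0 : ℚ) ≤ (u i : ℚ) - v i := by
      rw [← hi i]
      refine mul_nonneg (by exact_mod_cast hN.le) ?_
      by_cases h : i ∈ Set.range (fun i : Fin j => (eJ.symm i).1)
      · obtain ⟨r, rfl⟩ := h
        simp only
        rw [hn'1]
        exact (hn r).le
      · rw [hn'0 i h]
    have h3 : (v i : ℚ) ≤ u i := by linarith
    exact_mod_cast h3
  have hlt : ∀ r : Fin j, v (eJ.symm r).1 < u (eJ.symm r).1 := by
    intro r
    have h2 : (0 : ℚ) < (u (eJ.symm r).1 : ℚ) - v (eJ.symm r).1 := by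
      rw [← hi, hn'1]
      exact mul_pos (by exact_mod_cast hN) (hn r)
    have h3 : (v (eJ.symm r).1 : ℚ) < u (eJ.symm r).1 := by linarith
    exact_mod_cast h3
  let m : Fin k → ℕ := fun i => u i - v i
  have hm : u = v + m := by
    funext i
    have := hle i
    simp only [m, Pi.add_apply]
    omega
  have hw : mono a v * mono a m = mono a v := by rw [← mono_add, ← hm, huv]
  have hpow : ∀ r : ℕ, mono a v * mono a m ^ r = mono a v := by
    intro r
    induction r with
    | zero => simp
    | succ r ih => rw [pow_succ, ← mul_assoc, ih, hw]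
  obtain ⟨c, hc⟩ := hsurj x
  have hcm : ∀ i, c i ≤ (∑ i, c i) * m i := by
    intro i
    rcases Nat.eq_zero_or_pos (c i) with h0 | h0
    · omega
    · have hJ : ∃ r : Fin j, (eJ.symm r).1 = i := by
        apply hrange
        by_contra hcon
        push Not at hcon
        obtain ⟨l, hl, hl'⟩ := hcon
        obtain ⟨L, hL, hL'⟩ := hom_of_functional hsurj l hl
        apply hx
        refine ⟨L, hL, ?_⟩
        have h1 : 0 < L (a i) := hL' i (lt_of_le_of_ne (hl i) (Ne.symm hl'))
        have h2 : x = a i * mono a (c - Pi.single i 1) := by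
          have h3 : c = Pi.single i 1 + (c - Pi.single i 1) := by
            funext i'
            simp only [Pi.add_apply, Pi.sub_apply]
            by_cases hii : i' = i
            · subst hii
              simp only [Pi.single_eq_same]
              omega
            · rw [Pi.single_eq_of_ne hii]
              omega
          have h4 : mono a (Pi.single i 1) = a i := by
            unfold mono
            rw [Finset.prod_eq_single i]
            · simp
            · intro i' _ hi'
              simp [hi']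
            · simp
          rw [← hc]
          conv_lhs => rw [h3]
          rw [mono_add, h4]
        rw [h2, hL]
        omega
      obtain ⟨r, rfl⟩ := hJ
      have h2 : c (eJ.symm r).1 ≤ ∑ i, c i :=
        Finset.single_le_sum (fun _ _ => Nat.zero_le _) (Finset.mem_univ _)
      have h3 : 1 ≤ m (eJ.symm r).1 := by
        have := hlt r
        simp only [m]
        omega
      calc c (eJ.symm r).1 ≤ (∑ i, c i) * 1 := by omega
        _ ≤ (∑ i, c i) * m (eJ.symm r).1 := Nat.mul_le_mul_left _ h3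
  refine ⟨mono a ((∑ i, c i) • m - c), mono a v, ?_⟩
  have h5 : x * mono a ((∑ i, c i) • m - c) = mono a m ^ (∑ i, c i) := by
    rw [← hc, ← mono_add, ← mono_smul]
    congr 1
    funext i
    have := hcm i
    simp only [Pi.add_apply, Pi.sub_apply, Pi.smul_apply, smul_eq_mul]
    omega
  rw [h5, mul_comm, hpow]

end farkas

end Pool.Agent.Helper54.EndCanc
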