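import Mathlib
import Pool.Agent.Helper72.HG.Defs
set_option autoImplicit false

/-!
Module HG2 (MP_9d0d86_gt): tameness (unique products and Folner sets) passes to extensions by
torsion-free abelian groups.
-/

open Pool.Agent.Helper72.HG
open scoped Pointwise

namespace Pool.Agent.Helper54.HG2

/-! ### Unique products in torsion-free abelian groups -/

theorem uniqueSums_of_torsionFree {M : Type} [AddCommGroup M]
    (h : ∀ a : M, ∀ n : ℕ, 0 < n → n • a = 0 → a = 0) : UniqueSums M := by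
  let V := LocalizedModule (nonZeroDivisors ℤ) M
  let e : ℚ →+* Localization (nonZeroDivisors ℤ) :=
    (FractionRing.algEquiv ℤ ℚ).symm.toRingEquiv.toRingHom
  let _ : Module ℚ V := Module.compHom V e
  have hV : UniqueSums V := inferInstance
  have hinj : Function.Injective (LocalizedModule.mkLinearMap (nonZeroDivisors ℤ) M) := by
    intro a b hab
    simp only [LocalizedModule.mkLinearMap_apply] at hab
    rw [LocalizedModule.mk_eq] at hab
    obtain ⟨u, hu⟩ := hab
    have hu' : (u : ℤ) • (a - b) = 0 := by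
      rw [smul_sub, sub_eq_zero]
      simpa [Submonoid.smul_def] using hu
    have hu0 : (u : ℤ) ≠ 0 := nonZeroDivisors.coe_ne_zero u
    have h1 : (u : ℤ).natAbs • (a - b) = 0 := by
      rcases Int.natAbs_eq (u : ℤ) with h2 | h2
      · rw [h2] at hu'
        simpa using hu'
      · rw [h2] at hu'
        simpa using hu'
    exact sub_eq_zero.1 (h _ _ (Int.natAbs_pos.2 hu0) h1)
  exact UniqueSums.of_injective_addHom
    (LocalizedModule.mkLinearMap (nonZeroDivisors ℤ) M).toAddMonoidHom.toAddHom hinj hV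

theorem uniqueProds_of_torsionFree {A : Type} [CommGroup A]
    (h : ∀ a : A, ∀ n : ℕ, 0 < n → a ^ n = 1 → a = 1) : UniqueProds A := by
  have h1 : UniqueSums (Additive A) := uniqueSums_of_torsionFree (M := Additive A) (by
    intro a n hn ha
    exact h a.toMul n hn ha)
  have h2 : UniqueProds (Multiplicative (Additive A)) := inferInstance
  exact h2

theorem up_of_hom {Γ' Γ : Type} [Group Γ'] [Group Γ] (f : Γ' →* Γ) (h : UniqueProds Γ)
    (hk : UniqueProds f.ker) : UniqueProds Γ' where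
  uniqueMul_of_nonempty {A B} hA hB := by
    classical
    obtain ⟨q₁, hq₁, q₂, hq₂, hu⟩ := h.uniqueMul_of_nonempty (hA.image f) (hB.image f)
    obtain ⟨a₁, ha₁, rfl⟩ := Finset.mem_image.1 hq₁
    obtain ⟨b₁, hb₁, rfl⟩ := Finset.mem_image.1 hq₂
    let N : Finset f.ker := (A.image fun a => a₁⁻¹ * a).subtype (· ∈ f.ker)
    let M : Finset f.ker := (B.image fun b => b * b₁⁻¹).subtype (· ∈ f.ker)
    have hN : N.Nonempty := ⟨1, by
      simp only [N, Finset.mem_subtype, Finset.mem_image]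
      exact ⟨a₁, ha₁, by simp⟩⟩
    have hM : M.Nonempty := ⟨1, by
      simp only [M, Finset.mem_subtype, Finset.mem_image]
      exact ⟨b₁, hb₁, by simp⟩⟩
    obtain ⟨n, hn, m, hm, hnm⟩ := hk.uniqueMul_of_nonempty hN hM
    simp only [N, Finset.mem_subtype, Finset.mem_image] at hn
    simp only [M, Finset.mem_subtype, Finset.mem_image] at hm
    obtain ⟨a₀, ha₀, hn'⟩ := hn
    obtain ⟨b₀, hb₀, hm'⟩ := hm
    have hfa : f a₀ = f a₁ := by
      have := n.2
      rw [← hn', MonoidHom.mem_ker, map_mul, map_inv] at this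
      exact (inv_mul_eq_one.1 this).symm
    have hfb : f b₀ = f b₁ := by
      have := m.2
      rw [← hm', MonoidHom.mem_ker, map_mul, map_inv] at this
      exact mul_inv_eq_one.1 this
    refine ⟨a₀, ha₀, b₀, hb₀, ?_⟩
    intro a b ha hb hab
    have h1 : f a = f a₁ ∧ f b = f b₁ :=
      hu (Finset.mem_image_of_mem f ha) (Finset.mem_image_of_mem f hb) (by
        rw [← map_mul, hab, map_mul, hfa, hfb])
    have hma : a₁⁻¹ * a ∈ f.ker := by
      rw [MonoidHom.mem_ker, map_mul, map_inv, h1.1, inv_mul_cancel]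
    have hmb : b * b₁⁻¹ ∈ f.ker := by
      rw [MonoidHom.mem_ker, map_mul, map_inv, h1.2, mul_inv_cancel]
    have h2 := @hnm ⟨a₁⁻¹ * a, hma⟩ ⟨b * b₁⁻¹, hmb⟩ (by
      simp only [N, Finset.mem_subtype]
      exact Finset.mem_image_of_mem _ ha) (by
      simp only [M, Finset.mem_subtype]
      exact Finset.mem_image_of_mem _ hb) (by
      apply Subtype.ext
      simp only [Subgroup.coe_mul, ← hn', ← hm']
      rw [mul_assoc, ← mul_assoc a, hab]
      group)
    obtain ⟨h3, h4⟩ := h2
    have h3' := congrArg Subtype.val h3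
    have h4' := congrArg Subtype.val h4
    simp only [← hn', ← hm'] at h3' h4'
    exact ⟨mul_left_cancel h3', mul_right_cancel h4'⟩

/-! ### Folner sets -/

/-- Folner sets, in terms of the product set. -/
theorem folner_mul {Γ : Type} [Group Γ] [DecidableEq Γ]
    (h : ∀ (T : Finset Γ) (ε : ℝ), 0 < ε → ∃ S : Finset Γ, S.Nonempty ∧
      ∀ U : Finset Γ, (∀ u ∈ U, ∃ s ∈ S, ∃ t ∈ T, u = s * t) → (U.card : ℝ) ≤ (1 + ε) * S.card)
    (T : Finset Γ) (ε : ℝ) (hε : 0 < ε) :
    ∃ S : Finset Γ, S.Nonempty ∧ ((S * T).card : ℝ) ≤ (1 + ε) * S.card := by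
  obtain ⟨S, hS, hU⟩ := h T ε hε
  refine ⟨S, hS, hU _ ?_⟩
  intro u hu
  obtain ⟨s, hs, t, ht, rfl⟩ := Finset.mem_mul.1 hu
  exact ⟨s, hs, t, ht, rfl⟩

theorem folner_of_mul {Γ : Type} [Group Γ] [DecidableEq Γ]
    (h : ∀ (T : Finset Γ) (ε : ℝ), 0 < ε →
      ∃ S : Finset Γ, S.Nonempty ∧ ((S * T).card : ℝ) ≤ (1 + ε) * S.card)
    (T : Finset Γ) (ε : ℝ) (hε : 0 < ε) :
    ∃ S : Finset Γ, S.Nonempty ∧
      ∀ U : Finset Γ, (∀ u ∈ U, ∃ s ∈ S, ∃ t ∈ T, u = s * t) →
        (U.card : ℝ) ≤ (1 + ε) * S.card := by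
  obtain ⟨S, hS, hT⟩ := h T ε hε
  refine ⟨S, hS, fun U hU => le_trans ?_ hT⟩
  have : U ⊆ S * T := by
    intro u hu
    obtain ⟨s, hs, t, ht, rfl⟩ := hU u hu
    exact Finset.mul_mem_mul hs ht
  exact_mod_cast Finset.card_le_card this

/-- Folner sets in a subgroup, by averaging over the left cosets. -/
theorem folner_subgroup {Γ : Type} [Group Γ] [DecidableEq Γ]
    (h : ∀ (T : Finset Γ) (ε : ℝ), 0 < ε →
      ∃ S : Finset Γ, S.Nonempty ∧ ((S * T).card : ℝ) ≤ (1 + ε) * S.card)
    (H : Subgroup Γ) (T : Finset H) (ε : ℝ) (hε : 0 < ε) :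
    ∃ S : Finset H, S.Nonempty ∧ ((S * T).card : ℝ) ≤ (1 + ε) * S.card := by
  classical
  obtain ⟨S, hS, hT⟩ := h (T.map (Function.Embedding.subtype _)) ε hε
  let T' : Finset Γ := T.map (Function.Embedding.subtype _)
  let q : Γ → Γ ⧸ H := fun g => (g : Γ ⧸ H)
  have hq : ∀ s : Γ, ∀ t ∈ T', q (s * t) = q s := by
    intro s t ht
    obtain ⟨t', _, rfl⟩ := Finset.mem_map.1 ht
    simp [q]
  let I : Finset (Γ ⧸ H) := S.image q
  have hcS : S.card = ∑ i ∈ I, (S.filter fun s => q s = i).card :=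
    Finset.card_eq_sum_card_image q S
  have hcST : (S * T').card = ∑ i ∈ I, ((S * T').filter fun s => q s = i).card := by
    apply Finset.card_eq_sum_card_fiberwise
    intro x hx
    obtain ⟨s, hs, t, ht, rfl⟩ := Finset.mem_mul.1 hx
    have : q (s * t) ∈ I := by
      rw [hq s t ht]
      exact Finset.mem_image_of_mem q hs
    exact this
  have hsub : ∀ i, (S.filter fun s => q s = i) * T' ⊆ (S * T').filter fun s => q s = i := by
    intro i x hx
    obtain ⟨s, hs, t, ht, rfl⟩ := Finset.mem_mul.1 hx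
    rw [Finset.mem_filter] at hs ⊢
    exact ⟨Finset.mul_mem_mul hs.1 ht, by rw [hq s t ht]; exact hs.2⟩
  have hsum : ∑ i ∈ I, ((((S.filter fun s => q s = i) * T').card : ℝ)) ≤
      ∑ i ∈ I, (1 + ε) * ((S.filter fun s => q s = i).card : ℝ) := by
    rw [← Finset.mul_sum]
    calc ∑ i ∈ I, ((((S.filter fun s => q s = i) * T').card : ℝ))
        ≤ ∑ i ∈ I, ((((S * T').filter fun s => q s = i).card : ℝ)) :=
          Finset.sum_le_sum fun i _ => by exact_mod_cast Finset.card_le_card (hsub i)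
      _ = ((S * T').card : ℝ) := by rw [hcST]; push_cast; rfl
      _ ≤ (1 + ε) * S.card := hT
      _ = (1 + ε) * ∑ i ∈ I, ((S.filter fun s => q s = i).card : ℝ) := by
          rw [hcS]; push_cast; rfl
  obtain ⟨i, hi, hle⟩ := Finset.exists_le_of_sum_le (hS.image q) hsum
  obtain ⟨g, hg, hgi⟩ := Finset.mem_image.1 hi
  -- translate the coset into the subgroup
  let S₀ : Finset Γ := S.filter fun s => q s = i
  have hS₀ : ∀ s ∈ S₀, g⁻¹ * s ∈ H := by
    intro s hs
    have hs2 : q s = i := (Finset.mem_filter.1 hs).2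
    rw [← hgi] at hs2
    exact QuotientGroup.eq.1 hs2.symm
  let S₁ : Finset H := (S₀.image fun s => g⁻¹ * s).subtype (· ∈ H)
  have hS₁ : S₁.map (Function.Embedding.subtype _) = S₀.image fun s => g⁻¹ * s := by
    apply Finset.subtype_map_of_mem
    intro x hx
    obtain ⟨s, hs, rfl⟩ := Finset.mem_image.1 hx
    exact hS₀ s hs
  have hcard : S₁.card = S₀.card := by
    rw [← Finset.card_map (Function.Embedding.subtype (· ∈ H)), hS₁]
    exact Finset.card_image_of_injective _ (mul_right_injective g⁻¹)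
  refine ⟨S₁, ?_, ?_⟩
  · rw [← Finset.card_pos, hcard, Finset.card_pos]
    exact ⟨g, Finset.mem_filter.2 ⟨hg, hgi⟩⟩
  · rw [hcard]
    refine le_trans ?_ hle
    have h1 : ((S₁ * T).map (Function.Embedding.subtype _)) ⊆
        (S₀ * T').image fun s => g⁻¹ * s := by
      intro x hx
      obtain ⟨y, hy, rfl⟩ := Finset.mem_map.1 hx
      obtain ⟨s, hs, t, ht, rfl⟩ := Finset.mem_mul.1 hy
      have hs' : (s : Γ) ∈ S₁.map (Function.Embedding.subtype _) :=
        Finset.mem_map_of_mem _ hs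
      rw [hS₁] at hs'
      obtain ⟨s', hs', he⟩ := Finset.mem_image.1 hs'
      refine Finset.mem_image.2 ⟨s' * t, Finset.mul_mem_mul hs'
        (Finset.mem_map_of_mem _ ht), ?_⟩
      simp only [Function.Embedding.subtype_apply, Subgroup.coe_mul, ← he, mul_assoc]
    have h2 := Finset.card_le_card h1
    rw [Finset.card_map] at h2
    exact_mod_cast h2.trans Finset.card_image_le

/-- Polynomial growth of finite subsets of abelian groups. -/
theorem card_pow_le {A : Type} [CommGroup A] [DecidableEq A] (C : Finset A) (M : ℕ) :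
    (C ^ M).card ≤ (M + 1) ^ C.card := by
  classical
  have hmem : ∀ M : ℕ, ∀ x ∈ C ^ M, ∃ k : A → ℕ, (∀ c, k c ≤ M) ∧ x = ∏ c ∈ C, c ^ k c := by
    intro M
    induction M with
    | zero =>
      intro x hx
      rw [pow_zero, Finset.mem_one] at hx
      exact ⟨fun _ => 0, fun _ => le_rfl, by simp [hx]⟩
    | succ M ih =>
      intro x hx
      rw [pow_succ] at hx
      obtain ⟨y, hy, c₀, hc₀, rfl⟩ := Finset.mem_mul.1 hx
      obtain ⟨k, hk, rfl⟩ := ih y hy
      refine ⟨fun c => k c + if c = c₀ then 1 else 0, fun c => ?_, ?_⟩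
      · have := hk c
        show k c + (if c = c₀ then 1 else 0) ≤ M + 1
        split_ifs <;> omega
      · simp only [pow_add, Finset.prod_mul_distrib]
        congr 1
        rw [Finset.prod_eq_single_of_mem c₀ hc₀]
        · simp
        · intro c _ hc
          simp [hc]
  let F : (C → Fin (M + 1)) → A := fun k => ∏ c : C, (c : A) ^ (k c : ℕ)
  have hsub : C ^ M ⊆ Finset.univ.image F := by
    intro x hx
    obtain ⟨k, hk, rfl⟩ := hmem M x hx
    refine Finset.mem_image.2 ⟨fun c => ⟨k c, Nat.lt_succ_of_le (hk c)⟩, Finset.mem_univ _, ?_⟩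
    simp only [F]
    exact Finset.prod_coe_sort C (fun c => c ^ k c)
  calc (C ^ M).card ≤ (Finset.univ.image F).card := Finset.card_le_card hsub
    _ ≤ (Finset.univ : Finset (C → Fin (M + 1))).card := Finset.card_image_le
    _ = (M + 1) ^ C.card := by simp

theorem exists_pow_folner {A : Type} [CommGroup A] [DecidableEq A] (C : Finset A)
    (_hC : C.Nonempty) (ε : ℝ) (hε : 0 < ε) :
    ∃ M : ℕ, ((C ^ M * C).card : ℝ) ≤ (1 + ε) * (C ^ M).card := by
  by_contra hcon
  push Not at hcon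
  have h1 : ∀ M : ℕ, (1 + ε) ^ M ≤ ((C ^ M).card : ℝ) := by
    intro M
    induction M with
    | zero => simp
    | succ M ih =>
      rw [pow_succ, pow_succ]
      have := (hcon M).le
      nlinarith
  have h2 : ∀ M : ℕ, (1 + ε) ^ M ≤ ((M : ℝ) + 1) ^ C.card := by
    intro M
    refine (h1 M).trans ?_
    exact_mod_cast card_pow_le C M
  -- exponential beats polynomial
  have h3 : Filter.Tendsto (fun M : ℕ => ((M : ℝ) ^ C.card) / (1 + ε) ^ M) Filter.atTop
      (nhds 0) := tendsto_pow_const_div_const_pow_of_one_lt C.card (by linarith)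
  have h4 : Filter.Tendsto (fun M : ℕ => (((M + 1 : ℕ) : ℝ) ^ C.card) / (1 + ε) ^ (M + 1))
      Filter.atTop (nhds 0) := h3.comp (Filter.tendsto_add_atTop_nat 1)
  have h5 : ∀ M : ℕ, (1 : ℝ) / (1 + ε) ≤ (((M + 1 : ℕ) : ℝ) ^ C.card) / (1 + ε) ^ (M + 1) := by
    intro M
    have h6 := h2 M
    have h7 : (0 : ℝ) < (1 + ε) ^ M := by positivity
    rw [div_le_div_iff₀ (by positivity) (by positivity), pow_succ]
    push_cast
    have h8 : (0 : ℝ) < 1 + ε := by linarith
    nlinarith [mul_le_mul_of_nonneg_right h6 h8.le]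
  have h9 : (1 : ℝ) / (1 + ε) ≤ 0 := ge_of_tendsto' h4 h5
  have h10 : (0 : ℝ) < 1 / (1 + ε) := by positivity
  linarith

theorem folner_of_surjective {Γ' Γ : Type} [Group Γ'] [Group Γ] [DecidableEq Γ'] [DecidableEq Γ]
    (f : Γ' →* Γ) (hf : Function.Surjective f)
    (h : ∀ (T : Finset Γ) (ε : ℝ), 0 < ε →
      ∃ S : Finset Γ, S.Nonempty ∧ ((S * T).card : ℝ) ≤ (1 + ε) * S.card)
    (hab : ∀ a b : Γ', f a = 1 → f b = 1 → a * b = b * a)
    (T : Finset Γ') (ε : ℝ) (hε : 0 < ε) :
    ∃ S : Finset Γ', S.Nonempty ∧ ((S * T).card : ℝ) ≤ (1 + ε) * S.card := by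
  classical
  obtain ⟨sg, hsg⟩ := hf.hasRightInverse
  set δ : ℝ := min 1 (ε / 3) with hδ
  have hδ0 : 0 < δ := by positivity
  have hδ1 : δ ≤ 1 := min_le_left _ _
  have hδ2 : δ ≤ ε / 3 := min_le_right _ _
  obtain ⟨S₁, hS₁, hT₁⟩ := h (T.image f) δ hδ0
  let _ : CommGroup f.ker :=
    { (inferInstance : Group f.ker) with
      mul_comm := fun a b => Subtype.ext (hab a b a.2 b.2) }
  -- the cocycle
  let c : Γ × Γ' → Γ' := fun p => sg p.1 * p.2 * (sg (p.1 * f p.2))⁻¹
  have hc : ∀ p, c p ∈ f.ker := by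
    intro p
    rw [MonoidHom.mem_ker]
    simp only [c, map_mul, map_inv, hsg _]
    simp
  let C : Finset f.ker := insert 1 ((S₁ ×ˢ T).image fun p => (⟨c p, hc p⟩ : f.ker))
  obtain ⟨M, hM⟩ := exists_pow_folner C ⟨1, Finset.mem_insert_self _ _⟩ δ hδ0
  set B : Finset f.ker := C ^ M with hB
  have hBne : B.Nonempty := by
    rw [hB]
    exact Finset.Nonempty.pow ⟨1, Finset.mem_insert_self _ _⟩
  let g : f.ker × Γ → Γ' := fun p => (p.1 : Γ') * sg p.2
  have hg : Function.Injective g := by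
    rintro ⟨b, s⟩ ⟨b', s'⟩ hbs
    simp only [g] at hbs
    have hs : s = s' := by
      have := congrArg f hbs
      simp only [map_mul, hsg _, (MonoidHom.mem_ker).1 b.2, (MonoidHom.mem_ker).1 b'.2,
        one_mul] at this
      exact this
    subst hs
    have hb := mul_right_cancel hbs
    rw [Subtype.ext hb]
  let S : Finset Γ' := (B ×ˢ S₁).image g
  refine ⟨S, (hBne.product hS₁).image g, ?_⟩
  have hcS : S.card = B.card * S₁.card := by
    rw [Finset.card_image_of_injective _ hg, Finset.card_product]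
  have hsub : S * T ⊆ ((B * C) ×ˢ (S₁ * T.image f)).image g := by
    intro x hx
    obtain ⟨s, hs, t, ht, rfl⟩ := Finset.mem_mul.1 hx
    obtain ⟨⟨b, s₁⟩, hbs, rfl⟩ := Finset.mem_image.1 hs
    rw [Finset.mem_product] at hbs
    refine Finset.mem_image.2 ⟨(b * ⟨c (s₁, t), hc _⟩, s₁ * f t), ?_, ?_⟩
    · rw [Finset.mem_product]
      refine ⟨Finset.mul_mem_mul hbs.1 (Finset.mem_insert_of_mem
        (Finset.mem_image_of_mem _ (Finset.mem_product.2 ⟨hbs.2, ht⟩))),
        Finset.mul_mem_mul hbs.2 (Finset.mem_image_of_mem f ht)⟩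
    · simp only [g, c, Subgroup.coe_mul]
      group
  have h1 : ((S * T).card : ℝ) ≤ ((B * C).card : ℝ) * ((S₁ * T.image f).card : ℝ) := by
    have h2 := (Finset.card_le_card hsub).trans Finset.card_image_le
    rw [Finset.card_product] at h2
    exact_mod_cast h2
  have h3 : (0 : ℝ) ≤ (B.card : ℝ) := by positivity
  have h4 : (0 : ℝ) ≤ (S₁.card : ℝ) := by positivity
  calc ((S * T).card : ℝ) ≤ ((B * C).card : ℝ) * ((S₁ * T.image f).card : ℝ) := h1
    _ ≤ ((1 + δ) * B.card) * ((1 + δ) * S₁.card) :=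
        mul_le_mul hM hT₁ (by positivity) (by positivity)
    _ = ((1 + δ) * (1 + δ)) * ((B.card : ℝ) * S₁.card) := by ring
    _ ≤ (1 + ε) * ((B.card : ℝ) * S₁.card) := by
        apply mul_le_mul_of_nonneg_right _ (by positivity)
        nlinarith
    _ = (1 + ε) * S.card := by rw [hcS]; push_cast; ring

/-- HG2: extension by a torsion-free abelian group. -/
theorem tame_of_hom {Γ' Γ : Type} [Group Γ'] [Group Γ] (f : Γ' →* Γ) (h : Tame Γ)
    (hab : ∀ a b : Γ', f a = 1 → f b = 1 → a * b = b * a)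
    (htf : ∀ a : Γ', f a = 1 → ∀ n : ℕ, 0 < n → a ^ n = 1 → a = 1) : Tame Γ' := by
  classical
  constructor
  · let _ : CommGroup f.ker :=
      { (inferInstance : Group f.ker) with
        mul_comm := fun a b => Subtype.ext (hab a b a.2 b.2) }
    apply up_of_hom f h.up
    refine uniqueProds_of_torsionFree (A := f.ker) ?_
    intro a n hn ha
    apply Subtype.ext
    exact htf a a.2 n hn (by simpa using congrArg Subtype.val ha)
  · apply folner_of_mul
    apply folner_of_surjective f.rangeRestrict f.rangeRestrict_surjective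
    · exact folner_subgroup (folner_mul h.folner) f.range
    · intro a b ha hb
      exact hab a b (by simpa using congrArg Subtype.val ha) (by simpa using congrArg Subtype.val hb)

end Pool.Agent.Helper54.HG2
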