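import Mathlib

set_option autoImplicit false

namespace Pool.Agent.Helper54.Lamp

open AddMonoidAlgebra

/-- Multiplication by the monomial `X ^ b`, as an additive automorphism of the group ring `R[Q]`. -/
noncomputable def mulMonomial (R Q : Type) [CommRing R] [AddCommGroup Q] (b : Q) :
    AddMonoidAlgebra R Q ≃+ AddMonoidAlgebra R Q where
  toFun f := single b 1 * f
  invFun f := single (-b) 1 * f
  left_inv f := by
    change single (-b) 1 * (single b 1 * f) = f
    rw [← mul_assoc, single_mul_single, neg_add_cancel, mul_one, ← one_def, one_mul]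
  right_inv f := by
    change single b 1 * (single (-b) 1 * f) = f
    rw [← mul_assoc, single_mul_single, add_neg_cancel, mul_one, ← one_def, one_mul]
  map_add' := mul_add _

/-- The action of the additive group `Q` on (the additive group of) the group ring `R[Q]` by
multiplication with monomials: `b` sends `X ^ e` to `X ^ (b + e)`. -/
noncomputable def shiftHom (R Q : Type) [CommRing R] [AddCommGroup Q] :
    Multiplicative Q →* MulAut (Multiplicative (AddMonoidAlgebra R Q)) where
  toFun b := AddEquiv.toMultiplicative (mulMonomial R Q (Multiplicative.toAdd b))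
  map_one' := by
    refine MulEquiv.ext fun f => ?_
    change single (0 : Q) (1 : R) * f.toAdd = f.toAdd
    rw [← one_def, one_mul]
  map_mul' b c := by
    refine MulEquiv.ext fun f => ?_
    change single (Multiplicative.toAdd b + Multiplicative.toAdd c) (1 : R) * f.toAdd =
      single (Multiplicative.toAdd b) (1 : R) * (single (Multiplicative.toAdd c) (1 : R) * f.toAdd)
    rw [← mul_assoc, single_mul_single, mul_one]

/-- The wreath product `R ≀ Q = R[Q] ⋊ Q` of the additive group of the ring `R` with the additive
group `Q` (restricted wreath product). -/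
abbrev Wr (R Q : Type) [CommRing R] [AddCommGroup Q] : Type :=
  Multiplicative (AddMonoidAlgebra R Q) ⋊[shiftHom R Q] Multiplicative Q

/-- The group `R ≀ ℤ^k = R[X₁^{±1}, …, X_k^{±1}] ⋊ ℤ^k`. The Laurent polynomial ring is the
group ring of `ℤ^k` (with `ℤ^k` modelled by `Fin k → ℤ`). -/
abbrev Lamplighter (R : Type) [CommRing R] (k : ℕ) : Type := Wr R (Fin k → ℤ)

/-- Word length of `g` with respect to `S`: the least `n` such that `g` is a product of `n`
elements of `S ∪ S⁻¹`. -/
noncomputable def wordLength {G : Type} [Group G] (S : Set G) (g : G) : ℕ :=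
  sInf {n : ℕ | ∃ l : List G, l.length = n ∧ (∀ s ∈ l, s ∈ S ∨ s⁻¹ ∈ S) ∧ l.prod = g}

/-- `D(x, y)`: the least index of a normal subgroup `N` of finite index such that the images of
`x` and `y` in `G ⧸ N` are not conjugate (`⊤` if there is no such `N`). -/
noncomputable def depth {G : Type} [Group G] (x y : G) : ℕ∞ :=
  ⨅ (N : Subgroup G) (_ : N.Normal) (_ : N.FiniteIndex)
    (_ : ¬ IsConj (x : G ⧸ N) (y : G ⧸ N)), (N.index : ℕ∞)

/-- The conjugacy depth function `Conj_G(n)` of `G` with respect to `S`: the supremum of
`D(x, y)` over all non-conjugate `x, y` of word length at most `n`. -/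
noncomputable def conjDepth {G : Type} [Group G] (S : Set G) (n : ℕ) : ℕ∞ :=
  ⨆ (x : G) (y : G) (_ : wordLength S x ≤ n) (_ : wordLength S y ≤ n) (_ : ¬ IsConj x y),
    depth x y

/-- `f ≼ g`: there is a constant `C > 0` with `f n ≤ C * g (C * n)` for all `n`. (In particular all
values `f n` are finite.) -/
def Preceq (f : ℕ → ℕ∞) (g : ℕ → ℝ) : Prop :=
  ∃ C : ℕ, 0 < C ∧ ∀ n : ℕ, ∃ m : ℕ, f n = (m : ℕ∞) ∧ (m : ℝ) ≤ C * g (C * n)

end Pool.Agent.Helper54.Lamp
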