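import Pool.Agent.Helper54.LampMain

set_option autoImplicit false

namespace Pool.Agent.Helper54.Lamp

open AddMonoidAlgebra

variable {R : Type} [CommRing R] {k : ℕ}

/-- Sanity check: `R ≀ ℤ^k` is finitely generated when the additive group of `R` is generated
by `1`; this covers `R = ℤ` and `R = 𝔽_p`. -/
theorem lamplighter_fg (hR : ∀ r : R, ∃ n : ℤ, (n : R) = r) : Group.FG (Lamplighter R k) := by
  classical
  let T : Finset (Lamplighter R k) :=
    insert (mk (single 0 1) 0) (Finset.univ.image fun i : Fin k => mk 0 (Pi.single i 1))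
  rw [Group.fg_def]
  refine ⟨T, ?_⟩
  rw [eq_top_iff]
  -- translations
  have hT1 : ∀ b : Fin k → ℤ, (mk 0 b : Lamplighter R k) ∈ Subgroup.closure (T : Set (Lamplighter R k)) := by
    intro b
    change Multiplicative.ofAdd b ∈ (Subgroup.closure (T : Set (Lamplighter R k))).comap
      SemidirectProduct.inr
    have hb2 : b = ∑ i, b i • (Pi.single i (1 : ℤ) : Fin k → ℤ) := by
      conv_lhs => rw [pi_eq_sum_univ b]
      refine Finset.sum_congr rfl fun i _ => ?_
      congr 1
      funext j
      simp [Pi.single_apply, eq_comm]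
    rw [hb2, ofAdd_sum]
    refine Subgroup.prod_mem _ fun i _ => ?_
    rw [ofAdd_zsmul]
    refine Subgroup.zpow_mem _ ?_ _
    rw [Subgroup.mem_comap]
    refine Subgroup.subset_closure ?_
    change (mk 0 (Pi.single i 1) : Lamplighter R k) ∈ (T : Set (Lamplighter R k))
    rw [Finset.mem_coe]
    exact Finset.mem_insert_of_mem (Finset.mem_image_of_mem _ (Finset.mem_univ i))
  have hT2 : ∀ r : R, (mk (single 0 r) 0 : Lamplighter R k) ∈
      Subgroup.closure (T : Set (Lamplighter R k)) := by
    intro r
    obtain ⟨n, rfl⟩ := hR r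
    have : (mk (single 0 ((n : ℤ) : R)) 0 : Lamplighter R k) =
        SemidirectProduct.inl (Multiplicative.ofAdd (single (0 : Fin k → ℤ) (1 : R))) ^ n := by
      rw [← map_zpow, ← ofAdd_zsmul, AddMonoidAlgebra.smul_single, zsmul_one]
      rfl
    rw [this]
    refine Subgroup.zpow_mem _ (Subgroup.subset_closure ?_) _
    change (mk (single 0 1) 0 : Lamplighter R k) ∈ (T : Set (Lamplighter R k))
    rw [Finset.mem_coe]
    exact Finset.mem_insert_self _ _
  have hT3 : ∀ f : AddMonoidAlgebra R (Fin k → ℤ), (mk f 0 : Lamplighter R k) ∈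
      Subgroup.closure (T : Set (Lamplighter R k)) := by
    intro f
    induction f using AddMonoidAlgebra.induction_linear with
    | zero => rw [← one_eq]; exact Subgroup.one_mem _
    | add x y hx hy =>
      have : (mk (x + y) 0 : Lamplighter R k) = mk x 0 * mk y 0 := by
        rw [mk_mul, ← one_def, one_mul, add_zero]
      rw [this]
      exact Subgroup.mul_mem _ hx hy
    | single v r =>
      have : (mk (single v r) 0 : Lamplighter R k) = mk 0 v * mk (single 0 r) 0 * (mk 0 v)⁻¹ := by
        rw [mk_inv, mk_mul, mk_mul, single_mul_single]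
        simp
      rw [this]
      exact Subgroup.mul_mem _ (Subgroup.mul_mem _ (hT1 v) (hT2 r)) (Subgroup.inv_mem _ (hT1 v))
  intro x _
  obtain ⟨f, b, rfl⟩ := mk_surj x
  have : (mk f b : Lamplighter R k) = mk f 0 * mk 0 b := by
    rw [mk_mul]; simp
  rw [this]
  exact Subgroup.mul_mem _ (hT3 f) (hT1 b)

end Pool.Agent.Helper54.Lamp
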