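import Pool.Agent.Helper54.LampDefs

set_option autoImplicit false

namespace Pool.Agent.Helper54.Lamp

/-- If every element of `ℤ^k` is congruent modulo `Λ` to a vector with coordinates in `[0, N)`,
then `ℤ^k ⧸ Λ` is finite with at most `N ^ k` elements. -/
theorem card_quot_le {k : ℕ} (Λ : AddSubgroup (Fin k → ℤ)) (N : ℕ)
    (h : ∀ v : Fin k → ℤ, ∃ w : Fin k → ℤ, (∀ i, 0 ≤ w i ∧ w i < N) ∧ v - w ∈ Λ) :
    Finite ((Fin k → ℤ) ⧸ Λ) ∧ Nat.card ((Fin k → ℤ) ⧸ Λ) ≤ N ^ k := by
  let F : (Fin k → Fin N) → (Fin k → ℤ) ⧸ Λ := fun u => ((fun i => ((u i : ℕ) : ℤ)) : Fin k → ℤ)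
  have hF : Function.Surjective F := by
    intro q
    obtain ⟨v, rfl⟩ := QuotientAddGroup.mk_surjective q
    obtain ⟨w, hw, hvw⟩ := h v
    refine ⟨fun i => ⟨(w i).toNat, ?_⟩, ?_⟩
    · have := (hw i)
      omega
    · change ((fun i => (((w i).toNat : ℕ) : ℤ) : Fin k → ℤ) : (Fin k → ℤ) ⧸ Λ) = (v : (Fin k → ℤ) ⧸ Λ)
      have hww : (fun i => (((w i).toNat : ℕ) : ℤ) : Fin k → ℤ) = w := by
        funext i
        exact Int.toNat_of_nonneg (hw i).1
      rw [hww, QuotientAddGroup.eq]
      have : -w + v = v - w := by abel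
      rw [this]
      exact hvw
  refine ⟨Finite.of_surjective F hF, ?_⟩
  have h1 := Nat.card_le_card_of_surjective F hF
  simpa [Nat.card_eq_fintype_card] using h1

/-- For every `b` in the box of radius `m` there is a lattice `Λ ∋ b` of index at most
`(13 m) ^ k` all of whose vectors of sup norm at most `6 m` are multiples of `b`. -/
theorem exists_lattice {k m : ℕ} (hm : 1 ≤ m) (b : Fin k → ℤ) (hb : ∀ i, |b i| ≤ m) :
    ∃ Λ : AddSubgroup (Fin k → ℤ), b ∈ Λ ∧ Finite ((Fin k → ℤ) ⧸ Λ) ∧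
      Nat.card ((Fin k → ℤ) ⧸ Λ) ≤ (13 * m) ^ k ∧
      ∀ v ∈ Λ, (∀ i, |v i| ≤ 6 * m) → ∃ j : ℤ, v = j • b := by
  by_cases hb0 : b = 0
  · subst hb0
    let Λ : AddSubgroup (Fin k → ℤ) :=
      { carrier := {v | ∀ i, ((13 * m : ℕ) : ℤ) ∣ v i}
        add_mem' := fun {u v} hu hv i => dvd_add (hu i) (hv i)
        zero_mem' := fun i => dvd_zero _
        neg_mem' := fun {u} hu i => (dvd_neg).2 (hu i) }
    have hΛ : ∀ v, v ∈ Λ ↔ ∀ i, ((13 * m : ℕ) : ℤ) ∣ v i := fun v => Iff.rfl
    have hc := card_quot_le Λ (13 * m) (fun v => by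
      have hpos : (0 : ℤ) < ((13 * m : ℕ) : ℤ) := by positivity
      refine ⟨fun i => v i % ((13 * m : ℕ) : ℤ), fun i => ⟨Int.emod_nonneg _ hpos.ne',
        Int.emod_lt_of_pos _ hpos⟩, fun i => ?_⟩
      exact Int.dvd_self_sub_emod)
    refine ⟨Λ, Λ.zero_mem, hc.1, hc.2, fun v hv hbd => ⟨0, ?_⟩⟩
    funext i
    have h1 := (hΛ v).1 hv i
    have h2 := hbd i
    have h3 : v i = 0 := by
      apply Int.eq_zero_of_abs_lt_dvd h1
      push_cast
      have : (1 : ℤ) ≤ m := by exact_mod_cast hm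
      linarith
    simpa using h3
  · -- choose a coordinate of maximal absolute value
    have hne : ∃ i, b i ≠ 0 := by
      by_contra h
      push Not at h
      exact hb0 (funext h)
    obtain ⟨i1, hi1⟩ := hne
    obtain ⟨i0, -, hi0⟩ := Finset.exists_max_image Finset.univ (fun i => |b i|) ⟨i1, Finset.mem_univ _⟩
    have hmax : ∀ i, |b i| ≤ |b i0| := fun i => hi0 i (Finset.mem_univ _)
    have hpos : 0 < |b i0| := lt_of_lt_of_le (abs_pos.2 hi1) (hmax i1)
    have hbi0 : b i0 ≠ 0 := abs_pos.1 hpos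
    have hmZ : (1 : ℤ) ≤ m := by exact_mod_cast hm
    let Λ : AddSubgroup (Fin k → ℤ) :=
      { carrier := {v | ∃ j : ℤ, v i0 = j * b i0 ∧ ∀ i, i ≠ i0 → ((13 * m : ℕ) : ℤ) ∣ v i - j * b i}
        add_mem' := by
          rintro u v ⟨j, hj, hj'⟩ ⟨l, hl, hl'⟩
          refine ⟨j + l, ?_, fun i hi => ?_⟩
          · simp only [Pi.add_apply, hj, hl]; ring
          · have := dvd_add (hj' i hi) (hl' i hi)
            have e : (u + v) i - (j + l) * b i = u i - j * b i + (v i - l * b i) := by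
              simp only [Pi.add_apply]; ring
            rw [e]; exact this
        zero_mem' := ⟨0, by simp, fun i _ => by simp⟩
        neg_mem' := by
          rintro u ⟨j, hj, hj'⟩
          refine ⟨-j, ?_, fun i hi => ?_⟩
          · simp only [Pi.neg_apply, hj]; ring
          · have := (dvd_neg).2 (hj' i hi)
            have e : (-u) i - (-j) * b i = -(u i - j * b i) := by
              simp only [Pi.neg_apply]; ring
            rw [e]; exact this }
    have hΛ : ∀ v, v ∈ Λ ↔ ∃ j : ℤ, v i0 = j * b i0 ∧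
      ∀ i, i ≠ i0 → ((13 * m : ℕ) : ℤ) ∣ v i - j * b i := fun v => Iff.rfl
    have hNpos : (0 : ℤ) < ((13 * m : ℕ) : ℤ) := by positivity
    have hc := card_quot_le Λ (13 * m) (fun v => by
      let j : ℤ := v i0 / b i0
      refine ⟨fun i => if i = i0 then v i0 % b i0 else (v i - j * b i) % ((13 * m : ℕ) : ℤ),
        fun i => ?_, ?_⟩
      · by_cases hi : i = i0
        · simp only [hi, if_true]
          refine ⟨Int.emod_nonneg _ hbi0, ?_⟩
          have h1 := Int.emod_lt_abs (v i0) hbi0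
          have h2 := hb i0
          push_cast
          linarith
        · simp only [hi, if_false]
          exact ⟨Int.emod_nonneg _ hNpos.ne', Int.emod_lt_of_pos _ hNpos⟩
      · rw [hΛ]
        refine ⟨j, ?_, fun i hi => ?_⟩
        · simp only [Pi.sub_apply, if_true]
          have := Int.emod_add_mul_ediv (v i0) (b i0)
          have e : j = v i0 / b i0 := rfl
          rw [e]
          linarith [mul_comm (b i0) (v i0 / b i0)]
        · simp only [Pi.sub_apply, hi, if_false]
          have e : v i - (v i - j * b i) % ((13 * m : ℕ) : ℤ) - j * b i =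
            (v i - j * b i) - (v i - j * b i) % ((13 * m : ℕ) : ℤ) := by ring
          rw [e]
          exact Int.dvd_self_sub_emod)
    refine ⟨Λ, ?_, hc.1, hc.2, fun v hv hbd => ?_⟩
    · rw [hΛ]
      exact ⟨1, by ring, fun i _ => by simp⟩
    · obtain ⟨j, hj, hj'⟩ := (hΛ v).1 hv
      refine ⟨j, ?_⟩
      funext i
      have hkey : |j * b i| ≤ 6 * m := by
        calc |j * b i| = |j| * |b i| := abs_mul _ _
          _ ≤ |j| * |b i0| := mul_le_mul_of_nonneg_left (hmax i) (abs_nonneg _)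
          _ = |v i0| := by rw [hj, abs_mul]
          _ ≤ 6 * m := hbd i0
      by_cases hi : i = i0
      · subst hi
        simpa using hj
      · have h1 := hj' i hi
        have h2 : v i - j * b i = 0 := by
          apply Int.eq_zero_of_abs_lt_dvd h1
          have h3 : |v i - j * b i| ≤ |v i| + |j * b i| := abs_sub _ _
          have h4 := hbd i
          push_cast
          linarith
        simp only [Pi.smul_apply, smul_eq_mul]
        linarith

end Pool.Agent.Helper54.Lamp
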