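import Pool.Agent.Helper54.LampLattice

set_option autoImplicit false

namespace Pool.Agent.Helper54.Lamp

open AddMonoidAlgebra

section basic

variable {R A P Q : Type} [CommRing R] [CommRing A] [AddCommGroup P] [AddCommGroup Q]

/-- The element `(f, b)` of `R ≀ Q`. -/
noncomputable def mk (f : AddMonoidAlgebra R Q) (b : Q) : Wr R Q :=
  ⟨Multiplicative.ofAdd f, Multiplicative.ofAdd b⟩

theorem mk_surj (x : Wr R Q) : ∃ f b, x = mk (R := R) (Q := Q) f b :=
  ⟨x.left.toAdd, x.right.toAdd, rfl⟩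

theorem mk_mul (f g : AddMonoidAlgebra R Q) (b c : Q) :
    mk f b * mk g c = mk (f + single b 1 * g) (b + c) := rfl

theorem mk_inj {f g : AddMonoidAlgebra R Q} {b c : Q} (h : mk f b = mk g c) : f = g ∧ b = c := by
  have h1 := congrArg SemidirectProduct.left h
  have h2 := congrArg SemidirectProduct.right h
  exact ⟨h1, h2⟩

theorem one_eq : (1 : Wr R Q) = mk 0 0 := rfl

theorem mk_inv (f : AddMonoidAlgebra R Q) (b : Q) :
    (mk f b)⁻¹ = mk (-(single (-b) 1 * f)) (-b) := by
  rw [inv_eq_iff_mul_eq_one, mk_mul, one_eq]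
  congr 1
  · rw [mul_neg, ← mul_assoc, single_mul_single, add_neg_cancel, mul_one, ← one_def, one_mul,
      add_neg_cancel]
  · exact add_neg_cancel b

theorem isConj_mk {f g h : AddMonoidAlgebra R Q} {b m : Q}
    (hh : h + single m 1 * f = g + single b 1 * h) : IsConj (mk f b) (mk g b) := by
  rw [isConj_iff]
  refine ⟨mk h m, ?_⟩
  rw [mul_inv_eq_iff_eq_mul, mk_mul, mk_mul, hh, add_comm m b]

theorem isConj_zero {f g : AddMonoidAlgebra R Q}
    (h : IsConj (mk f 0) (mk g 0)) : ∃ m : Q, single m 1 * f = g := by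
  rw [isConj_iff] at h
  obtain ⟨c, hc⟩ := h
  obtain ⟨h, m, rfl⟩ := mk_surj c
  rw [mul_inv_eq_iff_eq_mul, mk_mul, mk_mul] at hc
  have h1 := (mk_inj hc).1
  refine ⟨m, ?_⟩
  have h2 : (single (0 : Q) (1 : R)) = 1 := (one_def).symm
  rw [h2, one_mul, add_comm g h] at h1
  exact add_left_cancel h1

/-- The ring homomorphism `R[P] → A[Q]` induced by `ρ : R → A` and `π : P → Q`. -/
noncomputable def algMap (ρ : R →+* A) (π : P →+ Q) : AddMonoidAlgebra R P →+* AddMonoidAlgebra A Q :=
  (mapRingHom Q ρ).comp (mapDomainRingHom R π)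

theorem algMap_single (ρ : R →+* A) (π : P →+ Q) (b : P) (r : R) :
    algMap ρ π (single b r) = single (π b) (ρ r) := by
  simp [algMap]

/-- Functoriality of the wreath product, as a map. -/
noncomputable def mapFun (ρ : R →+* A) (π : P →+ Q) (x : Wr R P) : Wr A Q :=
  mk (algMap ρ π x.left.toAdd) (π x.right.toAdd)

theorem mapFun_mk (ρ : R →+* A) (π : P →+ Q) (f : AddMonoidAlgebra R P) (b : P) :
    mapFun ρ π (mk f b) = mk (algMap ρ π f) (π b) := rfl

theorem mapFun_mul (ρ : R →+* A) (π : P →+ Q) (x y : Wr R P) :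
    mapFun ρ π (x * y) = mapFun ρ π x * mapFun ρ π y := by
  obtain ⟨f, b, rfl⟩ := mk_surj x
  obtain ⟨g, c, rfl⟩ := mk_surj y
  rw [mk_mul, mapFun_mk, mapFun_mk, mapFun_mk, mk_mul, map_add, map_mul, algMap_single, map_one,
    map_add]

theorem mapFun_one (ρ : R →+* A) (π : P →+ Q) : mapFun ρ π 1 = 1 := by
  rw [one_eq, mapFun_mk, map_zero, map_zero, one_eq]

/-- Functoriality of the wreath product. -/
noncomputable def mapWr (ρ : R →+* A) (π : P →+ Q) : Wr R P →* Wr A Q where
  toFun := mapFun ρ π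
  map_one' := mapFun_one ρ π
  map_mul' := mapFun_mul ρ π

theorem mapWr_mk (ρ : R →+* A) (π : P →+ Q) (f : AddMonoidAlgebra R P) (b : P) :
    mapWr ρ π (mk f b) = mk (algMap ρ π f) (π b) := rfl

end basic

section depth

theorem depth_le_of_hom {G H : Type} [Group G] [Group H] [Finite H] (ψ : G →* H) {x y : G}
    (hxy : ¬ IsConj (ψ x) (ψ y)) : depth x y ≤ (Nat.card H : ℕ∞) := by
  have hfin : ψ.ker.FiniteIndex := inferInstance
  have hnc : ¬ IsConj (x : G ⧸ ψ.ker) (y : G ⧸ ψ.ker) := by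
    intro h
    apply hxy
    have := MonoidHom.map_isConj (QuotientGroup.kerLift ψ) h
    simpa using this
  have hnorm : ψ.ker.Normal := MonoidHom.normal_ker ψ
  refine (iInf_le_of_le ψ.ker (iInf_le_of_le hnorm
    (iInf_le_of_le hfin (iInf_le_of_le hnc le_rfl)))).trans ?_
  rw [Subgroup.index_ker]
  exact_mod_cast Nat.card_le_card_of_injective (fun z : ψ.range => (z : H)) Subtype.val_injective

end depth

section card

variable {A Q : Type} [CommRing A] [AddCommGroup Q]

theorem finite_wr [Finite A] [Finite Q] : Finite (Wr A Q) := by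
  have e1 : AddMonoidAlgebra A Q ≃ (Q → A) :=
    (coeffEquiv (R := A) (M := Q)).trans Finsupp.equivFunOnFinite
  have : Finite (AddMonoidAlgebra A Q) := Finite.of_equiv _ e1.symm
  have e2 : Wr A Q ≃ Multiplicative (AddMonoidAlgebra A Q) × Multiplicative Q :=
    SemidirectProduct.equivProd
  exact Finite.of_equiv _ e2.symm

theorem card_wr [Finite A] [Finite Q] : Nat.card (Wr A Q) = Nat.card A ^ Nat.card Q * Nat.card Q := by
  have e1 : AddMonoidAlgebra A Q ≃ (Q → A) :=
    (coeffEquiv (R := A) (M := Q)).trans Finsupp.equivFunOnFinite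
  have e2 : Wr A Q ≃ Multiplicative (AddMonoidAlgebra A Q) × Multiplicative Q :=
    SemidirectProduct.equivProd
  rw [Nat.card_congr e2, Nat.card_prod]
  have h1 : Nat.card (Multiplicative (AddMonoidAlgebra A Q)) = Nat.card A ^ Nat.card Q := by
    rw [Nat.card_congr (Multiplicative.toAdd (α := AddMonoidAlgebra A Q)), Nat.card_congr e1,
      Nat.card_fun]
  have h2 : Nat.card (Multiplicative Q) = Nat.card Q := Nat.card_congr Multiplicative.toAdd
  rw [h1, h2]

end card

end Pool.Agent.Helper54.Lamp
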