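import Pool.Agent.Helper54.LampMain

set_option autoImplicit false

namespace Pool.Agent.Helper54.Lamp

open AddMonoidAlgebra

section ker

variable {R Q : Type} [CommRing R] [AddCommGroup Q]

/-- The additive map `h ↦ h - X^b h`. -/
noncomputable def Dmap (b : Q) : AddMonoidAlgebra R Q →+ AddMonoidAlgebra R Q :=
  AddMonoidHom.id _ - AddMonoidHom.mulLeft (single b 1)

theorem Dmap_apply (b : Q) (h : AddMonoidAlgebra R Q) : Dmap b h = h - single b 1 * h := rfl

theorem step_mem (b v : Q) (r : R) :
    (single (v + b) r : AddMonoidAlgebra R Q) - single v r ∈ (Dmap (R := R) b).range := by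
  refine ⟨-single v r, ?_⟩
  rw [Dmap_apply, mul_neg, single_mul_single, one_mul, add_comm b v]
  abel

theorem telescope (b v : Q) (r : R) (j : ℤ) :
    (single (v + j • b) r : AddMonoidAlgebra R Q) - single v r ∈ (Dmap (R := R) b).range := by
  induction j using Int.induction_on with
  | zero => simp
  | succ i ih =>
    have h1 := step_mem (R := R) b (v + (i : ℤ) • b) r
    have h2 := AddSubgroup.add_mem _ h1 ih
    have e : v + ((i : ℤ) + 1) • b = v + (i : ℤ) • b + b := by rw [add_smul, one_smul, add_assoc]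
    rw [e]
    simpa using h2
  | pred i ih =>
    have h1 := step_mem (R := R) b (v + (-(i : ℤ) - 1) • b) r
    have e : v + (-(i : ℤ) - 1) • b + b = v + (-(i : ℤ)) • b := by
      rw [sub_smul, one_smul]; abel
    rw [e] at h1
    have h2 := AddSubgroup.sub_mem _ ih h1
    simpa using h2

/-- A choice of representatives modulo the multiples of `b`. -/
noncomputable def rep (b : Q) (v : Q) : Q :=
  (QuotientAddGroup.mk v : Q ⧸ AddSubgroup.zmultiples b).out

theorem rep_spec (b v : Q) : ∃ j : ℤ, rep b v + j • b = v := by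
  have h : (QuotientAddGroup.mk (rep b v) : Q ⧸ AddSubgroup.zmultiples b) = QuotientAddGroup.mk v :=
    Quotient.out_eq' _
  rw [QuotientAddGroup.eq, AddSubgroup.mem_zmultiples_iff] at h
  obtain ⟨j, hj⟩ := h
  exact ⟨j, by rw [hj]; abel⟩

theorem rep_eq_iff (b v w : Q) : rep b v = rep b w ↔ ∃ j : ℤ, v - w = j • b := by
  constructor
  · intro h
    obtain ⟨j, hj⟩ := rep_spec b v
    obtain ⟨l, hl⟩ := rep_spec b w
    refine ⟨j - l, ?_⟩
    rw [← hj, ← hl, h, sub_smul]
    abel
  · rintro ⟨j, hj⟩
    have : (QuotientAddGroup.mk v : Q ⧸ AddSubgroup.zmultiples b) = QuotientAddGroup.mk w := by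
      rw [QuotientAddGroup.eq, AddSubgroup.mem_zmultiples_iff]
      refine ⟨-j, ?_⟩
      rw [neg_smul, ← hj]
      abel
    unfold rep
    rw [this]

theorem sub_rep_mem (b : Q) (u : AddMonoidAlgebra R Q) :
    u - mapDomain (rep b) u ∈ (Dmap (R := R) b).range := by
  induction u using AddMonoidAlgebra.induction_linear with
  | zero => simp
  | add x y hx hy =>
    rw [mapDomain_add]
    have := AddSubgroup.add_mem _ hx hy
    have e : x + y - (mapDomain (rep b) x + mapDomain (rep b) y) =
      x - mapDomain (rep b) x + (y - mapDomain (rep b) y) := by abel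
    rw [e]; exact this
  | single v r =>
    rw [mapDomain_single]
    obtain ⟨j, hj⟩ := rep_spec b v
    have := telescope (R := R) b (rep b v) r j
    rw [hj] at this
    exact this

theorem mem_range_of_rep (b : Q) (u : AddMonoidAlgebra R Q) (h : mapDomain (rep b) u = 0) :
    u ∈ (Dmap (R := R) b).range := by
  have := sub_rep_mem b u
  rwa [h, sub_zero] at this

end ker

section coeffs

variable {R A P Q : Type} [CommRing R] [CommRing A] [AddCommGroup P] [AddCommGroup Q]

theorem coeff_mapDomain_apply [DecidableEq Q] (f : P → Q) (u : AddMonoidAlgebra R P) (z : Q) :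
    (mapDomain f u).coeff z = ∑ v ∈ u.coeff.support with f v = z, u.coeff v := by
  change (Finsupp.mapDomain f u.coeff) z = _
  rw [Finsupp.mapDomain, Finsupp.sum_apply, Finsupp.sum, Finset.sum_filter]
  refine Finset.sum_congr rfl fun v _ => ?_
  rw [Finsupp.single_apply]

theorem coeff_algMap [DecidableEq Q] (ρ : R →+* A) (π : P →+ Q) (u : AddMonoidAlgebra R P) (q : Q) :
    (algMap ρ π u).coeff q = ρ (∑ v ∈ u.coeff.support with π v = q, u.coeff v) := by
  have h : algMap ρ π u = mapRingHom Q ρ (mapDomain π u) := rfl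
  rw [h, coeff_mapRingHom, coeff_mapDomain_apply]

/-- The `ν`-weight of every finite part of `f` is at most `m`. -/
def NB (ν : R → ℕ) (m : ℕ) (f : AddMonoidAlgebra R P) : Prop :=
  ∀ T : Finset P, ∑ v ∈ T, ν (f.coeff v) ≤ m

/-- `f` is supported in the box of radius `m`. -/
def SB {k : ℕ} (m : ℕ) (f : AddMonoidAlgebra R (Fin k → ℤ)) : Prop :=
  ∀ v, f.coeff v ≠ 0 → ∀ i, |v i| ≤ m

variable {ν : R → ℕ}

theorem NB.add (hadd : ∀ a b, ν (a + b) ≤ ν a + ν b) {m n : ℕ} {f g : AddMonoidAlgebra R P}
    (hf : NB ν m f) (hg : NB ν n g) : NB ν (m + n) (f + g) := by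
  intro T
  calc ∑ v ∈ T, ν ((f + g).coeff v) ≤ ∑ v ∈ T, (ν (f.coeff v) + ν (g.coeff v)) :=
        Finset.sum_le_sum fun v _ => by
          rw [coeff_add, Finsupp.add_apply]; exact hadd _ _
    _ = _ := Finset.sum_add_distrib
    _ ≤ m + n := Nat.add_le_add (hf T) (hg T)

theorem NB.neg (hneg : ∀ a, ν (-a) = ν a) {m : ℕ} {f : AddMonoidAlgebra R P}
    (hf : NB ν m f) : NB ν m (-f) := by
  intro T
  calc ∑ v ∈ T, ν ((-f).coeff v) = ∑ v ∈ T, ν (f.coeff v) :=
        Finset.sum_congr rfl fun v _ => by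
          rw [coeff_neg, Finsupp.neg_apply, hneg]
    _ ≤ m := hf T

theorem NB.shift {m : ℕ} {f : AddMonoidAlgebra R P} (hf : NB ν m f) (b : P) :
    NB ν m (single b 1 * f) := by
  intro T
  calc ∑ v ∈ T, ν ((single b 1 * f).coeff v) = ∑ v ∈ T, ν (f.coeff (-b + v)) :=
        Finset.sum_congr rfl fun v _ => by
          rw [coeff_single_mul_apply, one_mul]
    _ = ∑ v ∈ T.map (addLeftEmbedding (-b)), ν (f.coeff v) := by
          rw [Finset.sum_map]; rfl
    _ ≤ m := hf _

theorem NB.mono {m n : ℕ} (h : m ≤ n) {f : AddMonoidAlgebra R P} (hf : NB ν m f) : NB ν n f :=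
  fun T => (hf T).trans h

theorem SB.add {k m n : ℕ} {f g : AddMonoidAlgebra R (Fin k → ℤ)} (hmn : m ≤ n)
    (hf : SB m f) (hg : SB n g) : SB n (f + g) := by
  intro v hv i
  by_cases h : f.coeff v = 0
  · refine hg v ?_ i
    rw [coeff_add, Finsupp.add_apply, h, zero_add] at hv
    exact hv
  · exact (hf v h i).trans (by exact_mod_cast hmn)

theorem SB.neg {k m : ℕ} {f : AddMonoidAlgebra R (Fin k → ℤ)}
    (hf : SB m f) : SB m (-f) := by
  intro v hv i
  refine hf v ?_ i
  rw [coeff_neg, Finsupp.neg_apply, neg_ne_zero] at hv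
  exact hv

theorem SB.shift {k m n : ℕ} {f : AddMonoidAlgebra R (Fin k → ℤ)}
    (hf : SB m f) (b : Fin k → ℤ) (hb : ∀ i, |b i| ≤ n) : SB (m + n) (single b 1 * f) := by
  intro v hv i
  rw [coeff_single_mul_apply, one_mul] at hv
  have h1 := hf _ hv i
  have h2 := hb i
  simp only [Pi.add_apply, Pi.neg_apply] at h1
  push_cast
  have h3 : |v i| ≤ |-b i + v i| + |b i| := by
    calc |v i| = |(-b i + v i) + b i| := by ring_nf
      _ ≤ _ := abs_add_le _ _
  linarith

theorem SB.mono {k m n : ℕ} (h : m ≤ n) {f : AddMonoidAlgebra R (Fin k → ℤ)} (hf : SB m f) :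
    SB n f :=
  fun v hv i => (hf v hv i).trans (by exact_mod_cast h)

end coeffs

section sep

variable {R A : Type} [CommRing R] [CommRing A] {k : ℕ}

theorem inj_lemma (ρ : R →+* A) (ν : R → ℕ) (h0 : ν 0 = 0) (hadd : ∀ a b, ν (a + b) ≤ ν a + ν b)
    (m : ℕ) (hρ : ∀ a, ν a ≤ 2 * m → ρ a = 0 → a = 0)
    (Λ : AddSubgroup (Fin k → ℤ)) (b : Fin k → ℤ) (hb : b ∈ Λ)
    (hΛ : ∀ v ∈ Λ, (∀ i, |v i| ≤ 6 * m) → ∃ j : ℤ, v = j • b)
    (u : AddMonoidAlgebra R (Fin k → ℤ)) (hu : NB ν (2 * m) u) (su : SB (3 * m) u)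
    (himg : algMap ρ (QuotientAddGroup.mk' Λ) u = 0) :
    ∃ h, u = h - single b 1 * h := by
  classical
  have key : mapDomain (rep b) u = 0 := by
    refine AddMonoidAlgebra.ext (Finsupp.ext fun z => ?_)
    rw [coeff_mapDomain_apply, coeff_zero, Finsupp.zero_apply]
    by_cases hne : (u.coeff.support.filter (fun v => rep b v = z)).Nonempty
    · obtain ⟨v0, hv0⟩ := hne
      rw [Finset.mem_filter, Finsupp.mem_support_iff] at hv0
      have hset : u.coeff.support.filter (fun v => rep b v = z) =
          u.coeff.support.filter (fun v => QuotientAddGroup.mk' Λ v = QuotientAddGroup.mk' Λ v0) := by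
        ext v
        simp only [Finset.mem_filter, Finsupp.mem_support_iff]
        refine and_congr_right fun hv => ?_
        rw [← hv0.2, rep_eq_iff]
        constructor
        · rintro ⟨j, hj⟩
          rw [QuotientAddGroup.mk'_apply, QuotientAddGroup.mk'_apply, QuotientAddGroup.eq]
          have e : -v + v0 = -(j • b) := by rw [← hj]; abel
          rw [e]
          exact Λ.neg_mem (Λ.zsmul_mem hb j)
        · intro h
          rw [QuotientAddGroup.mk'_apply, QuotientAddGroup.mk'_apply, QuotientAddGroup.eq] at h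
          have e : v - v0 = -(-v + v0) := by abel
          refine hΛ _ (by rw [e]; exact Λ.neg_mem h) fun i => ?_
          have h1 := su v hv i
          have h2 := su v0 hv0.1 i
          push_cast at h1 h2
          simp only [Pi.sub_apply]
          calc |v i - v0 i| ≤ |v i| + |v0 i| := abs_sub _ _
            _ ≤ 6 * m := by linarith
      rw [hset]
      have h1 := congrArg (fun w => w.coeff (QuotientAddGroup.mk' Λ v0)) himg
      simp only [coeff_zero, Finsupp.zero_apply] at h1
      rw [coeff_algMap] at h1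
      refine hρ _ ?_ h1
      refine le_trans ?_ (hu (u.coeff.support.filter
        (fun v => QuotientAddGroup.mk' Λ v = QuotientAddGroup.mk' Λ v0)))
      exact Finset.le_sum_of_subadditive ν h0.le hadd _ _
    · rw [Finset.not_nonempty_iff_eq_empty] at hne
      rw [hne, Finset.sum_empty]
  obtain ⟨h, hh⟩ := mem_range_of_rep b u key
  exact ⟨h, by rw [← hh, Dmap_apply]⟩

theorem algMap_ne_zero {Q : Type} [AddCommGroup Q] (ρ : R →+* A)
    (π : (Fin k → ℤ) →+ Q) (f : AddMonoidAlgebra R (Fin k → ℤ)) (q : Q)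
    (h : (algMap ρ π f).coeff q ≠ 0) : ∃ v, f.coeff v ≠ 0 ∧ π v = q := by
  classical
  by_contra hcon
  push Not at hcon
  apply h
  rw [coeff_algMap]
  have : f.coeff.support.filter (fun v => π v = q) = ∅ := by
    rw [Finset.filter_eq_empty_iff]
    intro v hv
    exact hcon v (Finsupp.mem_support_iff.1 hv)
  rw [this, Finset.sum_empty, map_zero]

/-- The separation theorem. -/
theorem depth_le [Finite A] (ρ : R →+* A) (ν : R → ℕ) (h0 : ν 0 = 0)
    (hadd : ∀ a b, ν (a + b) ≤ ν a + ν b) (hneg : ∀ a, ν (-a) = ν a)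
    (m : ℕ) (hm : 1 ≤ m) (hρ : ∀ a, ν a ≤ 2 * m → ρ a = 0 → a = 0)
    (f g : AddMonoidAlgebra R (Fin k → ℤ)) (b c : Fin k → ℤ)
    (hf : NB ν m f) (hg : NB ν m g) (sf : SB m f) (sg : SB m g)
    (hb : ∀ i, |b i| ≤ m) (hc : ∀ i, |c i| ≤ m)
    (hnc : ¬ IsConj (mk f b) (mk g c)) :
    depth (mk f b) (mk g c) ≤
      ((Nat.card A ^ ((13 * m) ^ k) * (13 * m) ^ k : ℕ) : ℕ∞) := by
  have hApos : 0 < Nat.card A := Nat.card_pos
  have hbound : ∀ N : ℕ, N ≤ (13 * m) ^ k →
      Nat.card A ^ N * N ≤ Nat.card A ^ ((13 * m) ^ k) * (13 * m) ^ k := fun N hN =>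
    Nat.mul_le_mul (Nat.pow_le_pow_right hApos hN) hN
  by_cases hbc : b = c
  · subst hbc
    obtain ⟨Λ, hbΛ, hfin, hcard, hΛ⟩ := exists_lattice hm b hb
    have hfinW : Finite (Wr A ((Fin k → ℤ) ⧸ Λ)) := finite_wr
    refine (depth_le_of_hom (mapWr ρ (QuotientAddGroup.mk' Λ)) ?_).trans ?_
    · intro hconj
      apply hnc
      have hb0 : QuotientAddGroup.mk' Λ b = 0 := by
        rw [QuotientAddGroup.mk'_apply, QuotientAddGroup.eq_zero_iff]; exact hbΛ
      rw [mapWr_mk, mapWr_mk, hb0] at hconj
      obtain ⟨q, hq⟩ := isConj_zero hconj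
      -- the final step: if `g - X^s f` dies in the quotient then the elements are conjugate
      have final : ∀ s : Fin k → ℤ, (∀ i, |s i| ≤ 2 * m) →
          algMap ρ (QuotientAddGroup.mk' Λ) (single s 1 * f) =
            algMap ρ (QuotientAddGroup.mk' Λ) g → IsConj (mk f b) (mk g b) := by
        intro s hs he
        have hu : NB ν (2 * m) (single s 1 * f + -g) := by
          have := NB.add hadd (hf.shift s) (hg.neg hneg)
          exact this.mono (by omega)
        have su : SB (3 * m) (single s 1 * f + -g) := by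
          have h1 : SB (m + 2 * m) (single s 1 * f) := sf.shift s (by
            intro i; push_cast; exact hs i)
          have h2 : SB (3 * m) (-g) := sg.neg.mono (by omega)
          exact SB.add (by omega) h1 h2
        obtain ⟨h, hh⟩ := inj_lemma ρ ν h0 hadd m hρ Λ b hbΛ hΛ _ hu su (by
          rw [map_add, map_neg, he, add_neg_cancel])
        refine isConj_mk (h := -h) (m := s) ?_
        have e1 : single s 1 * f = (h - single b 1 * h) + g := by
          rw [← hh]; abel
        rw [e1, mul_neg]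
        abel
      by_cases hfz : algMap ρ (QuotientAddGroup.mk' Λ) f = 0
      · refine final 0 (fun i => by simp) ?_
        rw [← hq, hfz, mul_zero, map_mul, hfz, mul_zero]
      · have : ∃ z, (algMap ρ (QuotientAddGroup.mk' Λ) f).coeff z ≠ 0 := by
          by_contra hcon
          push Not at hcon
          apply hfz
          exact AddMonoidAlgebra.ext (Finsupp.ext hcon)
        obtain ⟨z, hz⟩ := this
        obtain ⟨v, hv, hvz⟩ := algMap_ne_zero ρ _ f z hz
        have hz2 : (algMap ρ (QuotientAddGroup.mk' Λ) g).coeff (q + z) ≠ 0 := by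
          rw [← hq, coeff_single_mul_apply, one_mul, neg_add_cancel_left]
          exact hz
        obtain ⟨w, hw, hwz⟩ := algMap_ne_zero ρ _ g _ hz2
        refine final (w - v) (fun i => ?_) ?_
        · have h1 := sf v hv i
          have h2 := sg w hw i
          simp only [Pi.sub_apply]
          calc |w i - v i| ≤ |w i| + |v i| := abs_sub _ _
            _ ≤ 2 * m := by linarith
        · rw [map_mul, algMap_single, map_one, ← hq]
          congr 2
          rw [map_sub, hwz, hvz, add_sub_cancel_right]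
    · rw [card_wr]
      exact_mod_cast hbound _ hcard
  · -- different translation parts: use `ℤ^k → ℤ^k / (13 m ℤ)^k`
    obtain ⟨Λ, -, hfin, hcard, hΛ⟩ := exists_lattice hm (0 : Fin k → ℤ) (by
      intro i; simp)
    have hfinW : Finite (Wr A ((Fin k → ℤ) ⧸ Λ)) := finite_wr
    refine (depth_le_of_hom (mapWr ρ (QuotientAddGroup.mk' Λ)) ?_).trans ?_
    · intro hconj
      apply hbc
      have h1 : IsConj (QuotientAddGroup.mk' Λ b |> Multiplicative.ofAdd)
          (QuotientAddGroup.mk' Λ c |> Multiplicative.ofAdd) :=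
        MonoidHom.map_isConj (SemidirectProduct.rightHom) hconj
      rw [isConj_iff_eq] at h1
      have h2 : QuotientAddGroup.mk' Λ b = QuotientAddGroup.mk' Λ c := Multiplicative.ofAdd.injective h1
      rw [QuotientAddGroup.mk'_apply, QuotientAddGroup.mk'_apply, QuotientAddGroup.eq] at h2
      obtain ⟨j, hj⟩ := hΛ _ h2 (fun i => by
        simp only [Pi.add_apply, Pi.neg_apply]
        have h3 := hb i
        have h4 := hc i
        have hmZ : (0 : ℤ) ≤ m := by positivity
        calc |-b i + c i| ≤ |-b i| + |c i| := abs_add_le _ _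
          _ = |b i| + |c i| := by rw [abs_neg]
          _ ≤ 6 * m := by linarith)
      rw [smul_zero] at hj
      exact neg_add_eq_zero.1 hj
    · rw [card_wr]
      exact_mod_cast hbound _ hcard

end sep

end Pool.Agent.Helper54.Lamp
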