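import Pool.Agent.Helper54.LampSep

set_option autoImplicit false

namespace Pool.Agent.Helper54.Lamp

open AddMonoidAlgebra

variable {R : Type} [CommRing R] {k : ℕ}

/-- All data of the element `x` are bounded by `m`. -/
def Bd (ν : R → ℕ) (m : ℕ) (x : Lamplighter R k) : Prop :=
  ∃ (f : AddMonoidAlgebra R (Fin k → ℤ)) (b : Fin k → ℤ),
    x = mk f b ∧ NB ν m f ∧ SB m f ∧ ∀ i, |b i| ≤ m

theorem Bd.mono {ν : R → ℕ} {m n : ℕ} (h : m ≤ n) {x : Lamplighter R k} (hx : Bd ν m x) :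
    Bd ν n x := by
  obtain ⟨f, b, rfl, h1, h2, h3⟩ := hx
  exact ⟨f, b, rfl, h1.mono h, h2.mono h, fun i => (h3 i).trans (by exact_mod_cast h)⟩

theorem exists_bd (ν : R → ℕ) (h0 : ν 0 = 0) (x : Lamplighter R k) : ∃ m, Bd ν m x := by
  classical
  obtain ⟨f, b, rfl⟩ := mk_surj x
  refine ⟨(∑ v ∈ f.coeff.support, ν (f.coeff v)) +
    ((∑ v ∈ f.coeff.support, ∑ i, (v i).natAbs) + ∑ i, (b i).natAbs), f, b, rfl, ?_, ?_, ?_⟩
  · intro T
    have h1 : ∑ v ∈ T, ν (f.coeff v) = ∑ v ∈ T.filter (fun v => f.coeff v ≠ 0), ν (f.coeff v) := by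
      rw [Finset.sum_filter_of_ne]
      intro v _ hv hfv
      exact hv (by rw [hfv, h0])
    have h2 : ∑ v ∈ T.filter (fun v => f.coeff v ≠ 0), ν (f.coeff v) ≤
        ∑ v ∈ f.coeff.support, ν (f.coeff v) := by
      refine Finset.sum_le_sum_of_subset ?_
      intro v hv
      rw [Finsupp.mem_support_iff]
      exact (Finset.mem_filter.1 hv).2
    omega
  · intro v hv i
    have h1 : (v i).natAbs ≤ ∑ i, (v i).natAbs :=
      Finset.single_le_sum (f := fun i => (v i).natAbs) (fun _ _ => Nat.zero_le _)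
        (Finset.mem_univ i)
    have h2 : ∑ i, (v i).natAbs ≤ ∑ v ∈ f.coeff.support, ∑ i, (v i).natAbs :=
      Finset.single_le_sum (f := fun v : Fin k → ℤ => ∑ i, (v i).natAbs)
        (fun _ _ => Nat.zero_le _) (Finsupp.mem_support_iff.2 hv)
    rw [Int.abs_eq_natAbs]
    exact_mod_cast (show (v i).natAbs ≤ _ by omega)
  · intro i
    have h1 : (b i).natAbs ≤ ∑ i, (b i).natAbs :=
      Finset.single_le_sum (f := fun i => (b i).natAbs) (fun _ _ => Nat.zero_le _)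
        (Finset.mem_univ i)
    rw [Int.abs_eq_natAbs]
    exact_mod_cast (show (b i).natAbs ≤ _ by omega)

theorem Bd.mul {ν : R → ℕ} (hadd : ∀ a b, ν (a + b) ≤ ν a + ν b) {m n : ℕ}
    {x y : Lamplighter R k} (hx : Bd ν m x) (hy : Bd ν n y) : Bd ν (m + n) (x * y) := by
  obtain ⟨f, b, rfl, h1, h2, h3⟩ := hx
  obtain ⟨g, c, rfl, k1, k2, k3⟩ := hy
  refine ⟨_, _, mk_mul _ _ _ _, NB.add hadd h1 (k1.shift b), ?_, ?_⟩
  · refine SB.add (m := m) (by omega) h2 ?_
    have := k2.shift b h3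
    rwa [add_comm] at this
  · intro i
    simp only [Pi.add_apply]
    push_cast
    exact (abs_add_le _ _).trans (add_le_add (h3 i) (k3 i))

theorem Bd.one (ν : R → ℕ) (h0 : ν 0 = 0) : Bd ν 0 (1 : Lamplighter R k) := by
  refine ⟨0, 0, one_eq, ?_, ?_, ?_⟩
  · intro T
    simp [h0]
  · intro v hv
    simp at hv
  · intro i
    simp

theorem Bd.list {ν : R → ℕ} (h0 : ν 0 = 0) (hadd : ∀ a b, ν (a + b) ≤ ν a + ν b) {M : ℕ}
    (l : List (Lamplighter R k)) (hl : ∀ t ∈ l, Bd ν M t) : Bd ν (M * l.length) l.prod := by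
  induction l with
  | nil => simpa using Bd.one ν h0
  | cons t l ih =>
    rw [List.prod_cons, List.length_cons, Nat.mul_succ, add_comm]
    exact (hl t (by simp)).mul hadd (ih fun s hs => hl s (by simp [hs]))

theorem exists_list {G : Type} [Group G] {S : Set G} (hS : Subgroup.closure S = ⊤) (x : G) :
    ∃ l : List G, l.length = wordLength S x ∧ (∀ s ∈ l, s ∈ S ∨ s⁻¹ ∈ S) ∧ l.prod = x := by
  have hne : {n : ℕ | ∃ l : List G, l.length = n ∧ (∀ s ∈ l, s ∈ S ∨ s⁻¹ ∈ S) ∧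
      l.prod = x}.Nonempty := by
    have hx : x ∈ (Subgroup.closure S).toSubmonoid := by rw [hS]; trivial
    rw [Subgroup.closure_toSubmonoid] at hx
    obtain ⟨l, hl, hl'⟩ := Submonoid.exists_list_of_mem_closure hx
    refine ⟨l.length, l, rfl, fun s hs => ?_, hl'⟩
    rcases hl s hs with h | h
    · exact Or.inl h
    · exact Or.inr (Set.mem_inv.1 h)
  exact Nat.sInf_mem hne

/-- Elements of word length at most `n` have data bounded by `M * n`. -/
theorem bd_of_wordLength {ν : R → ℕ} (h0 : ν 0 = 0) (hadd : ∀ a b, ν (a + b) ≤ ν a + ν b)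
    {S : Set (Lamplighter R k)} (hfin : S.Finite) (hS : Subgroup.closure S = ⊤) :
    ∃ M : ℕ, 1 ≤ M ∧ ∀ n x, wordLength S x ≤ n → Bd ν (M * n) x := by
  classical
  choose μ hμ using exists_bd (R := R) (k := k) ν h0
  have hbound : ∀ t : Lamplighter R k, t ∈ S ∨ t⁻¹ ∈ S →
      Bd ν (1 + ∑ s ∈ hfin.toFinset, (μ s + μ s⁻¹)) t := by
    intro t ht
    rcases ht with ht | ht
    · refine (hμ t).mono ?_
      have := Finset.single_le_sum (f := fun s => μ s + μ s⁻¹) (fun _ _ => Nat.zero_le _)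
        (hfin.mem_toFinset.2 ht)
      omega
    · refine (hμ t).mono ?_
      have := Finset.single_le_sum (f := fun s => μ s + μ s⁻¹) (fun _ _ => Nat.zero_le _)
        (hfin.mem_toFinset.2 ht)
      simp only [inv_inv] at this
      omega
  refine ⟨1 + ∑ s ∈ hfin.toFinset, (μ s + μ s⁻¹), by omega, fun n x hx => ?_⟩
  obtain ⟨l, hlen, hl, rfl⟩ := exists_list hS x
  refine (Bd.list h0 hadd l fun t ht => hbound t (hl t ht)).mono ?_
  exact Nat.mul_le_mul_left _ (hlen.le.trans hx)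

theorem conjDepth_zero {G : Type} [Group G] {S : Set G} (hS : Subgroup.closure S = ⊤) :
    conjDepth S 0 = 0 := by
  have h1 : ∀ x : G, wordLength S x ≤ 0 → x = 1 := by
    intro x hx
    obtain ⟨l, hlen, -, rfl⟩ := exists_list hS x
    have : l = [] := List.length_eq_zero_iff.1 (by omega)
    rw [this, List.prod_nil]
  unfold conjDepth
  refine le_antisymm ?_ bot_le
  refine iSup_le fun x => iSup_le fun y => iSup_le fun hx => iSup_le fun hy => iSup_le fun hxy => ?_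
  exfalso
  apply hxy
  rw [h1 x hx, h1 y hy]

/-- General bound for the conjugacy depth function. -/
theorem conjDepth_le (ν : R → ℕ) (h0 : ν 0 = 0)
    (hadd : ∀ a b, ν (a + b) ≤ ν a + ν b) (hneg : ∀ a, ν (-a) = ν a)
    {S : Set (Lamplighter R k)} (hfin : S.Finite) (hS : Subgroup.closure S = ⊤) :
    ∃ M : ℕ, 1 ≤ M ∧ ∀ n : ℕ, 1 ≤ n → ∀ (A : Type) [CommRing A] [Finite A] (ρ : R →+* A),
      (∀ a, ν a ≤ 2 * (M * n) → ρ a = 0 → a = 0) →
      conjDepth S n ≤
        ((Nat.card A ^ ((13 * (M * n)) ^ k) * (13 * (M * n)) ^ k : ℕ) : ℕ∞) := by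
  obtain ⟨M, hM, hMb⟩ := bd_of_wordLength (ν := ν) h0 hadd hfin hS
  refine ⟨M, hM, fun n hn A _ _ ρ hρ => ?_⟩
  unfold conjDepth
  refine iSup_le fun x => iSup_le fun y => iSup_le fun hx => iSup_le fun hy => iSup_le fun hxy => ?_
  obtain ⟨f, b, rfl, h1, h2, h3⟩ := hMb n x hx
  obtain ⟨g, c, rfl, k1, k2, k3⟩ := hMb n y hy
  exact depth_le ρ ν h0 hadd hneg (M * n) (Nat.mul_pos hM hn) hρ f g b c h1 k1 h2 k2 h3 k3 hxy

end Pool.Agent.Helper54.Lamp
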