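import Mathlib

set_option autoImplicit false

/-!
Stiemke's alternative over `ℚ`, and its consequence for finitely generated commutative monoids: a
finitely generated commutative monoid whose only idempotent is `1` is a group or has a nonzero
homomorphism to `(ℕ, +)`.
-/

namespace Pool.Agent.Helper54.EndCanc

theorem stiemke (k : ℕ) : ∀ (W : Type) [AddCommGroup W] [Module ℚ W] (v : Fin k → W),
    (∃ l : W →ₗ[ℚ] ℚ, (∀ i, 0 ≤ l (v i)) ∧ ∃ i, 0 < l (v i)) ∨
      ∃ n : Fin k → ℚ, (∀ i, 0 < n i) ∧ ∑ i, n i • v i = 0 := by
  induction k with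
  | zero =>
    intro W _ _ v
    exact Or.inr ⟨fun _ => 1, fun i => i.elim0, by simp⟩
  | succ k ih =>
    intro W _ _ v
    rcases ih W (fun i => v i.succ) with ⟨l, hl, j, hj⟩ | ⟨m, hm, hm'⟩
    · rcases ih (W ⧸ Submodule.span ℚ {v 0}) (fun i => Submodule.Quotient.mk (v i.succ)) with
        ⟨l', hl', j', hj'⟩ | ⟨n, hn, hn'⟩
      · left
        refine ⟨l'.comp (Submodule.span ℚ {v 0}).mkQ, fun i => ?_, j'.succ, hj'⟩
        refine Fin.cases ?_ (fun i => hl' i) i
        have : (Submodule.span ℚ {v 0}).mkQ (v 0) = 0 := by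
          rw [Submodule.mkQ_apply, Submodule.Quotient.mk_eq_zero]
          exact Submodule.mem_span_singleton_self _
        simp only [LinearMap.comp_apply, this, map_zero, le_refl]
      · have h1 : ∑ i, n i • v i.succ ∈ Submodule.span ℚ {v 0} := by
          rw [← Submodule.Quotient.mk_eq_zero, ← Submodule.mkQ_apply, map_sum]
          simpa using hn'
        obtain ⟨c, hc⟩ := Submodule.mem_span_singleton.1 h1
        rcases lt_trichotomy c 0 with hc0 | hc0 | hc0
        · right
          refine ⟨Fin.cons (-c) n, fun i => ?_, ?_⟩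
          · refine Fin.cases ?_ (fun i => ?_) i
            · simpa using hc0
            · simpa using hn i
          · rw [Fin.sum_univ_succ]
            simp [← hc]
        · exfalso
          have h2 : l (∑ i, n i • v i.succ) = 0 := by rw [← hc, hc0, zero_smul, map_zero]
          rw [map_sum] at h2
          have h3 : 0 < ∑ i, l (n i • v i.succ) := by
            refine Finset.sum_pos' (fun i _ => ?_) ⟨j, Finset.mem_univ _, ?_⟩
            · rw [map_smul, smul_eq_mul]; exact mul_nonneg (hn i).le (hl i)
            · rw [map_smul, smul_eq_mul]; exact mul_pos (hn j) hj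
          rw [h2] at h3
          exact lt_irrefl _ h3
        · left
          refine ⟨l, fun i => ?_, j.succ, hj⟩
          refine Fin.cases ?_ (fun i => hl i) i
          have h2 : c * l (v 0) = ∑ i, n i * l (v i.succ) := by
            have := congrArg l hc
            rw [map_smul, map_sum, smul_eq_mul] at this
            rw [this]
            exact Finset.sum_congr rfl fun i _ => by rw [map_smul, smul_eq_mul]
          have h3 : 0 ≤ c * l (v 0) := by
            rw [h2]
            exact Finset.sum_nonneg fun i _ => mul_nonneg (hn i).le (hl i)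
          exact nonneg_of_mul_nonneg_right h3 hc0
    · by_cases hv : v 0 ∈ Submodule.span ℚ (Set.range fun i : Fin k => v i.succ)
      · right
        obtain ⟨c, hc⟩ := (Submodule.mem_span_range_iff_exists_fun ℚ).1 hv
        obtain ⟨t, ht⟩ : ∃ t : ℚ, ∀ i, c i < t * m i := by
          refine ⟨1 + ∑ i, |c i| / m i, fun i => ?_⟩
          have h1 : |c i| / m i ≤ ∑ i, |c i| / m i :=
            Finset.single_le_sum (f := fun i => |c i| / m i)
              (fun i _ => div_nonneg (abs_nonneg _) (hm i).le) (Finset.mem_univ i)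
          have h2 : c i / m i < 1 + ∑ i, |c i| / m i := by
            have h3 : c i / m i ≤ |c i| / m i := by
              gcongr
              · exact (hm i).le
              · exact le_abs_self _
            linarith
          rwa [div_lt_iff₀ (hm i)] at h2
        refine ⟨Fin.cons 1 (fun i => t * m i - c i), fun i => ?_, ?_⟩
        · refine Fin.cases ?_ (fun i => ?_) i
          · simp
          · simpa using ht i
        · rw [Fin.sum_univ_succ]
          simp only [Fin.cons_zero, Fin.cons_succ, one_smul, sub_smul, Finset.sum_sub_distrib, hc]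
          have : ∑ i, (t * m i) • v i.succ = t • ∑ i, m i • v i.succ := by
            rw [Finset.smul_sum]
            exact Finset.sum_congr rfl fun i _ => by rw [mul_smul]
          rw [this, hm', smul_zero]
          abel
      · left
        obtain ⟨f, hf, hf'⟩ := Submodule.exists_le_ker_of_notMem hv
        have hfs : ∀ i : Fin k, f (v i.succ) = 0 := fun i =>
          hf' (Submodule.subset_span ⟨i, rfl⟩)
        refine ⟨(f (v 0)) • f, fun i => ?_, 0, ?_⟩
        · refine Fin.cases ?_ (fun i => ?_) i
          · rw [LinearMap.smul_apply, smul_eq_mul]; exact mul_self_nonneg _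
          · rw [LinearMap.smul_apply, hfs i, smul_zero]
        · rw [LinearMap.smul_apply, smul_eq_mul]
          exact mul_self_pos.2 hf

section monoid

variable {S : Type*} [CommMonoid S] {k : ℕ}

/-- Monomials in `a`. -/
def mono (a : Fin k → S) (u : Fin k → ℕ) : S := ∏ i, a i ^ u i

theorem mono_add (a : Fin k → S) (u v : Fin k → ℕ) : mono a (u + v) = mono a u * mono a v := by
  unfold mono
  rw [← Finset.prod_mul_distrib]
  exact Finset.prod_congr rfl fun i _ => pow_add _ _ _

theorem mono_smul (a : Fin k → S) (n : ℕ) (u : Fin k → ℕ) : mono a (n • u) = mono a u ^ n := by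
  unfold mono
  rw [← Finset.prod_pow]
  refine Finset.prod_congr rfl fun i _ => ?_
  rw [Pi.smul_apply, smul_eq_mul, mul_comm, pow_mul]

/-- The rational relation module. -/
def relMod (a : Fin k → S) : Submodule ℚ (Fin k → ℚ) where
  carrier := {w | ∃ N : ℕ, 0 < N ∧ ∃ u v : Fin k → ℕ, mono a u = mono a v ∧
    ∀ i, (N : ℚ) * w i = (u i : ℚ) - v i}
  zero_mem' := ⟨1, one_pos, 0, 0, rfl, fun i => by simp⟩
  add_mem' := by
    rintro w1 w2 ⟨N1, hN1, u1, v1, h1, h1'⟩ ⟨N2, hN2, u2, v2, h2, h2'⟩
    refine ⟨N1 * N2, Nat.mul_pos hN1 hN2, N2 • u1 + N1 • u2, N2 • v1 + N1 • v2, ?_, fun i => ?_⟩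
    · rw [mono_add, mono_add, mono_smul, mono_smul, mono_smul, mono_smul, h1, h2]
    · have e1 := h1' i
      have e2 := h2' i
      simp only [Pi.add_apply, Pi.smul_apply, smul_eq_mul]
      push_cast
      linear_combination (N2 : ℚ) * e1 + (N1 : ℚ) * e2
  smul_mem' := by
    rintro q w ⟨N, hN, u, v, h, h'⟩
    rcases le_total 0 q.num with hq | hq
    · refine ⟨N * q.den, Nat.mul_pos hN q.den_pos, q.num.toNat • u, q.num.toNat • v, ?_, fun i => ?_⟩
      · rw [mono_smul, mono_smul, h]
      · have e1 := h' i
        have e2 : ((q.num.toNat : ℕ) : ℚ) = q * q.den := by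
          have : ((q.num.toNat : ℕ) : ℤ) = q.num := Int.toNat_of_nonneg hq
          have h3 : ((q.num.toNat : ℕ) : ℚ) = (q.num : ℚ) := by exact_mod_cast this
          rw [h3, Rat.mul_den_eq_num]
        simp only [Pi.smul_apply, smul_eq_mul]
        push_cast
        rw [e2]
        linear_combination (q * q.den) * e1
    · refine ⟨N * q.den, Nat.mul_pos hN q.den_pos, (-q.num).toNat • v, (-q.num).toNat • u, ?_,
        fun i => ?_⟩
      · rw [mono_smul, mono_smul, h]
      · have e1 := h' i
        have e2 : (((-q.num).toNat : ℕ) : ℚ) = -(q * q.den) := by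
          have : (((-q.num).toNat : ℕ) : ℤ) = -q.num := Int.toNat_of_nonneg (by omega)
          have h3 : (((-q.num).toNat : ℕ) : ℚ) = ((-q.num : ℤ) : ℚ) := by exact_mod_cast this
          rw [h3]
          push_cast
          rw [Rat.mul_den_eq_num]
        simp only [Pi.smul_apply, smul_eq_mul]
        push_cast
        rw [e2]
        linear_combination (q * q.den) * e1

theorem exists_hom [Monoid.FG S] (hid : ∀ e : S, e * e = e → e = 1) (hng : ∃ x : S, ¬ IsUnit x) :
    ∃ l : S → ℕ, (∀ x y, l (x * y) = l x + l y) ∧ ∃ x, 0 < l x := by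
  classical
  obtain ⟨T, hT, hTfin⟩ := Monoid.fg_iff.1 (inferInstance : Monoid.FG S)
  have : Finite T := hTfin
  obtain ⟨k, ⟨e⟩⟩ := Finite.exists_equiv_fin T
  let a : Fin k → S := fun i => (e.symm i : S)
  have hrange : Set.range a = T := by
    ext x
    constructor
    · rintro ⟨i, rfl⟩
      exact (e.symm i).2
    · intro hx
      exact ⟨e ⟨x, hx⟩, by simp [a]⟩
  have hsurj : ∀ x : S, ∃ u, mono a u = x := by
    intro x
    have hx : x ∈ Submonoid.closure (Set.range a) := by rw [hrange, hT]; trivial
    obtain ⟨u, hu⟩ := Submonoid.exists_of_mem_closure_range _ _ hx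
    exact ⟨u, hu.symm⟩
  rcases stiemke k ((Fin k → ℚ) ⧸ relMod a)
    (fun i => Submodule.Quotient.mk (Pi.single i (1 : ℚ))) with ⟨l, hl, j, hj⟩ | ⟨n, hn, hn'⟩
  · -- a nonzero homomorphism to `ℕ`
    let f : (Fin k → ℚ) →ₗ[ℚ] ℚ := l.comp (relMod a).mkQ
    have hf : ∀ w : Fin k → ℚ, f w = ∑ i, w i * f (Pi.single i 1) := by
      intro w
      conv_lhs => rw [pi_eq_sum_univ' w]
      rw [map_sum]
      refine Finset.sum_congr rfl fun i _ => ?_
      rw [map_smul, smul_eq_mul]
    have hf0 : ∀ u v : Fin k → ℕ, mono a u = mono a v →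
        f (fun i => (u i : ℚ)) = f (fun i => (v i : ℚ)) := by
      intro u v huv
      rw [← sub_eq_zero, ← map_sub]
      have : ((fun i => (u i : ℚ)) - fun i => (v i : ℚ)) ∈ relMod a :=
        ⟨1, one_pos, u, v, huv, fun i => by simp⟩
      change l ((relMod a).mkQ _) = 0
      rw [Submodule.mkQ_apply, (Submodule.Quotient.mk_eq_zero _).2 this, map_zero]
    let D : ℕ := ∏ i, (f (Pi.single i 1)).den
    have hD : 0 < D := Finset.prod_pos fun i _ => Rat.den_pos _
    have hμ : ∀ i, ∃ m : ℕ, (m : ℚ) = D * f (Pi.single i 1) := by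
      intro i
      obtain ⟨d, hd⟩ : (f (Pi.single i 1)).den ∣ D := Finset.dvd_prod_of_mem _ (Finset.mem_univ i)
      have h0 : 0 ≤ f (Pi.single i 1) := hl i
      refine ⟨d * (f (Pi.single i 1)).num.toNat, ?_⟩
      have h1 : (((f (Pi.single i 1)).num.toNat : ℕ) : ℚ) = ((f (Pi.single i 1)).num : ℚ) := by
        have : (((f (Pi.single i 1)).num.toNat : ℕ) : ℤ) = (f (Pi.single i 1)).num :=
          Int.toNat_of_nonneg (Rat.num_nonneg.2 h0)
        exact_mod_cast this
      push_cast
      rw [h1, hd, ← Rat.mul_den_eq_num]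
      push_cast
      ring
    choose μ hμ' using hμ
    choose u hu using hsurj
    have key : ∀ (x : S) (v : Fin k → ℕ), mono a v = x → ∑ i, u x i * μ i = ∑ i, v i * μ i := by
      intro x v hv
      have h1 := hf0 (u x) v (by rw [hu, hv])
      rw [hf, hf (fun i => (v i : ℚ))] at h1
      have h2 : ((∑ i, u x i * μ i : ℕ) : ℚ) = ((∑ i, v i * μ i : ℕ) : ℚ) := by
        push_cast
        simp only [hμ']
        have e1 : ∀ w : Fin k → ℕ, ∑ i, (w i : ℚ) * (D * f (Pi.single i 1)) =
            D * ∑ i, (w i : ℚ) * f (Pi.single i 1) := by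
          intro w
          rw [Finset.mul_sum]
          exact Finset.sum_congr rfl fun i _ => by ring
        rw [e1, e1, h1]
      exact_mod_cast h2
    refine ⟨fun x => ∑ i, u x i * μ i, fun x y => ?_, a j, ?_⟩
    · simp only
      rw [key (x * y) (u x + u y) (by rw [mono_add, hu, hu]), ← Finset.sum_add_distrib]
      exact Finset.sum_congr rfl fun i _ => by rw [Pi.add_apply, add_mul]
    · simp only
      rw [key (a j) (Pi.single j 1) (by
        unfold mono
        rw [Finset.prod_eq_single j]
        · simp
        · intro i _ hi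
          simp [hi]
        · simp)]
      have h1 : 0 < μ j := by
        have : (0 : ℚ) < μ j := by
          rw [hμ']
          exact mul_pos (by exact_mod_cast hD) hj
        exact_mod_cast this
      have h2 : (Pi.single j 1 : Fin k → ℕ) j * μ j ≤ ∑ i, (Pi.single j 1 : Fin k → ℕ) i * μ i :=
        Finset.single_le_sum (f := fun i => (Pi.single j 1 : Fin k → ℕ) i * μ i)
          (fun _ _ => Nat.zero_le _) (Finset.mem_univ j)
      simp only [Pi.single_eq_same, one_mul] at h2
      omega
  · -- otherwise all elements are units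
    exfalso
    have h1 : n ∈ relMod a := by
      rw [← Submodule.Quotient.mk_eq_zero, ← hn', ← Submodule.mkQ_apply]
      conv_lhs => rw [pi_eq_sum_univ' n]
      rw [map_sum]
      refine Finset.sum_congr rfl fun i _ => ?_
      rw [map_smul]
      rfl
    obtain ⟨N, hN, u, v, huv, hi⟩ := h1
    have hlt : ∀ i, v i < u i := by
      intro i
      have h2 : (0 : ℚ) < (u i : ℚ) - v i := by
        rw [← hi i]
        exact mul_pos (by exact_mod_cast hN) (hn i)
      have h3 : (v i : ℚ) < u i := by linarith
      exact_mod_cast h3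
    let m : Fin k → ℕ := fun i => u i - v i
    have hm : u = v + m := by
      funext i
      have := hlt i
      simp only [m, Pi.add_apply]
      omega
    have hm1 : ∀ i, 1 ≤ m i := by
      intro i
      have := hlt i
      simp only [m]
      omega
    have hw : mono a v * mono a m = mono a v := by rw [← mono_add, ← hm, huv]
    let M : ℕ := 1 + ∑ i, v i
    have hM : ∀ i, v i ≤ M * m i := by
      intro i
      have h2 : v i ≤ ∑ i, v i := Finset.single_le_sum (fun _ _ => Nat.zero_le _) (Finset.mem_univ i)
      calc v i ≤ M := by simp only [M]; omega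
        _ = M * 1 := (mul_one _).symm
        _ ≤ M * m i := Nat.mul_le_mul_left _ (hm1 i)
    have hfac : mono a m ^ M = mono a v * mono a (M • m - v) := by
      rw [← mono_smul, ← mono_add]
      congr 1
      funext i
      have := hM i
      simp only [Pi.add_apply, Pi.sub_apply, Pi.smul_apply, smul_eq_mul]
      omega
    have hstep : mono a m ^ M * mono a m = mono a m ^ M := by
      rw [hfac, mul_right_comm, hw]
    have hpow : ∀ r, mono a m ^ M * mono a m ^ r = mono a m ^ M := by
      intro r
      induction r with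
      | zero => simp
      | succ r ih => rw [pow_succ, ← mul_assoc, ih, hstep]
    have hone : mono a m ^ M = 1 := hid _ (hpow M)
    have hunit : IsUnit (mono a m) := by
      have : IsUnit (mono a m ^ M) := by rw [hone]; exact isUnit_one
      exact (isUnit_pow_iff (by simp only [M]; omega)).1 this
    obtain ⟨x, hx⟩ := hng
    apply hx
    obtain ⟨w, hw'⟩ := hsurj x
    rw [← hw']
    have hai : ∀ i, IsUnit (a i) := by
      intro i
      refine isUnit_of_dvd_unit ?_ hunit
      have h2 : a i ∣ a i ^ m i := dvd_pow_self _ (by have := hm1 i; omega)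
      exact h2.trans (Finset.dvd_prod_of_mem (fun i => a i ^ m i) (Finset.mem_univ i))
    unfold mono
    exact (Submonoid.prod_mem (IsUnit.submonoid S) fun i _ => (hai i).pow _)

end monoid

end Pool.Agent.Helper54.EndCanc
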